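import Pool.Agent.H320.CF.Stm

/-!
CF-CHEB: the Frobenius homomorphism on a finite set of algebraic numbers. The denominators of the
elements of the set are avoided by taking the prime larger than them.
-/

set_option autoImplicit false

namespace Pool.Agent.H320.CF

open NumberField

namespace CHEBx

/-- the ring of integers as a subring -/
noncomputable def OB (κ : Type) [Field κ] [NumberField κ] : Subring κ :=
  (integralClosure ℤ κ).toSubring

theorem mem_OB {κ : Type} [Field κ] [NumberField κ] {x : κ} : x ∈ OB κ ↔ IsIntegral ℤ x := Iff.rfl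

/-- the identification with the ring of integers -/
noncomputable def psi (κ : Type) [Field κ] [NumberField κ] : OB κ →+* 𝓞 κ where
  toFun b := ⟨b.1, b.2⟩
  map_one' := rfl
  map_mul' _ _ := rfl
  map_zero' := rfl
  map_add' _ _ := rfl

theorem psi_smul {κ : Type} [Field κ] [NumberField κ] (τ : κ ≃ₐ[ℚ] κ) (b : OB κ)
    (h : τ (b : κ) ∈ OB κ) : psi κ ⟨τ (b : κ), h⟩ = τ • psi κ b := by
  apply RingOfIntegers.ext
  rfl

end CHEBx

open CHEBx

/-- CF-CHEB -/
theorem cheb (loc : Loc) (fr : Frobs) : Cheb := by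
  intro κ _ _ _ τ Y N
  classical
  have h1 : ∀ y : κ, ∃ n : ℤ, n ≠ 0 ∧ IsIntegral ℤ ((n : κ) * y) := by
    intro y
    have h2 : IsAlgebraic ℤ y := (IsFractionRing.isAlgebraic_iff ℤ ℚ κ).2
      (Algebra.IsAlgebraic.isAlgebraic y)
    obtain ⟨n, hn, h3⟩ := h2.exists_integral_multiple
    refine ⟨n, hn, ?_⟩
    rwa [zsmul_eq_mul] at h3
  choose n hn0 hn using h1
  obtain ⟨p, hp, hpp, φ, hφ⟩ := fr κ τ (max N (Y.sup fun y => (n y).natAbs))
  refine ⟨p, (le_max_left _ _).trans_lt hp, hpp, ?_⟩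
  have hB : ∀ b ∈ OB κ, τ b ∈ OB κ := fun b hb => map_isIntegral_int τ hb
  obtain ⟨B, hB2, ψ, hX, hψ⟩ := loc κ (AlgebraicClosure (ZMod p)) (τ : κ ≃+* κ)
    (frobenius (AlgebraicClosure (ZMod p)) p) (OB κ) hB (φ.comp (psi κ)) (fun b => by
      show φ (psi κ ⟨τ (b : κ), hB b b.2⟩) = φ (psi κ b) ^ p
      rw [psi_smul, hφ])
  refine ⟨B, hB2, ψ, fun y hy => hX y ?_, hψ⟩
  have h4 : IsIntegral ℤ ((n y : ℤ) : κ) := isIntegral_algebraMap (R := ℤ) (A := κ)
  refine ⟨⟨(n y : κ) * y, hn y⟩, ⟨(n y : κ), h4⟩, ?_, ?_⟩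
  · have h5 : (⟨(n y : κ), h4⟩ : OB κ) = ((n y : ℤ) : OB κ) := by
      apply Subtype.ext
      simp
    rw [h5, map_intCast]
    intro h6
    rw [CharP.intCast_eq_zero_iff (AlgebraicClosure (ZMod p)) p] at h6
    have h7 : (n y).natAbs < p :=
      ((Finset.le_sup (f := fun y => (n y).natAbs) hy).trans (le_max_right _ _)).trans_lt hp
    have h8 : p ∣ (n y).natAbs := Int.natCast_dvd.1 h6
    exact hn0 y (Int.natAbs_eq_zero.1 (Nat.eq_zero_of_dvd_of_lt h8 h7))
  · show y = ((n y : κ) * y) / (n y : κ)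
    rw [mul_div_cancel_left₀]
    exact_mod_cast hn0 y

end Pool.Agent.H320.CF
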