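import Pool.Agent.H320.CF.Stm

/-! CF-CNT (helper618 for helper320), adapted from NT-A1 of helper348. -/

set_option autoImplicit false

namespace Pool.Agent.H320.CF

namespace CNTx

/-- the part of the order of `GL_n` prime to `p` -/
def PJ (p n : ℕ) : ℕ := ∏ j ∈ Finset.range n, (p ^ (j + 1) - 1)

theorem PJ_succ (p n : ℕ) : PJ p (n + 1) = PJ p n * (p ^ (n + 1) - 1) :=
  Finset.prod_range_succ _ _

theorem card_GL (p n : ℕ) (hp : p.Prime) :
    ∃ B : ℕ, Nat.card (Matrix.GeneralLinearGroup (Fin n) (ZMod p)) = p ^ B * PJ p n := by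
  have : Fact p.Prime := ⟨hp⟩
  refine ⟨∑ i ∈ Finset.range n, i, ?_⟩
  rw [Matrix.card_GL_field, ZMod.card, Fin.prod_univ_eq_prod_range (fun i => p ^ n - p ^ i) n]
  have h1 : ∀ i ∈ Finset.range n, p ^ n - p ^ i = p ^ i * (p ^ (n - 1 - i + 1) - 1) := by
    intro i hi
    have hi' := Finset.mem_range.1 hi
    rw [Nat.mul_sub, mul_one, ← pow_add]
    congr 2
    omega
  rw [Finset.prod_congr rfl h1, Finset.prod_mul_distrib, Finset.prod_pow_eq_pow_sum,
    Finset.prod_range_reflect (fun j => p ^ (j + 1) - 1) n, PJ]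

theorem PJ_ne_zero (p n : ℕ) (hp : p.Prime) : PJ p n ≠ 0 := by
  refine Finset.prod_ne_zero_iff.2 fun j _ => ?_
  have : 1 < p ^ (j + 1) := Nat.one_lt_pow (by omega) hp.one_lt
  omega

theorem exists_r (l N X : ℕ) (hl : l.Prime) (hN : N ≠ 0) (hX : X ≠ 0)
    (h : padicValNat l N ≤ padicValNat l X) : ∃ r : ℕ, ¬ l ∣ r ∧ N ∣ r * X := by
  have : Fact l.Prime := ⟨hl⟩
  refine ⟨N / l ^ (N.factorization l), Nat.not_dvd_ordCompl hl hN, ?_⟩
  have h1 : l ^ N.factorization l ∣ X := by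
    rw [Nat.factorization_def _ hl]
    exact (padicValNat_dvd_iff_le hX).2 h
  calc N = (N / l ^ (N.factorization l)) * l ^ (N.factorization l) := by
        rw [mul_comm]; exact (Nat.ordProj_mul_ordCompl_eq_self N l).symm
    _ ∣ _ := Nat.mul_dvd_mul_left _ h1

/-- the final step -/
theorem fin_r (l p n X : ℕ) (hl : l.Prime) (hp : p.Prime) (hlp : l ≠ p) (hX : X ≠ 0)
    (h : padicValNat l (PJ p n) ≤ padicValNat l X) :
    ∃ r : ℕ, ¬ l ∣ r ∧ Nat.card (Matrix.GeneralLinearGroup (Fin n) (ZMod p)) ∣ r * X := by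
  have : Fact l.Prime := ⟨hl⟩
  have : Fact p.Prime := ⟨hp⟩
  obtain ⟨B, hB⟩ := card_GL p n hp
  rw [hB]
  refine exists_r l _ X hl (mul_ne_zero (pow_ne_zero _ hp.ne_zero) (PJ_ne_zero p n hp)) hX ?_
  rw [padicValNat.mul (pow_ne_zero _ hp.ne_zero) (PJ_ne_zero p n hp),
    padicValNat.pow, padicValNat_primes hlp, mul_zero, zero_add]
  exact h

/-- lifting the exponent -/
theorem lte (l p s b k : ℕ) (hl : l.Prime) (hl2 : l ≠ 2) (hp : p.Prime) (hlp : l ≠ p)
    (hs : 0 < s) (hb : 0 < b) (h3 : l ^ b ∣ p ^ s - 1) (h4 : ¬ l ^ (b + 1) ∣ p ^ s - 1)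
    (hk : k ≠ 0) : padicValNat l (p ^ (s * k) - 1) = b + padicValNat l k := by
  have : Fact l.Prime := ⟨hl⟩
  have hps : p ^ s - 1 ≠ 0 := by
    have : 1 < p ^ s := Nat.one_lt_pow hs.ne' hp.one_lt
    omega
  have hpj : (p ^ s) ^ k - 1 ≠ 0 := by
    have h1 : 1 < p ^ s := Nat.one_lt_pow hs.ne' hp.one_lt
    have : 1 < (p ^ s) ^ k := Nat.one_lt_pow hk h1
    omega
  have hva : padicValNat l (p ^ s - 1) = b := by
    apply le_antisymm
    · by_contra hlt
      push Not at hlt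
      exact h4 ((padicValNat_dvd_iff_le hps).2 hlt)
    · exact (padicValNat_dvd_iff_le hps).1 h3
  have hd : l ∣ p ^ s - 1 := (dvd_pow_self l hb.ne').trans h3
  have hn : ¬ l ∣ p ^ s := by
    intro h
    have := hl.dvd_of_dvd_pow h
    exact hlp ((Nat.prime_dvd_prime_iff_eq hl hp).1 this)
  have h7 := Nat.emultiplicity_pow_sub_pow (p := l) (x := p ^ s) (y := 1) hl
    (hl.odd_of_ne_two hl2) hd hn k
  rw [one_pow, ← padicValNat_eq_emultiplicity hpj, ← padicValNat_eq_emultiplicity hps,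
    ← padicValNat_eq_emultiplicity hk, hva, ← pow_mul] at h7
  exact_mod_cast h7

end CNTx

open CNTx

theorem cnt : Cnt := by
  intro l p s b n hl hl2 hp hlp hs hj hb h3 h4
  have : Fact l.Prime := ⟨hl⟩
  refine fin_r l p n _ hl hp hlp
    (mul_ne_zero (pow_ne_zero _ hl.ne_zero) (n / s).factorial_ne_zero) (le_of_eq ?_)
  have key : ∀ n : ℕ, padicValNat l (PJ p n) = b * (n / s) + padicValNat l (n / s).factorial := by
    intro n
    induction n with
    | zero => simp [PJ]
    | succ n ih =>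
      have hne : p ^ (n + 1) - 1 ≠ 0 := by
        have : 1 < p ^ (n + 1) := Nat.one_lt_pow (by omega) hp.one_lt
        omega
      rw [PJ_succ, padicValNat.mul (PJ_ne_zero p n hp) hne, ih, Nat.succ_div]
      by_cases hd : s ∣ n + 1
      · rw [if_pos hd]
        obtain ⟨k, hk⟩ := hd
        have hk0 : k ≠ 0 := by
          rintro rfl
          omega
        have h5 : n / s + 1 = k := by
          have h6 : (n + 1) / s = k := by rw [hk, Nat.mul_div_cancel_left _ hs]
          rw [Nat.succ_div, if_pos ⟨k, hk⟩] at h6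
          exact h6
        rw [hk, lte l p s b k hl hl2 hp hlp hs hb h3 h4 hk0, Nat.factorial_succ,
          padicValNat.mul (by omega) (n / s).factorial_ne_zero, h5, ← h5]
        ring
      · have h0 : padicValNat l (p ^ (n + 1) - 1) = 0 :=
          padicValNat.eq_zero_of_not_dvd fun h => hd (hj _ h)
        rw [if_neg hd, h0, add_zero, add_zero]
  rw [key, padicValNat.mul (pow_ne_zero _ hl.ne_zero) (n / s).factorial_ne_zero,
    padicValNat.prime_pow]

end Pool.Agent.H320.CF
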