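import Pool.Agent.H320.CF.Stm

/-! # CF-CYCA: subgroups of the unit group modulo a prime power are cyclic -/

set_option autoImplicit false

namespace Pool.Agent.H320.CF

namespace CYCAx

theorem val_one (n : ℕ) (u : (ZMod (2 ^ (n + 2)))ˣ) (h : 4 ∣ (u : ZMod (2 ^ (n + 2))).val - 1) :
    ZMod.unitsMap (show 4 ∣ 2 ^ (n + 2) from ⟨2 ^ n, by ring⟩) u = 1 := by
  have hpos : 0 < (u : ZMod (2 ^ (n + 2))).val := by
    rw [ZMod.val_pos]
    intro h0
    have h1 : (1 : ZMod (2 ^ (n + 2))) ≠ 0 := by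
      have : Fact (1 < 2 ^ (n + 2)) := ⟨Nat.one_lt_two_pow (by omega)⟩
      exact one_ne_zero
    apply h1
    have := u.mul_inv
    rw [h0, zero_mul] at this
    exact this.symm
  apply Units.ext
  rw [ZMod.unitsMap_val, Units.val_one]
  rw [ZMod.cast_eq_val]
  obtain ⟨k, hk⟩ := h
  have h2 : (u : ZMod (2 ^ (n + 2))).val = 4 * k + 1 := by omega
  rw [h2]
  push_cast
  have h4 : (4 : ZMod 4) = 0 := by decide
  rw [h4]
  ring

theorem ker_cyclic (n : ℕ) :
    IsCyclic (ZMod.unitsMap (show 4 ∣ 2 ^ (n + 2) from ⟨2 ^ n, by ring⟩)).ker := by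
  set φ := ZMod.unitsMap (show 4 ∣ 2 ^ (n + 2) from ⟨2 ^ n, by ring⟩) with hφ
  have hsurj : Function.Surjective φ := ZMod.unitsMap_surjective _
  have hcard : Nat.card φ.ker * 2 = 2 ^ (n + 1) := by
    have h1 := φ.ker.card_mul_index
    rw [Subgroup.index_ker, MonoidHom.range_eq_top.2 hsurj] at h1
    have h2 : Nat.card (⊤ : Subgroup (ZMod 4)ˣ) = 2 := by
      rw [Nat.card_congr Subgroup.topEquiv.toEquiv, Nat.card_eq_fintype_card]
      decide
    have h3 : Nat.card (ZMod (2 ^ (n + 2)))ˣ = 2 ^ (n + 1) := by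
      rw [Nat.card_eq_fintype_card, ZMod.card_units_eq_totient,
        Nat.totient_prime_pow Nat.prime_two (by omega)]
      have : n + 2 - 1 = n + 1 := by omega
      rw [this]
      norm_num
    rw [h2, h3] at h1
    exact h1
  have hcard2 : Nat.card φ.ker = 2 ^ n := by
    have h6 : 2 ^ (n + 1) = 2 ^ n * 2 := pow_succ 2 n
    omega
  have h5u : IsUnit (5 : ZMod (2 ^ (n + 2))) := by
    have h := (ZMod.isUnit_iff_coprime 5 (2 ^ (n + 2))).2 (Nat.Coprime.pow_right _ (by decide))
    exact_mod_cast h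
  obtain ⟨g, hg⟩ := h5u
  have hord : orderOf g = 2 ^ n := by
    rw [← orderOf_units, hg]
    exact ZMod.orderOf_five n
  have hgker : g ∈ φ.ker := by
    rw [MonoidHom.mem_ker]
    apply Units.ext
    rw [hφ, ZMod.unitsMap_val, hg, Units.val_one]
    have h1 : ((5 : ℕ) : ZMod (2 ^ (n + 2))) = 5 := by norm_num
    rw [← h1, ZMod.cast_natCast (show 4 ∣ 2 ^ (n + 2) from ⟨2 ^ n, by ring⟩)]
    decide
  have hle : Subgroup.zpowers g ≤ φ.ker := by
    rw [Subgroup.zpowers_le]
    exact hgker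
  have heq : Subgroup.zpowers g = φ.ker := by
    apply Subgroup.eq_of_le_of_card_ge hle
    rw [hcard2, Nat.card_zpowers, hord]
  rw [← heq]
  infer_instance

end CYCAx

open CYCAx in
theorem cycA : CycA := by
  intro l E hl H h
  by_cases hl2 : l = 2
  · subst hl2
    match E, H, h with
    | 0, H, _ =>
      have : Subsingleton (ZMod (2 ^ 0)) := by
        rw [pow_zero]; infer_instance
      have : Subsingleton (ZMod (2 ^ 0))ˣ := inferInstance
      infer_instance
    | 1, H, _ =>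
      have : IsCyclic (ZMod (2 ^ 1))ˣ := by
        rw [ZMod.isCyclic_units_two_pow_iff]; norm_num
      infer_instance
    | n + 2, H, h =>
      have := ker_cyclic n
      refine Subgroup.isCyclic_of_le (H' := (ZMod.unitsMap
        (show 4 ∣ 2 ^ (n + 2) from ⟨2 ^ n, by ring⟩)).ker) ?_
      intro u hu
      rw [MonoidHom.mem_ker]
      exact val_one n u (h rfl u hu)
  · have := ZMod.isCyclic_units_of_prime_pow l hl hl2 E
    infer_instance

end Pool.Agent.H320.CF
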