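import Pool.Agent.H320.CF.Stm

/-!
CF-CYCB: degrees of roots of unity from a Frobenius homomorphism.
-/

set_option autoImplicit false

namespace Pool.Agent.H320.CF

open Polynomial NumberField

namespace CYCBx

theorem pow_congr {R : Type} [Monoid R] {M : ℕ} {x : R} (hx : x ^ M = 1) {a b : ℕ}
    (h : (a : ZMod M) = b) : x ^ a = x ^ b := by
  have h1 : a % M = b % M := (ZMod.natCast_eq_natCast_iff a b M).1 h
  rw [pow_eq_pow_mod a hx, pow_eq_pow_mod b hx, h1]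

theorem mod_of_le {F : Type} [Field F] {M : ℕ} {z : F} (hz : IsPrimitiveRoot z M) (hM : M ≠ 0)
    {a b : ℕ} (hab : a ≤ b) (h : z ^ a = z ^ b) : (a : ZMod M) = b := by
  obtain ⟨d, rfl⟩ := Nat.exists_eq_add_of_le hab
  have h0 : z ^ a ≠ 0 := pow_ne_zero _ (hz.ne_zero hM)
  have h1 : z ^ d = 1 := by
    rw [pow_add] at h
    exact (mul_left_cancel₀ h0 (by rw [mul_one]; exact h)).symm
  have h2 : ((d : ℕ) : ZMod M) = 0 := (ZMod.natCast_eq_zero_iff d M).2 (hz.dvd_of_pow_eq_one d h1)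
  rw [Nat.cast_add, h2, add_zero]

theorem mod_of_pow_eq {F : Type} [Field F] {M : ℕ} {z : F} (hz : IsPrimitiveRoot z M) (hM : M ≠ 0)
    {a b : ℕ} (h : z ^ a = z ^ b) : (a : ZMod M) = b := by
  rcases le_total a b with hab | hab
  · exact mod_of_le hz hM hab h
  · exact (mod_of_le hz hM hab h.symm).symm

/-- an element with `x ^ 2 = -1` has order four -/
theorem ord4 {F : Type} [Field F] {x : F} (h : x ^ 2 = -1) (h1 : (-1 : F) ≠ 1) {n : ℕ}
    (hn : x ^ n = 1) : 4 ∣ n := by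
  have h2 : orderOf x = 2 ^ (1 + 1) := by
    have : Fact (Nat.Prime 2) := ⟨Nat.prime_two⟩
    refine orderOf_eq_prime_pow ?_ ?_
    · rw [pow_one, h]
      exact h1
    · rw [show 2 ^ (1 + 1) = 2 * 2 from rfl, pow_mul, h]
      norm_num
  have h3 := orderOf_dvd_of_pow_eq_one hn
  rw [h2] at h3
  exact h3

/-- the roots of the minimal polynomial of a root of unity -/
theorem deg_le {K : Type} [Field K] [CharZero K] {q s p : ℕ} {ξ : AlgebraicClosure K}
    (hs : 0 < s) (hp : 0 < p) (hq : q ∣ p ^ s - 1) (hξ : ξ ^ q = 1)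
    (h : ∀ τ : AlgebraicClosure K ≃ₐ[K] AlgebraicClosure K, ∃ j : ℕ, τ ξ = ξ ^ (p ^ j)) :
    (minpoly K ξ).natDegree ≤ s := by
  classical
  have hint : IsIntegral K ξ := Algebra.IsIntegral.isIntegral ξ
  have hsep : (minpoly K ξ).Separable := (minpoly.irreducible hint).separable
  rw [← card_rootSet_eq_natDegree (K := AlgebraicClosure K) hsep
    (IsAlgClosed.splits _)]
  have hmod : ∀ j : ℕ, ξ ^ (p ^ j) = ξ ^ (p ^ (j % s)) := by
    intro j
    refine pow_congr hξ ?_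
    have h1 : ((p : ZMod q)) ^ s = 1 := by
      have h2 : ((p ^ s - 1 : ℕ) : ZMod q) = 0 := (ZMod.natCast_eq_zero_iff _ q).2 hq
      rw [Nat.cast_sub (Nat.one_le_pow _ _ hp), Nat.cast_pow, Nat.cast_one] at h2
      exact sub_eq_zero.1 h2
    push_cast
    exact pow_eq_pow_mod j h1
  have hsub : (minpoly K ξ).rootSet (AlgebraicClosure K) ⊆
      (((Finset.range s).image fun j => ξ ^ (p ^ j) : Finset (AlgebraicClosure K)) :
        Set (AlgebraicClosure K)) := by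
    intro y hy
    have h1 : IsConjRoot K ξ y := (isConjRoot_iff_mem_minpoly_rootSet hint).2 hy
    obtain ⟨τ, hτ⟩ := isConjRoot_iff_exists_algEquiv.1 h1.symm
    obtain ⟨j, hj⟩ := h τ
    rw [Finset.mem_coe, Finset.mem_image]
    refine ⟨j % s, Finset.mem_range.2 (Nat.mod_lt _ hs), ?_⟩
    rw [← hmod, ← hj, hτ]
  have h2 : Fintype.card ((minpoly K ξ).rootSet (AlgebraicClosure K)) ≤
      ((Finset.range s).image fun j => ξ ^ (p ^ j)).card := by
    rw [← Set.toFinset_card]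
    refine Finset.card_le_card fun y hy => ?_
    rw [Set.mem_toFinset] at hy
    exact Finset.mem_coe.1 (hsub hy)
  refine h2.trans (Finset.card_image_le.trans ?_)
  rw [Finset.card_range]

end CYCBx

open CYCBx in
theorem cycB (cyc : CycA) : CycB := by
  classical
  intro K _ _ l E hl hi
  have hM0 : l ^ E ≠ 0 := pow_ne_zero _ hl.ne_zero
  have : NeZero (l ^ E) := ⟨hM0⟩
  have : NeZero (((l ^ E : ℕ)) : AlgebraicClosure K) := ⟨by exact_mod_cast hM0⟩
  obtain ⟨ζ, hζ⟩ : ∃ ζ : AlgebraicClosure K, IsPrimitiveRoot ζ (l ^ E) :=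
    (IsSepClosed.hasEnoughRootsOfUnity (AlgebraicClosure K) (l ^ E)).prim
  obtain ⟨ι, hι⟩ : ∃ ι : AlgebraicClosure K, l = 2 → ι ^ 2 = -1 ∧
      ∀ τ : AlgebraicClosure K ≃ₐ[K] AlgebraicClosure K, τ ι = ι := by
    by_cases h2 : l = 2
    · obtain ⟨i, hi⟩ := hi h2
      refine ⟨algebraMap K _ i, fun _ => ⟨?_, fun τ => τ.commutes i⟩⟩
      rw [← map_pow, hi, map_neg, map_one]
    · exact ⟨0, fun h => absurd h h2⟩
  set χ := hζ.autToPow K with hχdef
  have hχ : ∀ τ : AlgebraicClosure K ≃ₐ[K] AlgebraicClosure K,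
      τ ζ = ζ ^ ((χ τ : ZMod (l ^ E)).val) := fun τ => (hζ.autToPow_spec K τ).symm
  have hcyc : IsCyclic χ.range := by
    refine cyc l E hl χ.range ?_
    rintro h2 u ⟨τ, rfl⟩
    obtain ⟨hι2, hιτ⟩ := hι h2
    by_cases hE : 2 ≤ E
    · have h4 : ι ^ (l ^ E) = 1 := by
        obtain ⟨e, rfl⟩ := Nat.exists_eq_add_of_le hE
        rw [pow_add, h2, show 2 ^ 2 = 2 * 2 from rfl, mul_assoc, pow_mul, hι2,
          pow_mul, neg_one_sq, one_pow]
      obtain ⟨k, -, hk⟩ := hζ.eq_pow_of_pow_eq_one h4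
      have h5 : ι ^ ((χ τ : ZMod (l ^ E)).val) = ι := by
        conv_rhs => rw [← hιτ τ, ← hk, map_pow, hχ τ]
        rw [← hk, ← pow_mul, ← pow_mul, mul_comm]
      have h0 : ι ≠ 0 := by
        intro h
        rw [h] at hι2
        norm_num at hι2
      rcases Nat.eq_zero_or_pos (χ τ : ZMod (l ^ E)).val with h6 | h6
      · rw [h6]
        exact ⟨0, rfl⟩
      · refine ord4 hι2 (by norm_num) ?_
        have h7 : ι ^ ((χ τ : ZMod (l ^ E)).val - 1) * ι = 1 * ι := by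
          rw [← pow_succ, Nat.sub_add_cancel h6, h5, one_mul]
        exact mul_right_cancel₀ h0 h7
    · have h3 : (χ τ : ZMod (l ^ E)).val < 2 := by
        refine lt_of_lt_of_le (ZMod.val_lt _) ?_
        rw [h2]
        calc 2 ^ E ≤ 2 ^ 1 := Nat.pow_le_pow_right (by norm_num) (by omega)
          _ = 2 := by norm_num
      have h4 : (χ τ : ZMod (l ^ E)).val - 1 = 0 := by omega
      rw [h4]
      exact ⟨0, rfl⟩
  obtain ⟨⟨g, σ, hσ⟩, hg⟩ := hcyc.exists_generator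
  have hgen : ∀ τ : AlgebraicClosure K ≃ₐ[K] AlgebraicClosure K, ∃ j : ℕ, χ τ = (χ σ) ^ j := by
    intro τ
    obtain ⟨j, hj⟩ := mem_powers_iff_mem_zpowers.2 (hg ⟨χ τ, τ, rfl⟩)
    refine ⟨j, ?_⟩
    have h1 := congrArg Subtype.val hj
    simp only [SubmonoidClass.coe_pow] at h1
    rw [hσ]
    exact h1.symm
  refine ⟨σ, {ζ, ι} ∪ (Finset.range (l ^ E)).image fun j => (1 - ζ ^ j)⁻¹, ?_⟩
  rintro p hp hpl ⟨B, hB, φ, hX, hφ⟩
  have hpp : p.Prime := hp.out
  have hζB : ζ ∈ B := hX ζ (by simp)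
  have hιB : ι ∈ B := hX ι (by simp)
  set z := φ ⟨ζ, hζB⟩ with hz
  have hz1 : z ^ (l ^ E) = 1 := by
    rw [hz, ← map_pow, ← map_one φ]
    exact congrArg φ (Subtype.ext hζ.pow_eq_one)
  have hzp : IsPrimitiveRoot z (l ^ E) := by
    refine IsPrimitiveRoot.mk_of_lt z (Nat.pos_of_ne_zero hM0) hz1 ?_
    intro j hj0 hj hzj
    have h1 : (1 - ζ ^ j)⁻¹ ∈ B := hX _ (by
      rw [Finset.mem_coe, Finset.mem_union]
      exact Or.inr (Finset.mem_image.2 ⟨j, Finset.mem_range.2 hj, rfl⟩))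
    have h2 : (1 : AlgebraicClosure K) - ζ ^ j ≠ 0 := by
      intro h
      exact hζ.pow_ne_one_of_pos_of_lt hj0.ne' hj (sub_eq_zero.1 h).symm
    have h3 : (⟨_, h1⟩ : B) * (1 - (⟨ζ, hζB⟩ : B) ^ j) = 1 := Subtype.ext (inv_mul_cancel₀ h2)
    have h4 := congrArg φ h3
    rw [map_mul, map_sub, map_one, map_pow, ← hz, hzj, sub_self, mul_zero] at h4
    exact zero_ne_one h4
  have hpc : ((p : ℕ) : ZMod (l ^ E)) = (χ σ : ZMod (l ^ E)) := by
    have h1 := hφ ⟨ζ, hζB⟩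
    have h2 : (⟨(σ : AlgebraicClosure K ≃+* AlgebraicClosure K) ζ, hB ζ hζB⟩ : B) =
        (⟨ζ, hζB⟩ : B) ^ ((χ σ : ZMod (l ^ E)).val) := Subtype.ext (hχ σ)
    rw [h2, map_pow, frobenius_def, ← hz] at h1
    have h3 := mod_of_pow_eq hzp hM0 h1
    rw [← h3, ZMod.natCast_val, ZMod.cast_id', id_eq]
  refine ⟨?_, ?_⟩
  · intro b hb s hs hdvd ξ hξ
    have hξM : ξ ^ (l ^ E) = 1 := by
      obtain ⟨e, he⟩ := pow_dvd_pow l hb
      rw [he, pow_mul, hξ.pow_eq_one, one_pow]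
    obtain ⟨k, -, hk⟩ := hζ.eq_pow_of_pow_eq_one hξM
    refine deg_le hs hpp.pos hdvd hξ.pow_eq_one fun τ => ?_
    obtain ⟨j, hj⟩ := hgen τ
    refine ⟨j, ?_⟩
    have h1 : ζ ^ ((χ τ : ZMod (l ^ E)).val) = ζ ^ (p ^ j) := by
      refine pow_congr hζ.pow_eq_one ?_
      rw [ZMod.natCast_val, ZMod.cast_id', id_eq, hj, Nat.cast_pow, hpc, Units.val_pow_eq_pow_val]
    rw [← hk, map_pow, hχ τ, h1, ← pow_mul, ← pow_mul, mul_comm]
  · intro h2
    obtain ⟨hι2, hιτ⟩ := hι h2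
    have h1 := hφ ⟨ι, hιB⟩
    have h3 : (⟨(σ : AlgebraicClosure K ≃+* AlgebraicClosure K) ι, hB ι hιB⟩ : B) =
        (⟨ι, hιB⟩ : B) := Subtype.ext (hιτ σ)
    rw [h3, frobenius_def] at h1
    have h4 : φ ⟨ι, hιB⟩ ^ 2 = -1 := by
      rw [← map_pow, ← map_one φ, ← map_neg]
      exact congrArg φ (Subtype.ext hι2)
    have h0 : φ ⟨ι, hιB⟩ ≠ 0 := by
      intro h
      rw [h] at h4
      norm_num at h4
    have : CharP (AlgebraicClosure (ZMod p)) p := inferInstance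
    refine ord4 h4 ?_ ?_
    · intro h5
      have h6 : (2 : AlgebraicClosure (ZMod p)) = 0 := by linear_combination -h5
      have h7 : ((2 : ℕ) : AlgebraicClosure (ZMod p)) = 0 := by exact_mod_cast h6
      have h8 := (CharP.cast_eq_zero_iff (AlgebraicClosure (ZMod p)) p 2).1 h7
      have h9 := (Nat.prime_dvd_prime_iff_eq hpp Nat.prime_two).1 h8
      exact hpl (h9.trans h2.symm)
    · have h7 : φ ⟨ι, hιB⟩ ^ (p - 1) * φ ⟨ι, hιB⟩ = 1 * φ ⟨ι, hιB⟩ := by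
        rw [← pow_succ, Nat.sub_add_cancel hpp.one_lt.le, ← h1, one_mul]
      exact mul_right_cancel₀ h0 h7

end Pool.Agent.H320.CF

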