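import Pool.Agent.H320.CF.Stm2

/-!
CF-CYCC and CF-CYCD: roots of unity of order a power of two from a Frobenius homomorphism.
-/

set_option autoImplicit false

namespace Pool.Agent.H320.CF

open Polynomial NumberField

namespace CYCCDx

theorem pow_congr {R : Type} [Monoid R] {M : ℕ} {x : R} (hx : x ^ M = 1) {a b : ℕ}
    (h : (a : ZMod M) = b) : x ^ a = x ^ b := by
  have h1 : a % M = b % M := (ZMod.natCast_eq_natCast_iff a b M).1 h
  rw [pow_eq_pow_mod a hx, pow_eq_pow_mod b hx, h1]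

theorem mod_of_le {F : Type} [Field F] {M : ℕ} {z : F} (hz : IsPrimitiveRoot z M) (hM : M ≠ 0)
    {a b : ℕ} (hab : a ≤ b) (h : z ^ a = z ^ b) : (a : ZMod M) = b := by
  obtain ⟨d, rfl⟩ := Nat.exists_eq_add_of_le hab
  have h0 : z ^ a ≠ 0 := pow_ne_zero _ (hz.ne_zero hM)
  have h1 : z ^ d = 1 := by
    rw [pow_add] at h
    exact (mul_left_cancel₀ h0 (by rw [mul_one]; exact h)).symm
  have h2 : ((d : ℕ) : ZMod M) = 0 := (ZMod.natCast_eq_zero_iff d M).2 (hz.dvd_of_pow_eq_one d h1)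
  rw [Nat.cast_add, h2, add_zero]

theorem mod_of_pow_eq {F : Type} [Field F] {M : ℕ} {z : F} (hz : IsPrimitiveRoot z M) (hM : M ≠ 0)
    {a b : ℕ} (h : z ^ a = z ^ b) : (a : ZMod M) = b := by
  rcases le_total a b with hab | hab
  · exact mod_of_le hz hM hab h
  · exact (mod_of_le hz hM hab h.symm).symm

/-- an element with `x ^ 2 = -1` has order four -/
theorem ord4 {F : Type} [Field F] {x : F} (h : x ^ 2 = -1) (h1 : (-1 : F) ≠ 1) {n : ℕ}
    (hn : x ^ n = 1) : 4 ∣ n := by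
  have h2 : orderOf x = 2 ^ (1 + 1) := by
    have : Fact (Nat.Prime 2) := ⟨Nat.prime_two⟩
    refine orderOf_eq_prime_pow ?_ ?_
    · rw [pow_one, h]
      exact h1
    · rw [show 2 ^ (1 + 1) = 2 * 2 from rfl, pow_mul, h]
      norm_num
  have h3 := orderOf_dvd_of_pow_eq_one hn
  rw [h2] at h3
  exact h3

variable {K : Type} [Field K]

/-- the finite set where the homomorphism has to be defined -/
noncomputable def XX (ζ : AlgebraicClosure K) (M : ℕ) : Finset (AlgebraicClosure K) := by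
  classical
  exact {ζ} ∪ (Finset.range M).image fun j => (1 - ζ ^ j)⁻¹

theorem mem1 (ζ : AlgebraicClosure K) (M : ℕ) : ζ ∈ XX ζ M := by
  classical
  unfold XX
  exact Finset.mem_union_left _ (Finset.mem_singleton_self _)

theorem mem2 (ζ : AlgebraicClosure K) {M j : ℕ} (hj : j < M) : (1 - ζ ^ j)⁻¹ ∈ XX ζ M := by
  classical
  unfold XX
  exact Finset.mem_union_right _ (Finset.mem_image.2 ⟨j, Finset.mem_range.2 hj, rfl⟩)

/-- the residue of the prime is the value of the cyclotomic character -/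
theorem frob_mod {M : ℕ} [NeZero M] {ζ : AlgebraicClosure K} (hζ : IsPrimitiveRoot ζ M)
    (σ : AlgebraicClosure K ≃ₐ[K] AlgebraicClosure K) (p : ℕ) [Fact p.Prime]
    (h : FrobAt (σ : AlgebraicClosure K ≃+* AlgebraicClosure K) (XX ζ M) p) :
    ((p : ℕ) : ZMod M) = (hζ.autToPow K σ : ZMod M) := by
  have hM0 : M ≠ 0 := NeZero.ne M
  obtain ⟨B, hB, φ, hX, hφ⟩ := h
  have hζB : ζ ∈ B := hX ζ (mem1 ζ M)
  set z := φ ⟨ζ, hζB⟩ with hz
  have hz1 : z ^ M = 1 := by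
    rw [hz, ← map_pow, ← map_one φ]
    exact congrArg φ (Subtype.ext hζ.pow_eq_one)
  have hzp : IsPrimitiveRoot z M := by
    refine IsPrimitiveRoot.mk_of_lt z (Nat.pos_of_ne_zero hM0) hz1 ?_
    intro j hj0 hj hzj
    have h1 : (1 - ζ ^ j)⁻¹ ∈ B := hX _ (mem2 ζ hj)
    have h2 : (1 : AlgebraicClosure K) - ζ ^ j ≠ 0 := by
      intro h
      exact hζ.pow_ne_one_of_pos_of_lt hj0.ne' hj (sub_eq_zero.1 h).symm
    have h3 : (⟨_, h1⟩ : B) * (1 - (⟨ζ, hζB⟩ : B) ^ j) = 1 := Subtype.ext (inv_mul_cancel₀ h2)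
    have h4 := congrArg φ h3
    rw [map_mul, map_sub, map_one, map_pow, ← hz, hzj, sub_self, mul_zero] at h4
    exact zero_ne_one h4
  have h1 := hφ ⟨ζ, hζB⟩
  have h2 : (⟨(σ : AlgebraicClosure K ≃+* AlgebraicClosure K) ζ, hB ζ hζB⟩ : B) =
      (⟨ζ, hζB⟩ : B) ^ ((hζ.autToPow K σ : ZMod M).val) :=
    Subtype.ext (hζ.autToPow_spec K σ).symm
  rw [h2, map_pow, frobenius_def, ← hz] at h1
  have h3 := mod_of_pow_eq hzp hM0 h1
  rw [← h3, ZMod.natCast_val, ZMod.cast_id', id_eq]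

/-- the action on the roots of unity of smaller order -/
theorem act {M : ℕ} [NeZero M] {ζ : AlgebraicClosure K} (hζ : IsPrimitiveRoot ζ M)
    (τ : AlgebraicClosure K ≃ₐ[K] AlgebraicClosure K) {x : AlgebraicClosure K} (hx : x ^ M = 1) :
    τ x = x ^ ((hζ.autToPow K τ : ZMod M).val) := by
  obtain ⟨k, -, hk⟩ := hζ.eq_pow_of_pow_eq_one hx
  rw [← hk, map_pow, ← hζ.autToPow_spec K τ, ← pow_mul, ← pow_mul, mul_comm]

/-- the roots of the minimal polynomial are conjugate -/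
theorem conj_of_root {x y : AlgebraicClosure K} (h : aeval y (minpoly K x) = 0) :
    ∃ τ : AlgebraicClosure K ≃ₐ[K] AlgebraicClosure K, τ x = y := by
  have hint : IsIntegral K x := Algebra.IsIntegral.isIntegral x
  have h1 : IsConjRoot K x y := by
    refine (isConjRoot_iff_mem_minpoly_rootSet hint).2 ?_
    exact (mem_rootSet_of_ne (minpoly.ne_zero hint)).2 h
  exact isConjRoot_iff_exists_algEquiv.1 h1.symm

end CYCCDx

open CYCCDx in
theorem cycC (ga : GA) : CycC := by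
  classical
  intro K _ _ E hK
  obtain ⟨e, he, η, z, hη, hz⟩ := hK
  have hM0 : 2 ^ (max E e + 2) ≠ 0 := pow_ne_zero _ two_ne_zero
  have : NeZero (2 ^ (max E e + 2)) := ⟨hM0⟩
  have : NeZero (((2 ^ (max E e + 2) : ℕ)) : AlgebraicClosure K) := ⟨by exact_mod_cast hM0⟩
  obtain ⟨ζ, hζ⟩ : ∃ ζ : AlgebraicClosure K, IsPrimitiveRoot ζ (2 ^ (max E e + 2)) :=
    (IsSepClosed.hasEnoughRootsOfUnity (AlgebraicClosure K) (2 ^ (max E e + 2))).prim
  have hsm : ∀ b, b ≤ max E e → ∀ x : AlgebraicClosure K, x ^ (2 ^ b) = 1 →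
      x ^ (2 ^ (max E e + 2)) = 1 := by
    intro b hb x hx
    obtain ⟨d, hd⟩ := pow_dvd_pow 2 (hb.trans (Nat.le_add_right (max E e) 2))
    rw [hd, pow_mul, hx, one_pow]
  have hneg : (-1 : (ZMod (2 ^ (max E e + 2)))ˣ) ∉ (hζ.autToPow K).range := by
    rintro ⟨τ, hτ⟩
    have h1 := act hζ τ (hsm e (le_max_right _ _) η hη.pow_eq_one)
    have h2 : η ^ ((hζ.autToPow K τ : ZMod (2 ^ (max E e + 2))).val + 1) = 1 := by
      have h3 : (2 ^ (max E e + 2)) ∣ (hζ.autToPow K τ : ZMod (2 ^ (max E e + 2))).val + 1 := by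
        rw [← ZMod.natCast_eq_zero_iff, Nat.cast_add, ZMod.natCast_val, ZMod.cast_id', id_eq, hτ]
        simp
      obtain ⟨d, hd⟩ := h3
      rw [hd, pow_mul, hsm e (le_max_right _ _) η hη.pow_eq_one, one_pow]
    have hη0 : η ≠ 0 := hη.ne_zero (pow_ne_zero _ two_ne_zero)
    have h3 : τ η = η⁻¹ := by
      rw [h1]
      rw [pow_succ] at h2
      exact eq_inv_of_mul_eq_one_left h2
    have h4 : τ (η - η⁻¹) = η - η⁻¹ := by
      rw [hz]
      exact τ.commutes z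
    rw [map_sub, map_inv₀, h3, inv_inv] at h4
    have h5 : η = η⁻¹ := by
      have h6 : (2 : AlgebraicClosure K) * (η - η⁻¹) = 0 := by linear_combination -h4
      have h7 := (mul_eq_zero.1 h6).resolve_left two_ne_zero
      exact sub_eq_zero.1 h7
    have h6 : η ^ 2 = 1 := by
      rw [sq]
      nth_rw 2 [h5]
      exact mul_inv_cancel₀ hη0
    have h7 := hη.dvd_of_pow_eq_one 2 h6
    have h8 : 2 ^ 2 ≤ 2 ^ e := Nat.pow_le_pow_right (by norm_num) he
    have h9 := Nat.le_of_dvd (by norm_num) h7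
    omega
  have hcyc : IsCyclic (hζ.autToPow K).range := ga (max E e) _ hneg
  obtain ⟨⟨g, σ, hσ⟩, hg⟩ := hcyc.exists_generator
  have hgen : ∀ τ : AlgebraicClosure K ≃ₐ[K] AlgebraicClosure K,
      ∃ j : ℕ, hζ.autToPow K τ = (hζ.autToPow K σ) ^ j := by
    intro τ
    obtain ⟨j, hj⟩ := mem_powers_iff_mem_zpowers.2 (hg ⟨hζ.autToPow K τ, τ, rfl⟩)
    refine ⟨j, ?_⟩
    have h1 := congrArg Subtype.val hj
    simp only [SubmonoidClass.coe_pow] at h1
    rw [hσ]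
    exact h1.symm
  refine ⟨σ, XX ζ (2 ^ (max E e + 2)), ?_⟩
  intro p hp hp2 hF
  have hpc := frob_mod hζ σ p hF
  intro b hb x hx y hy
  obtain ⟨τ, hτ⟩ := conj_of_root hy
  obtain ⟨j, hj⟩ := hgen τ
  have hxM := hsm b (hb.trans (le_max_left _ _)) x hx.pow_eq_one
  refine ⟨j, ?_⟩
  rw [← hτ, act hζ τ hxM]
  refine pow_congr hxM ?_
  rw [ZMod.natCast_val, ZMod.cast_id', id_eq, hj, Nat.cast_pow, hpc, Units.val_pow_eq_pow_val]

open CYCCDx in
theorem cycD (gb : GB) : CycD := by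
  classical
  intro K _ _ E hK
  have hM0 : 2 ^ (E + 2) ≠ 0 := pow_ne_zero _ two_ne_zero
  have : NeZero (2 ^ (E + 2)) := ⟨hM0⟩
  have : NeZero (((2 ^ (E + 2) : ℕ)) : AlgebraicClosure K) := ⟨by exact_mod_cast hM0⟩
  obtain ⟨ζ, hζ⟩ : ∃ ζ : AlgebraicClosure K, IsPrimitiveRoot ζ (2 ^ (E + 2)) :=
    (IsSepClosed.hasEnoughRootsOfUnity (AlgebraicClosure K) (2 ^ (E + 2))).prim
  obtain ⟨i, hi⟩ : ∃ i : AlgebraicClosure K, i ^ 2 = -1 :=
    IsAlgClosed.exists_pow_nat_eq _ (by norm_num)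
  have hi4 : i ^ 4 = 1 := by
    rw [show 4 = 2 * 2 from rfl, pow_mul, hi]
    norm_num
  have hiM : i ^ (2 ^ (E + 2)) = 1 := by
    rw [pow_add, mul_comm, pow_mul, show 2 ^ 2 = 4 from rfl, hi4, one_pow]
  have hiK : ∃ τ : AlgebraicClosure K ≃ₐ[K] AlgebraicClosure K, τ i ≠ i := by
    by_contra hcon
    push Not at hcon
    have h1 : i ∈ (⊥ : IntermediateField K (AlgebraicClosure K)) :=
      (InfiniteGalois.mem_bot_iff_fixed i).2 hcon
    obtain ⟨w, hw⟩ := IntermediateField.mem_bot.1 h1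
    refine hK ⟨w, ?_⟩
    have h2 : algebraMap K (AlgebraicClosure K) (w ^ 2) =
        algebraMap K (AlgebraicClosure K) (-1) := by
      rw [map_pow, hw, hi, map_neg, map_one]
    exact (algebraMap K (AlgebraicClosure K)).injective h2
  have hex : ∃ u ∈ (hζ.autToPow K).range, 4 ∣ (u : ZMod (2 ^ (E + 2))).val + 1 := by
    obtain ⟨τ, hτ⟩ := hiK
    refine ⟨_, ⟨τ, rfl⟩, ?_⟩
    have h1 : τ i = -i := by
      have h2 : (τ i) ^ 2 = i ^ 2 := by
        rw [← map_pow, hi, map_neg, map_one]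
      exact (sq_eq_sq_iff_eq_or_eq_neg.1 h2).resolve_left hτ
    have h2 := act hζ τ hiM
    refine ord4 hi (by norm_num) ?_
    rw [pow_succ, ← h2, h1]
    linear_combination -hi
  obtain ⟨c, ⟨σ, hσ⟩, hc4, hc⟩ := gb E _ hex
  refine ⟨σ, XX ζ (2 ^ (E + 2)), ?_⟩
  intro p hp hp2 hF
  have hpc := frob_mod hζ σ p hF
  rw [hσ] at hpc
  have hdvd : ∀ b ≤ E + 2, 2 ^ b ∣ p + 1 ↔ 2 ^ b ∣ (c : ZMod (2 ^ (E + 2))).val + 1 := by
    intro b hb
    have h1 : ((p : ℕ) : ZMod (2 ^ (E + 2))) = ((c : ZMod (2 ^ (E + 2))).val : ℕ) := by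
      rw [hpc, ZMod.natCast_val, ZMod.cast_id', id_eq]
    have h2 := (ZMod.natCast_eq_natCast_iff _ _ _).1 h1
    have h3 : p + 1 ≡ (c : ZMod (2 ^ (E + 2))).val + 1 [MOD 2 ^ b] :=
      (h2.of_dvd (pow_dvd_pow 2 hb)).add_right 1
    exact h3.dvd_iff dvd_rfl
  refine ⟨(hdvd 2 (by omega)).2 hc4, ?_⟩
  intro b hb hbp x hx y hy
  obtain ⟨τ, hτ⟩ := conj_of_root hy
  have hxM : x ^ (2 ^ (E + 2)) = 1 := by
    obtain ⟨d, hd⟩ := pow_dvd_pow 2 (hb.trans (Nat.le_add_right E 2))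
    rw [hd, pow_mul, hx.pow_eq_one, one_pow]
  have hx0 : x ≠ 0 := hx.ne_zero (pow_ne_zero _ two_ne_zero)
  have h1 := act hζ τ hxM
  rw [hτ] at h1
  rcases hc b (by omega) ((hdvd b (by omega)).1 hbp) _ ⟨τ, rfl⟩ with h2 | h2
  · left
    have h3 : (1 : ℕ) ≡ (hζ.autToPow K τ : ZMod (2 ^ (E + 2))).val [MOD 2 ^ b] := by
      rw [Nat.modEq_iff_dvd]
      exact_mod_cast h2
    rw [h1]
    have h4 := pow_congr hx.pow_eq_one ((ZMod.natCast_eq_natCast_iff _ _ _).2 h3)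
    rw [pow_one] at h4
    exact h4.symm
  · right
    have h3 : 2 ^ b ∣ (hζ.autToPow K τ : ZMod (2 ^ (E + 2))).val + 1 := by
      exact_mod_cast h2
    obtain ⟨d, hd⟩ := h3
    have h4 : x ^ ((hζ.autToPow K τ : ZMod (2 ^ (E + 2))).val + 1) = 1 := by
      rw [hd, pow_mul, hx.pow_eq_one, one_pow]
    rw [h1]
    rw [pow_succ] at h4
    exact eq_inv_of_mul_eq_one_left h4

end Pool.Agent.H320.CF
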