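import Pool.Agent.H320.CF.Stm

/-!
helper320: Frobenius homomorphisms for finite Galois extensions of rational function fields.
-/

set_option autoImplicit false

namespace Pool.Agent.H320.CF

open NumberField

theorem frobGal (spec : Spec) (cheb : Cheb) : FrobGal := by
  intro d L _ _ _ _ σ X N
  obtain ⟨κ, _, _, _, τ, h⟩ := spec d L σ X
  obtain ⟨B, hB, φ, hX, hφ⟩ := h
  classical
  let Y : Finset κ := X.attach.image fun z => φ ⟨z.1, hX z.1 (Finset.mem_coe.2 z.2)⟩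
  obtain ⟨p, hN, hp, C, hC, χ, hY, hχ⟩ := cheb κ τ Y N
  refine ⟨p, hN, hp, ?_⟩
  let B' : Subring L := (C.comap φ).map B.subtype
  have hmem : ∀ z : L, z ∈ B' ↔ ∃ hz : z ∈ B, φ ⟨z, hz⟩ ∈ C := by
    intro z
    constructor
    · rintro ⟨b, hb, rfl⟩
      exact ⟨b.2, hb⟩
    · rintro ⟨hz, h⟩
      exact ⟨⟨z, hz⟩, h, rfl⟩
  have hσ : ∀ z ∈ B', σ z ∈ B' := by
    intro z hz
    obtain ⟨h1, h2⟩ := (hmem z).1 hz
    refine (hmem _).2 ⟨hB z h1, ?_⟩
    have h4 : φ ⟨σ z, hB z h1⟩ = τ (φ ⟨z, h1⟩) := hφ ⟨z, h1⟩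
    rw [h4]
    exact hC _ h2
  let f : B' →+* C :=
    { toFun := fun z => ⟨φ ⟨z.1, ((hmem z.1).1 z.2).1⟩, ((hmem z.1).1 z.2).2⟩
      map_one' := Subtype.ext (map_one φ)
      map_mul' := fun x y => Subtype.ext (by
        change φ _ = φ _ * φ _
        rw [← map_mul]
        rfl)
      map_zero' := Subtype.ext (map_zero φ)
      map_add' := fun x y => Subtype.ext (by
        change φ _ = φ _ + φ _
        rw [← map_add]
        rfl) }
  refine ⟨B', hσ, χ.comp f, ?_, ?_⟩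
  · intro z hz
    refine (hmem z).2 ⟨hX z hz, hY _ ?_⟩
    exact Finset.mem_coe.2 (Finset.mem_image.2 ⟨⟨z, Finset.mem_coe.1 hz⟩, Finset.mem_attach _ _, rfl⟩)
  · intro b
    obtain ⟨h1, h2⟩ := (hmem b.1).1 b.2
    have h3 := hχ (f b)
    have h4 : f ⟨σ b, hσ b b.2⟩ = ⟨τ (f b), hC _ (f b).2⟩ := by
      apply Subtype.ext
      exact hφ ⟨b.1, h1⟩
    rw [RingHom.comp_apply, RingHom.comp_apply]
    change χ (f ⟨σ b, hσ b b.2⟩) = _
    rw [h4]
    exact h3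

end Pool.Agent.H320.CF
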