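import Pool.Agent.H320.CF.Stm

/-!
CF-FIN: finite subgroups of `GL_n` over the algebraic integers of `K`.
-/

set_option autoImplicit false

namespace Pool.Agent.H320.CF

open Polynomial

namespace FINx

/-- block diagonal embedding -/
noncomputable def blk (a c : Type) [Fintype a] [Fintype c] [DecidableEq a] [DecidableEq c]
    (O : Type) [CommRing O] : Matrix a a O →* Matrix (a ⊕ c) (a ⊕ c) O where
  toFun A := Matrix.fromBlocks A 0 0 1
  map_one' := Matrix.fromBlocks_one
  map_mul' A B := by
    rw [Matrix.fromBlocks_multiply]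
    simp

theorem blk_injective (a c : Type) [Fintype a] [Fintype c] [DecidableEq a] [DecidableEq c]
    (O : Type) [CommRing O] : Function.Injective (blk a c O) := by
  intro A B h
  have h' : Matrix.fromBlocks A 0 0 (1 : Matrix c c O) = Matrix.fromBlocks B 0 0 1 := h
  exact (Matrix.fromBlocks_inj.mp h').1

/-- embedding of matrix monoids -/
theorem exists_hom (O R : Type) [CommRing O] [CommRing R] (s k n : ℕ) (hkn : k * s ≤ n)
    (e : R →+* Matrix (Fin s) (Fin s) O) (he : Function.Injective e) :
    ∃ f : Matrix (Fin k) (Fin k) R →* Matrix (Fin n) (Fin n) O, Function.Injective f := by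
  have hc : k * s + (n - k * s) = n := by omega
  let f1 : Matrix (Fin k) (Fin k) R →+* Matrix (Fin k) (Fin k) (Matrix (Fin s) (Fin s) O) :=
    e.mapMatrix
  have hf1 : Function.Injective f1 := Matrix.map_injective he
  let f2 := Matrix.compRingEquiv (Fin k) (Fin s) O
  let f3 := Matrix.reindexRingEquiv O (finProdFinEquiv : Fin k × Fin s ≃ Fin (k * s))
  let f4 := blk (Fin (k * s)) (Fin (n - k * s)) O
  let e5 : Fin (k * s) ⊕ Fin (n - k * s) ≃ Fin n := finSumFinEquiv.trans (finCongr hc)
  let f5 := Matrix.reindexRingEquiv O e5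
  refine ⟨(f5.toRingHom.toMonoidHom.comp f4).comp
    (f3.toRingHom.comp (f2.toRingHom.comp f1)).toMonoidHom, ?_⟩
  have h4 := blk_injective (Fin (k * s)) (Fin (n - k * s)) O
  intro A B h
  have h' : f5 (f4 (f3 (f2 (f1 A)))) = f5 (f4 (f3 (f2 (f1 B)))) := h
  exact hf1 (f2.injective (f3.injective (h4 (f5.injective h'))))

/-- transfer of finite subgroups -/
theorem transfer (G G' : Type) [Group G] [Group G'] (f : G →* G') (hf : Function.Injective f)
    (H : Subgroup G) (hH : Finite H) (c : ℕ) (hc : Nat.card H = c) :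
    ∃ H' : Subgroup G', Finite H' ∧ Nat.card H' = c := by
  refine ⟨H.map f, ?_, ?_⟩
  · exact Finite.of_equiv _ (H.equivMapOfInjective f hf).toEquiv
  · rw [← hc]
    exact (Nat.card_congr (H.equivMapOfInjective f hf).toEquiv).symm

end FINx

open FINx in
theorem fin (mono : Mono) : FinG := by
  intro K _ _ l b s n hl hs hdeg
  set M := l ^ b with hM
  have hM0 : 0 < M := Nat.pow_pos hl.pos
  have : NeZero M := ⟨hM0.ne'⟩
  have : CharZero (AlgebraicClosure K) := charZero_of_injective_algebraMap
    (algebraMap K (AlgebraicClosure K)).injective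
  have : NeZero (M : AlgebraicClosure K) := ⟨by exact_mod_cast hM0.ne'⟩
  -- the root of unity
  obtain ⟨ζ, hζ⟩ : ∃ ζ : AlgebraicClosure K, IsPrimitiveRoot ζ M := by
    have hd : (cyclotomic M (AlgebraicClosure K)).degree ≠ 0 := by
      rw [degree_cyclotomic]
      have := Nat.totient_pos.2 hM0
      exact_mod_cast this.ne'
    obtain ⟨z, hz⟩ := IsAlgClosed.exists_root _ hd
    exact ⟨z, isRoot_cyclotomic_iff.1 hz⟩
  have hds := hdeg ζ hζ
  -- the minimal polynomial
  have hintK : IsIntegral K ζ := Algebra.IsIntegral.isIntegral ζ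
  set m := minpoly K ζ with hm
  have hmon : m.Monic := minpoly.monic hintK
  have hmdvd : m ∣ X ^ M - 1 := by
    apply minpoly.dvd
    simp [hζ.pow_eq_one]
  let O := integralClosure ℤ K
  have hcoef : ∀ i, IsIntegral ℤ (m.coeff i) := by
    intro i
    refine Polynomial.isIntegral_coeff_of_dvd (X ^ M - 1 : ℤ[X]) m ?_ hmon ?_ i
    · exact monic_X_pow_sub_C 1 hM0.ne'
    · simpa using hmdvd
  have hlift : m ∈ lifts (algebraMap O K) := by
    rw [lifts_iff_coeff_lifts]
    intro i
    exact ⟨⟨m.coeff i, hcoef i⟩, rfl⟩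
  obtain ⟨mO, hmO, hdO, hmonO⟩ := lifts_and_natDegree_eq_and_monic hlift hmon
  -- the ring
  let i : O →+* AlgebraicClosure K := (algebraMap K (AlgebraicClosure K)).comp (algebraMap O K)
  have hroot : mO.eval₂ i ζ = 0 := by
    have : (mO.map (algebraMap O K)).eval₂ (algebraMap K (AlgebraicClosure K)) ζ = 0 := by
      rw [hmO]
      exact minpoly.aeval K ζ
    rwa [eval₂_map] at this
  let φ : AdjoinRoot mO →+* AlgebraicClosure K := AdjoinRoot.lift i ζ hroot
  have hφ : Function.Injective φ := by
    rw [injective_iff_map_eq_zero]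
    intro x hx
    obtain ⟨p, rfl⟩ := AdjoinRoot.mk_surjective x
    rw [AdjoinRoot.mk_eq_zero]
    have h1 : p.eval₂ i ζ = 0 := by
      have : φ (AdjoinRoot.mk mO p) = p.eval₂ i ζ := AdjoinRoot.lift_mk hroot p
      rw [← this]
      exact hx
    have h2 : m ∣ p.map (algebraMap O K) := by
      apply minpoly.dvd
      rw [aeval_def, eval₂_map]
      exact h1
    rw [← hmO] at h2
    exact (map_dvd_map (algebraMap O K) (Subtype.val_injective) hmonO).1 h2
  have : IsDomain (AdjoinRoot mO) := hφ.isDomain φ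
  have hρ : IsPrimitiveRoot (AdjoinRoot.root mO) M := by
    apply IsPrimitiveRoot.of_map_of_injective (f := φ) _ hφ
    have : φ (AdjoinRoot.root mO) = ζ := AdjoinRoot.lift_root hroot
    rw [this]
    exact hζ
  let B := AdjoinRoot.powerBasis' hmonO
  have hBd : B.dim = m.natDegree := by
    rw [← hdO]
    exact AdjoinRoot.powerBasis'_dim hmonO
  let e : AdjoinRoot mO →+* Matrix (Fin B.dim) (Fin B.dim) O :=
    (Algebra.leftMulMatrix B.basis : AdjoinRoot mO →ₐ[O] Matrix (Fin B.dim) (Fin B.dim) O)
  have he : Function.Injective e := Algebra.leftMulMatrix_injective B.basis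
  have hkn : (n / s) * B.dim ≤ n := by
    rw [hBd]
    calc (n / s) * m.natDegree ≤ (n / s) * s := Nat.mul_le_mul_left _ hds
      _ ≤ n := Nat.div_mul_le_self n s
  obtain ⟨f, hf⟩ := exists_hom O (AdjoinRoot mO) B.dim (n / s) n hkn e he
  obtain ⟨H, hHf, hHc⟩ := mono (AdjoinRoot mO) M hM0 (AdjoinRoot.root mO) hρ (n / s)
  exact transfer _ _ (Units.map f) (Units.map_injective hf) H hHf _ hHc

end Pool.Agent.H320.CF
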