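import Pool.Agent.H320.CF.Stm2

/-!
CF-FINA: the group generated by a root of unity and the conjugation of a quadratic extension.
-/

set_option autoImplicit false

namespace Pool.Agent.H320.CF

open Polynomial

namespace FINAx

theorem conj_mem {G : Type} [Group G] {u τ : G} {c : ℕ} (hc : τ * u * τ⁻¹ = u ^ c) {x : G}
    (hx : x ∈ Subgroup.zpowers u) : τ * x * τ⁻¹ ∈ Subgroup.zpowers u := by
  obtain ⟨k, rfl⟩ := Subgroup.mem_zpowers_iff.1 hx
  rw [← conj_zpow, hc]
  exact Subgroup.zpow_mem _ (Subgroup.npow_mem_zpowers u c) k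

/-- the extension of a cyclic group by an involution -/
theorem grp {G : Type} [Group G] (u τ : G) (c b : ℕ) (hτ : τ * τ = 1)
    (hc : τ * u * τ⁻¹ = u ^ c) (hn : τ ∉ Subgroup.zpowers u) (ho : orderOf u = 2 ^ b) :
    ∃ H : Subgroup G, Finite H ∧ Nat.card H = 2 ^ (b + 1) := by
  have hti : τ⁻¹ = τ := inv_eq_of_mul_eq_one_left hτ
  have hcj : ∀ x ∈ Subgroup.zpowers u, τ * x * τ ∈ Subgroup.zpowers u := by
    intro x hx
    have := conj_mem hc hx
    rwa [hti] at this
  let H : Subgroup G :=
    { carrier := {g | g ∈ Subgroup.zpowers u ∨ g * τ ∈ Subgroup.zpowers u}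
      mul_mem' := by
        rintro g h (hg | hg) (hh | hh)
        · exact Or.inl (mul_mem hg hh)
        · right
          rw [mul_assoc]
          exact mul_mem hg hh
        · right
          have h1 := mul_mem hg (hcj h hh)
          have h2 : g * τ * (τ * h * τ) = g * h * τ := by
            calc g * τ * (τ * h * τ) = g * (τ * τ) * h * τ := by group
              _ = g * h * τ := by rw [hτ, mul_one]
          rwa [h2] at h1
        · left
          have h1 := mul_mem hg (hcj _ hh)
          have h2 : g * τ * (τ * (h * τ) * τ) = g * h := by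
            calc g * τ * (τ * (h * τ) * τ) = g * (τ * τ) * h * (τ * τ) := by group
              _ = g * h := by rw [hτ, mul_one, mul_one]
          rwa [h2] at h1
      one_mem' := Or.inl (one_mem _)
      inv_mem' := by
        rintro g (hg | hg)
        · exact Or.inl (inv_mem hg)
        · right
          have h1 := hcj _ (inv_mem hg)
          have h2 : τ * (g * τ)⁻¹ * τ = g⁻¹ * τ := by
            rw [mul_inv_rev, hti, ← mul_assoc, hτ, one_mul]
          rwa [h2] at h1 }
  have hH : ∀ g, g ∈ H ↔ g ∈ Subgroup.zpowers u ∨ g * τ ∈ Subgroup.zpowers u := fun g => Iff.rfl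
  have hpos : 0 < orderOf u := by rw [ho]; positivity
  have hfN : Finite (Subgroup.zpowers u) :=
    Nat.finite_of_card_ne_zero (by rw [Nat.card_zpowers]; exact hpos.ne')
  let f : (Subgroup.zpowers u) ⊕ (Subgroup.zpowers u) → H :=
    Sum.elim (fun x => ⟨x, Or.inl x.2⟩) (fun x => ⟨x * τ, (hH _).2 (Or.inr (by
      rw [mul_assoc, hτ, mul_one]
      exact x.2))⟩)
  have hf : Function.Bijective f := by
    constructor
    · rintro (x | x) (y | y) h
      · have h1 : (x : G) = y := congrArg (fun w : H => (w : G)) h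
        rw [Subtype.ext h1]
      · exfalso
        have h1 : (x : G) = y * τ := congrArg (fun w : H => (w : G)) h
        apply hn
        have h2 : τ = (y : G)⁻¹ * x := by rw [h1]; group
        rw [h2]
        exact mul_mem (inv_mem y.2) x.2
      · exfalso
        have h1 : (x : G) * τ = y := congrArg (fun w : H => (w : G)) h
        apply hn
        have h2 : τ = (x : G)⁻¹ * y := by rw [← h1]; group
        rw [h2]
        exact mul_mem (inv_mem x.2) y.2
      · have h1 : (x : G) * τ = y * τ := congrArg (fun w : H => (w : G)) h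
        rw [Subtype.ext (mul_right_cancel h1)]
    · rintro ⟨g, hg | hg⟩
      · exact ⟨Sum.inl ⟨g, hg⟩, rfl⟩
      · refine ⟨Sum.inr ⟨g * τ, hg⟩, ?_⟩
        apply Subtype.ext
        change g * τ * τ = g
        rw [mul_assoc, hτ, mul_one]
  let e := Equiv.ofBijective f hf
  refine ⟨H, Finite.of_equiv _ e, ?_⟩
  rw [← Nat.card_congr e, Nat.card_sum, Nat.card_zpowers, ho, pow_succ]
  ring

end FINAx

open FINAx in
theorem finA : FinA := by
  intro K _ _ b c hb hi hconj
  obtain ⟨M, hM⟩ : ∃ M, M = 2 ^ b := ⟨_, rfl⟩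
  have hM0 : 0 < M := by rw [hM]; positivity
  have : NeZero M := ⟨hM0.ne'⟩
  have : CharZero (AlgebraicClosure K) := charZero_of_injective_algebraMap
    (algebraMap K (AlgebraicClosure K)).injective
  have : NeZero (M : AlgebraicClosure K) := ⟨by exact_mod_cast hM0.ne'⟩
  -- the root of unity
  obtain ⟨ζ, hζ⟩ : ∃ ζ : AlgebraicClosure K, IsPrimitiveRoot ζ M := by
    have hd : (cyclotomic M (AlgebraicClosure K)).degree ≠ 0 := by
      rw [degree_cyclotomic]
      have := Nat.totient_pos.2 hM0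
      exact_mod_cast this.ne'
    obtain ⟨z, hz⟩ := IsAlgClosed.exists_root _ hd
    exact ⟨z, isRoot_cyclotomic_iff.1 hz⟩
  have hcj := hconj ζ (hM ▸ hζ)
  -- the minimal polynomial
  have hintK : IsIntegral K ζ := Algebra.IsIntegral.isIntegral ζ
  obtain ⟨m, hm⟩ : ∃ m, m = minpoly K ζ := ⟨_, rfl⟩
  rw [← hm] at hcj
  have hmon : m.Monic := hm ▸ minpoly.monic hintK
  have hirr : Irreducible m := hm ▸ minpoly.irreducible hintK
  have hmζ : aeval ζ m = 0 := hm ▸ minpoly.aeval K ζ
  have hdvd : ∀ q : K[X], aeval ζ q = 0 → m ∣ q := fun q hq => hm ▸ minpoly.dvd K ζ hq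
  have hmdvd : m ∣ X ^ M - 1 := hdvd _ (by simp [hζ.pow_eq_one])
  have hcoef : ∀ i, IsIntegral ℤ (m.coeff i) := by
    intro i
    refine Polynomial.isIntegral_coeff_of_dvd (X ^ M - 1 : ℤ[X]) m ?_ hmon ?_ i
    · exact monic_X_pow_sub_C 1 hM0.ne'
    · simpa using hmdvd
  -- the degree
  have hζK : ∀ z : K, algebraMap K (AlgebraicClosure K) z ≠ ζ := by
    intro z hz
    apply hi
    refine ⟨z ^ (2 ^ (b - 2)), ?_⟩
    apply (algebraMap K (AlgebraicClosure K)).injective
    rw [map_pow, map_pow, hz, map_neg, map_one, ← pow_mul]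
    have h1 : (2 : ℕ) ^ (b - 2) * 2 = 2 ^ (b - 1) := by
      rw [← pow_succ]
      congr 1
      omega
    rw [h1]
    have h2 : (ζ ^ (2 ^ (b - 1))) ^ 2 = 1 := by
      rw [← pow_mul, ← pow_succ, show b - 1 + 1 = b by omega, ← hM]
      exact hζ.pow_eq_one
    rcases sq_eq_one_iff.1 h2 with h3 | h3
    · exfalso
      have h4 := Nat.le_of_dvd (by positivity) (hζ.dvd_of_pow_eq_one _ h3)
      rw [hM] at h4
      have h5 : (2 : ℕ) ^ (b - 1) < 2 ^ b := Nat.pow_lt_pow_right (by norm_num) (by omega)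
      omega
    · exact h3
  have hdeg : m.natDegree = 2 := by
    have h1 := card_rootSet_eq_natDegree (K := AlgebraicClosure K) hirr.separable
      (IsAlgClosed.splits _)
    have h2 : m.rootSet (AlgebraicClosure K) ⊆ {ζ, ζ ^ c} := by
      intro ξ hξ
      rw [mem_rootSet] at hξ
      exact hcj ξ hξ.2
    have h3 : Nat.card (m.rootSet (AlgebraicClosure K)) ≤ 2 := by
      refine (Nat.card_mono (Set.toFinite _) h2).trans ?_
      refine (Set.ncard_insert_le _ _).trans ?_
      rw [Set.ncard_singleton]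
    rw [Nat.card_eq_fintype_card, h1] at h3
    have h4 : 0 < m.natDegree := hirr.natDegree_pos
    have h5 : m.natDegree ≠ 1 := by
      rw [hm]
      intro h6
      obtain ⟨z, hz⟩ := minpoly.natDegree_eq_one_iff.1 h6
      exact hζK z hz
    omega
  obtain ⟨a₀, ha₀⟩ : ∃ a₀, a₀ = m.coeff 0 := ⟨_, rfl⟩
  obtain ⟨a₁, ha₁⟩ : ∃ a₁, a₁ = m.coeff 1 := ⟨_, rfl⟩
  have hmX : m = X ^ 2 + C a₁ * X + C a₀ := by
    have h1 := as_sum_range_C_mul_X_pow' m (n := 3) (by omega)
    have h2 : m.coeff 2 = 1 := by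
      rw [← hdeg]
      exact hmon.coeff_natDegree
    rw [Finset.sum_range_succ, Finset.sum_range_succ, Finset.sum_range_one, h2, ← ha₀, ← ha₁,
      C_1, one_mul, pow_one, pow_zero, mul_one] at h1
    rw [h1]
    ring
  have hζ2 : ζ ^ 2 + algebraMap K _ a₁ * ζ + algebraMap K _ a₀ = 0 := by
    rw [hmX] at hmζ
    simpa using hmζ
  -- the conjugate
  have hsum : ζ ^ c + algebraMap K _ a₁ + ζ = 0 := by
    have h1 : aeval (-algebraMap K _ a₁ - ζ) m = 0 := by
      rw [hmX]
      simp only [map_add, map_mul, map_pow, aeval_X, aeval_C]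
      linear_combination hζ2
    rcases hcj _ h1 with h2 | h2
    · exfalso
      apply hζK (-a₁ / 2)
      rw [map_div₀, map_neg, map_ofNat]
      have h3 : (2 : AlgebraicClosure K) ≠ 0 := two_ne_zero
      field_simp
      linear_combination h2
    · rw [← h2]
      ring
  -- the matrices over the field
  obtain ⟨W, hW⟩ : ∃ W : Matrix (Fin 2) (Fin 2) K, W = !![0, -a₀; 1, -a₁] := ⟨_, rfl⟩
  have hWm : aeval W m = 0 := by
    rw [hmX]
    simp only [map_add, map_mul, aeval_X, aeval_C, pow_two]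
    rw [hW]
    ext i j
    fin_cases i <;> fin_cases j <;>
      (simp [Matrix.mul_apply, Matrix.algebraMap_matrix_apply]; try ring)
  have hWq : ∀ q : K[X], aeval ζ q = 0 → aeval W q = 0 := by
    intro q hq
    obtain ⟨w, rfl⟩ := hdvd q hq
    rw [map_mul, hWm, zero_mul]
  have hWM : W ^ M = 1 := by
    have h1 := hWq (X ^ M - 1) (by simp [hζ.pow_eq_one])
    simpa [sub_eq_zero] using h1
  have hWc : W ^ c + algebraMap K _ a₁ + W = 0 := by
    have h1 := hWq (X ^ c + C a₁ + X) (by simpa using hsum)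
    simpa using h1
  have hWk : ∀ k : ℕ, W ^ k = 1 → M ∣ k := by
    intro k hk
    by_cases hd : m ∣ X ^ k - 1
    · obtain ⟨w, hw⟩ := hd
      apply hζ.dvd_of_pow_eq_one
      have h1 := congrArg (aeval ζ) hw
      rw [map_mul, hmζ, zero_mul] at h1
      simpa [sub_eq_zero] using h1
    · exfalso
      obtain ⟨u, v, huv⟩ := (Irreducible.coprime_iff_not_dvd hirr).2 hd
      have h1 := congrArg (aeval W) huv
      rw [map_add, map_mul, map_mul, hWm, mul_zero, zero_add] at h1
      simp [hk] at h1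
  -- the matrices over the ring
  let O := integralClosure ℤ K
  let p : O := ⟨a₀, ha₀ ▸ hcoef 0⟩
  let r : O := ⟨a₁, ha₁ ▸ hcoef 1⟩
  obtain ⟨U, hU⟩ : ∃ U : Matrix (Fin 2) (Fin 2) O, U = !![0, -p; 1, -r] := ⟨_, rfl⟩
  obtain ⟨T, hT⟩ : ∃ T : Matrix (Fin 2) (Fin 2) O, T = !![1, -r; 0, -1] := ⟨_, rfl⟩
  let e : Matrix (Fin 2) (Fin 2) O →+* Matrix (Fin 2) (Fin 2) K := (algebraMap O K).mapMatrix
  have he : Function.Injective e := Matrix.map_injective Subtype.val_injective
  have heU : e U = W := by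
    rw [hU, hW]
    ext i j
    fin_cases i <;> fin_cases j <;> simp [e, p, r]
  have her : e (algebraMap O _ r) = algebraMap K _ a₁ := by
    ext i j
    fin_cases i <;> fin_cases j <;> simp [e, r, Matrix.algebraMap_matrix_apply]
  have hUM : U ^ M = 1 := he (by rw [map_pow, heU, hWM, map_one])
  have hUc : U ^ c + algebraMap O _ r + U = 0 := he (by
    rw [map_add, map_add, map_pow, heU, her, hWc, map_zero])
  have hTT : T * T = 1 := by
    rw [hT]
    ext i j
    fin_cases i <;> fin_cases j <;> simp [Matrix.mul_apply]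
  have hTU : T * U * T = U ^ c := by
    have h1 : T * U * T + algebraMap O _ r + U = 0 := by
      rw [hT, hU]
      ext i j
      fin_cases i <;> fin_cases j <;>
        (simp [Matrix.algebraMap_matrix_apply]; try ring)
    rw [← sub_eq_zero]
    calc T * U * T - U ^ c = (T * U * T + algebraMap O _ r + U) -
          (U ^ c + algebraMap O _ r + U) := by abel
      _ = 0 := by rw [h1, hUc, sub_zero]
  -- the group
  let u : (Matrix (Fin 2) (Fin 2) O)ˣ := Units.ofPowEqOne U M hUM hM0.ne'
  let τ : (Matrix (Fin 2) (Fin 2) O)ˣ := ⟨T, T, hTT, hTT⟩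
  have hu : (u : Matrix (Fin 2) (Fin 2) O) = U := rfl
  have hc : τ * u * τ⁻¹ = u ^ c := by
    apply Units.ext
    rw [Units.val_mul, Units.val_mul, Units.val_pow_eq_pow_val]
    exact hTU
  refine grp u τ c b (Units.ext hTT) hc ?_ ?_
  · intro hmem
    obtain ⟨k, hk⟩ := Subgroup.mem_zpowers_iff.1 hmem
    have h1 : τ * u * τ⁻¹ = u := by
      rw [← hk]
      group
    have h2 : U ^ c = U := by
      have h3 := congrArg (fun w : (Matrix (Fin 2) (Fin 2) O)ˣ => (w : Matrix (Fin 2) (Fin 2) O))
        (hc.symm.trans h1)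
      exact h3
    rw [h2, hU] at hUc
    have h4 := congrFun (congrFun hUc 1) 0
    simp [Matrix.algebraMap_matrix_apply] at h4
  · rw [← hM]
    apply Nat.dvd_antisymm
    · apply orderOf_dvd_of_pow_eq_one
      apply Units.ext
      rw [Units.val_pow_eq_pow_val, hu, hUM]
      rfl
    · apply hWk
      have h1 := congrArg (fun w : (Matrix (Fin 2) (Fin 2) O)ˣ =>
        e (w : Matrix (Fin 2) (Fin 2) O)) (pow_orderOf_eq_one u)
      simp only [Units.val_pow_eq_pow_val, hu, map_pow, heU, Units.val_one, map_one] at h1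
      exact h1

end Pool.Agent.H320.CF
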