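import Pool.Agent.H320.CF.Stm

/-!
helper358 for helper320: CF-FROB, from finite Galois extensions of `ℚ (x_1, ..., x_d)` to
algebraically closed fields.
-/

set_option autoImplicit false

namespace Pool.Agent.H320.CF

open Polynomial

namespace FROBx

/-- a finite algebraically independent family in `F` over which `X` is algebraic -/
theorem indep (Ω : Type) [Field Ω] [CharZero Ω] (F : Subfield Ω) (X : Finset Ω)
    (hX : ∀ z ∈ X, IsAlgebraic F z) :
    ∃ (d : ℕ) (x : Fin d → Ω), AlgebraicIndependent ℚ x ∧ (∀ i, x i ∈ F) ∧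
      ∀ z ∈ X, IsAlgebraic (Algebra.adjoin ℚ (Set.range x)) z := by
  classical
  let P : Ω → Polynomial Ω := fun z => (minpoly F z).map (algebraMap F Ω)
  let T : Finset Ω := X.biUnion fun z => (P z).coeffs
  have hTF : ∀ t ∈ T, t ∈ F := by
    intro t ht
    rw [Finset.mem_biUnion] at ht
    obtain ⟨z, -, hz⟩ := ht
    rw [mem_coeffs_iff] at hz
    obtain ⟨n, -, rfl⟩ := hz
    rw [coeff_map]
    exact ((minpoly F z).coeff n).2
  have hT : ∀ z ∈ X, IsAlgebraic (Algebra.adjoin ℚ (T : Set Ω)) z := by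
    intro z hz
    have h1 : P z ∈ lifts (algebraMap (Algebra.adjoin ℚ (T : Set Ω)) Ω) := by
      rw [lifts_iff_coeff_lifts]
      intro n
      by_cases hn : (P z).coeff n = 0
      · exact ⟨0, by rw [hn, map_zero]⟩
      · have h2 : (P z).coeff n ∈ T := by
          rw [Finset.mem_biUnion]
          exact ⟨z, hz, mem_coeffs_iff.2 ⟨n, mem_support_iff.2 hn, rfl⟩⟩
        exact ⟨⟨_, Algebra.subset_adjoin h2⟩, rfl⟩
    rw [mem_lifts] at h1
    obtain ⟨q, hq⟩ := h1
    refine ⟨q, ?_, ?_⟩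
    · rintro rfl
      rw [Polynomial.map_zero] at hq
      have h3 : minpoly F z ≠ 0 := minpoly.ne_zero (hX z hz).isIntegral
      exact h3 ((Polynomial.map_eq_zero (algebraMap F Ω)).1 hq.symm)
    · rw [aeval_def, ← eval_map, hq, eval_map, ← aeval_def, minpoly.aeval]
  obtain ⟨u, hu⟩ := (AlgebraicIndependent.matroid ℚ Ω).exists_isBasis (T : Set Ω)
    (Set.subset_univ _)
  obtain ⟨hind, huT, -⟩ := AlgebraicIndependent.matroid_isBasis_iff.1 hu
  have hufin : Finite u := (T.finite_toSet.subset huT).to_subtype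
  have hufin' : Fintype u := Fintype.ofFinite u
  obtain ⟨d, ⟨e⟩⟩ : ∃ d : ℕ, Nonempty (Fin d ≃ u) :=
    ⟨Fintype.card u, ⟨(Fintype.equivFin u).symm⟩⟩
  refine ⟨d, fun i => ((e i : u) : Ω), hind.comp e e.injective,
    fun i => hTF _ (huT (e i).2), ?_⟩
  intro z hz
  have h1 : Set.range (fun i => ((e i : u) : Ω)) = u := by
    ext y
    constructor
    · rintro ⟨i, rfl⟩
      exact (e i).2
    · intro hy
      exact ⟨e.symm ⟨y, hy⟩, by simp⟩
  rw [h1]
  exact (AlgebraicIndependent.isAlgebraic_adjoin_iff_of_matroid_isBasis hu).2 (hT z hz)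

/-- a finite Galois extension containing `X` -/
theorem galois {K Ω : Type} [Field K] [CharZero K] [Field Ω] [IsAlgClosed Ω] [Algebra K Ω]
    (X : Finset Ω) (hX : ∀ z ∈ X, IsAlgebraic K z) :
    ∃ L : IntermediateField K Ω, FiniteDimensional K L ∧ IsGalois K L ∧ ∀ z ∈ X, z ∈ L := by
  classical
  let p : K[X] := ∏ z ∈ X, minpoly K z
  have hp : p ≠ 0 := Finset.prod_ne_zero_iff.mpr fun z hz => minpoly.ne_zero (hX z hz).isIntegral
  let L : IntermediateField K Ω := IntermediateField.adjoin K (p.rootSet Ω)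
  have h1 : p.IsSplittingField K L :=
    IntermediateField.adjoin_rootSet_isSplittingField (IsAlgClosed.splits _)
  have h2 : FiniteDimensional K L := IsSplittingField.finiteDimensional L p
  have h3 : Normal K L := Normal.of_isSplittingField p
  refine ⟨L, h2, {}, ?_⟩
  intro z hz
  apply IntermediateField.subset_adjoin
  rw [mem_rootSet]
  refine ⟨hp, ?_⟩
  rw [map_prod]
  exact Finset.prod_eq_zero hz (minpoly.aeval K z)

/-- transport of an equivariant homomorphism to a larger field -/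
theorem transport {L Ω k : Type} [Field L] [Field Ω] [Field k] (i : L →+* Ω) (σL : L ≃+* L)
    (σ : Ω ≃+* Ω) (τ : k →+* k) (hσ : ∀ b, σ (i b) = i (σL b)) (X : Set L) (Y : Set Ω)
    (hY : ∀ y ∈ Y, ∃ x ∈ X, i x = y) (h : Equi σL τ X) : Equi σ τ Y := by
  obtain ⟨B, hB, φ, hX, hφ⟩ := h
  have hinj : Function.Injective i := i.injective
  let e := B.equivMapOfInjective i hinj
  have he : ∀ b, ((e b : B.map i) : Ω) = i b := fun b =>
    Subring.coe_equivMapOfInjective_apply B i hinj b
  have hB' : ∀ b ∈ B.map i, σ b ∈ B.map i := by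
    rintro _ ⟨b, hb, rfl⟩
    exact ⟨σL b, hB b hb, (hσ b).symm⟩
  refine ⟨B.map i, hB', φ.comp (e.symm : B.map i →+* B), ?_, ?_⟩
  · intro y hy
    obtain ⟨x, hx, rfl⟩ := hY y hy
    exact ⟨x, hX x hx, rfl⟩
  · intro b
    obtain ⟨b0, rfl⟩ := e.surjective b
    have h1 : (⟨σ (e b0 : B.map i), hB' _ (e b0).2⟩ : B.map i) = e ⟨σL b0, hB b0 b0.2⟩ := by
      apply Subtype.ext
      refine Eq.trans ?_ (he _).symm
      refine Eq.trans (congrArg σ (he b0)) (hσ _)
    rw [h1]
    change φ (e.symm (e _)) = τ (φ (e.symm (e b0)))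
    rw [e.symm_apply_apply, e.symm_apply_apply, hφ]

end FROBx

/-- CF-FROB -/
theorem frob (fg : FrobGal) : Frob := by
  classical
  intro Ω _ _ _ σ F hF X hX N
  obtain ⟨d, x, hx, hxF, hxX⟩ := FROBx.indep Ω F X hX
  let algA : Algebra (PR d) Ω := (MvPolynomial.aeval x).toRingHom.toAlgebra
  have hAE : ∀ a : PR d, algebraMap (PR d) Ω a = MvPolynomial.aeval x a := fun a => rfl
  have hinj : Function.Injective (algebraMap (PR d) Ω) := hx
  have hfs : FaithfulSMul (PR d) Ω := (faithfulSMul_iff_algebraMap_injective _ _).mpr hinj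
  let algK : Algebra (RF d) Ω := FractionRing.liftAlgebra (PR d) Ω
  have towK : IsScalarTower (PR d) (RF d) Ω := FractionRing.isScalarTower_liftAlgebra _ _
  have hch : CharZero (RF d) :=
    charZero_of_injective_algebraMap (IsFractionRing.injective (PR d) (RF d))
  have halg : ∀ z ∈ X, IsAlgebraic (RF d) z := by
    intro z hz
    have h1 : IsAlgebraic (PR d) z := by
      refine IsAlgebraic.of_ringHom_of_comp_eq (S := Algebra.adjoin ℚ (Set.range x))
        (hx.aevalEquiv : PR d →+* Algebra.adjoin ℚ (Set.range x)) (RingHom.id Ω) (hxX z hz)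
        hx.aevalEquiv.surjective Function.injective_id ?_
      apply RingHom.ext
      intro a
      change ((hx.aevalEquiv a : Algebra.adjoin ℚ (Set.range x)) : Ω) = _
      rw [hx.aevalEquiv_apply_coe]
      rfl
    exact (IsFractionRing.isAlgebraic_iff (PR d) (RF d) Ω).1 h1
  obtain ⟨L, hfin, hgal, hXL⟩ := FROBx.galois (K := RF d) X halg
  have hσ : ∀ r : RF d, σ (algebraMap (RF d) Ω r) = algebraMap (RF d) Ω r := by
    intro r
    have h1 : (σ : Ω →+* Ω).comp (algebraMap (RF d) Ω) = algebraMap (RF d) Ω := by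
      apply IsLocalization.ringHom_ext (nonZeroDivisors (PR d))
      apply MvPolynomial.ringHom_ext
      · intro q
        change σ (algebraMap (RF d) Ω (algebraMap (PR d) (RF d) (MvPolynomial.C q))) =
          algebraMap (RF d) Ω (algebraMap (PR d) (RF d) (MvPolynomial.C q))
        rw [← IsScalarTower.algebraMap_apply, hAE, MvPolynomial.aeval_C]
        simp
      · intro i
        change σ (algebraMap (RF d) Ω (algebraMap (PR d) (RF d) (MvPolynomial.X i))) =
          algebraMap (RF d) Ω (algebraMap (PR d) (RF d) (MvPolynomial.X i))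
        rw [← IsScalarTower.algebraMap_apply, hAE, MvPolynomial.aeval_X, hF _ (hxF i)]
    exact congrArg (fun g : RF d →+* Ω => g r) h1
  let σ' : Ω ≃ₐ[RF d] Ω := AlgEquiv.ofRingEquiv (f := σ) hσ
  let X' : Finset L := X.attach.image fun z => ⟨z.1, hXL z.1 z.2⟩
  obtain ⟨p, hN, hp, h⟩ := fg d L (σ'.restrictNormal L) X' N
  refine ⟨p, hN, hp, ?_⟩
  refine FROBx.transport (algebraMap L Ω) _ σ _ ?_ _ _ ?_ h
  · intro b
    exact (AlgEquiv.restrictNormal_commutes σ' L b).symm
  · intro y hy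
    refine ⟨⟨y, hXL y hy⟩, ?_, rfl⟩
    rw [Finset.mem_coe, Finset.mem_image]
    exact ⟨⟨y, hy⟩, Finset.mem_attach _ _, rfl⟩

end Pool.Agent.H320.CF
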