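import Pool.Agent.H320.CF.Stm2
import Pool.Agent.H320.CF.CYCA

/-! # CF-GA and CF-GB: subgroups of the unit group modulo a power of two (by helper122) -/

set_option autoImplicit false

namespace Pool.Agent.H320.CF

namespace GABx

/-- the subgroup of the elements `1` and `-1` -/
def pm (n : ℕ) : Subgroup (ZMod n)ˣ where
  carrier := {u | u = 1 ∨ u = -1}
  mul_mem' := by
    rintro a b (rfl | rfl) (rfl | rfl)
    · left; rw [one_mul]
    · right; rw [one_mul]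
    · right; rw [mul_one]
    · left; rw [neg_mul_neg, one_mul]
  one_mem' := Or.inl rfl
  inv_mem' := by
    rintro a (rfl | rfl)
    · left; rw [inv_one]
    · right
      rw [inv_eq_iff_mul_eq_one, neg_mul_neg, one_mul]

theorem mem_pm {n : ℕ} {u : (ZMod n)ˣ} : u ∈ pm n ↔ u = 1 ∨ u = -1 := Iff.rfl

theorem odd_val (E : ℕ) (u : (ZMod (2 ^ (E + 2)))ˣ) : (u : ZMod (2 ^ (E + 2))).val % 2 = 1 := by
  have h1 := ZMod.val_coe_unit_coprime u
  have h2 : Nat.Coprime (u : ZMod (2 ^ (E + 2))).val 2 :=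
    Nat.Coprime.coprime_dvd_right (dvd_pow_self 2 (by omega)) h1
  rcases Nat.mod_two_eq_zero_or_one (u : ZMod (2 ^ (E + 2))).val with h | h
  · exfalso
    have h3 : 2 ∣ (u : ZMod (2 ^ (E + 2))).val := Nat.dvd_of_mod_eq_zero h
    have h4 := Nat.dvd_gcd h3 (dvd_refl 2)
    rw [h2] at h4
    omega
  · exact h

end GABx

open GABx in
theorem gA : GA := by
  intro E H hH
  obtain ⟨φ, hφ⟩ : ∃ φ : (ZMod (2 ^ (E + 2)))ˣ →* (ZMod 4)ˣ,
    φ = ZMod.unitsMap (show 4 ∣ 2 ^ (E + 2) from ⟨2 ^ E, by ring⟩) := ⟨_, rfl⟩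
  have hK : IsCyclic φ.ker := by
    rw [hφ]
    exact CYCAx.ker_cyclic E
  have hneg : φ (-1) = -1 := by
    apply Units.ext
    rw [hφ, ZMod.unitsMap_val, Units.val_neg, Units.val_one, Units.val_neg, Units.val_one]
    have h1 : ((ZMod.castHom (show 4 ∣ 2 ^ (E + 2) from ⟨2 ^ E, by ring⟩) (ZMod 4)) (-1)) = -1 := by
      rw [map_neg, map_one]
    exact h1
  have h4 : ∀ v : (ZMod 4)ˣ, v = 1 ∨ v = -1 := by decide
  have hsurj : Function.Surjective ((QuotientGroup.mk' (pm (2 ^ (E + 2)))).comp φ.ker.subtype) := by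
    intro q
    obtain ⟨u, rfl⟩ := QuotientGroup.mk'_surjective _ q
    rcases h4 (φ u) with h | h
    · exact ⟨⟨u, h⟩, rfl⟩
    · refine ⟨⟨-u, ?_⟩, ?_⟩
      · rw [MonoidHom.mem_ker, ← neg_one_mul, map_mul, hneg, h, neg_mul_neg, one_mul]
      · show QuotientGroup.mk' (pm (2 ^ (E + 2))) (-u) = QuotientGroup.mk' (pm (2 ^ (E + 2))) u
        rw [QuotientGroup.mk'_apply, QuotientGroup.mk'_apply, QuotientGroup.eq]
        rw [mem_pm]
        right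
        rw [← neg_one_mul u, mul_inv, mul_assoc, inv_mul_cancel, mul_one, inv_eq_iff_mul_eq_one,
          neg_mul_neg, one_mul]
  have hQ : IsCyclic ((ZMod (2 ^ (E + 2)))ˣ ⧸ pm (2 ^ (E + 2))) :=
    isCyclic_of_surjective _ hsurj
  have hinj : Function.Injective ((QuotientGroup.mk' (pm (2 ^ (E + 2)))).comp H.subtype) := by
    rw [injective_iff_map_eq_one]
    intro h hh
    have h1 : (h : (ZMod (2 ^ (E + 2)))ˣ) ∈ pm (2 ^ (E + 2)) :=
      (QuotientGroup.eq_one_iff _).1 hh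
    rcases h1 with h2 | h2
    · exact Subtype.ext h2
    · exact absurd (h2 ▸ h.2) hH
  exact isCyclic_of_injective _ hinj

open GABx in
theorem gB : GB := by
  intro E H hex
  classical
  have hex2 : ∃ n : ℕ, ∃ c ∈ H, 4 ∣ (c : ZMod (2 ^ (E + 2))).val + 1 ∧
      padicValNat 2 ((c : ZMod (2 ^ (E + 2))).val + 1) = n := by
    obtain ⟨u, hu, h⟩ := hex
    exact ⟨_, u, hu, h, rfl⟩
  obtain ⟨c, hc, hc4, hcn⟩ := Nat.find_spec hex2
  have hmin : ∀ h ∈ H, 4 ∣ (h : ZMod (2 ^ (E + 2))).val + 1 →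
      padicValNat 2 ((c : ZMod (2 ^ (E + 2))).val + 1) ≤
        padicValNat 2 ((h : ZMod (2 ^ (E + 2))).val + 1) := by
    intro h hh hh4
    rw [hcn]
    exact Nat.find_min' hex2 ⟨h, hh, hh4, rfl⟩
  refine ⟨c, hc, hc4, ?_⟩
  intro b hb hbc
  have : Fact (Nat.Prime 2) := ⟨Nat.prime_two⟩
  have hthree : ∀ h ∈ H, 4 ∣ (h : ZMod (2 ^ (E + 2))).val + 1 →
      2 ^ b ∣ (h : ZMod (2 ^ (E + 2))).val + 1 := by
    intro h hh hh4
    rw [padicValNat_dvd_iff_le (Nat.succ_ne_zero _)]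
    refine le_trans ?_ (hmin h hh hh4)
    rwa [← padicValNat_dvd_iff_le (Nat.succ_ne_zero _)]
  intro h hh
  have ho := odd_val E h
  obtain ⟨x, hx⟩ : ∃ x : ℕ, x = (h : ZMod (2 ^ (E + 2))).val := ⟨_, rfl⟩
  obtain ⟨y, hy⟩ : ∃ y : ℕ, y = (c : ZMod (2 ^ (E + 2))).val := ⟨_, rfl⟩
  by_cases h4 : 4 ∣ (h : ZMod (2 ^ (E + 2))).val + 1
  · right
    exact_mod_cast hthree h hh h4
  · left
    obtain ⟨w, hw⟩ : ∃ w : ℕ, w = ((h * c : (ZMod (2 ^ (E + 2)))ˣ) : ZMod (2 ^ (E + 2))).val :=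
      ⟨_, rfl⟩
    have hmul : w = x * y % 2 ^ (E + 2) := by
      rw [hw, Units.val_mul, ZMod.val_mul, ← hx, ← hy]
    rw [← hx] at ho h4 ⊢
    rw [← hy] at hc4 hbc
    have hdiv : (2 ^ (E + 2) : ℤ) ∣ (x : ℤ) * y - w := by
      rw [hmul]
      refine ⟨((x * y / 2 ^ (E + 2) : ℕ) : ℤ), ?_⟩
      have h5 := Nat.div_add_mod (x * y) (2 ^ (E + 2))
      have h6 : ((2 ^ (E + 2) * (x * y / 2 ^ (E + 2)) + x * y % 2 ^ (E + 2) : ℕ) : ℤ) =
        ((x * y : ℕ) : ℤ) := by rw [h5]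
      push_cast at h6 ⊢
      linarith
    have h41 : (4 : ℤ) ∣ (x : ℤ) - 1 := by omega
    have h4c : (4 : ℤ) ∣ (y : ℤ) + 1 := by exact_mod_cast hc4
    have h42 : (4 : ℤ) ∣ (2 ^ (E + 2) : ℤ) := ⟨2 ^ E, by ring⟩
    have hw4 : (4 : ℤ) ∣ (w : ℤ) + 1 := by
      have e : (w : ℤ) + 1 = (x - 1) * y + (y + 1) - (x * y - w) := by ring
      rw [e]
      exact dvd_sub (dvd_add (h41.mul_right _) h4c) (h42.trans hdiv)
    have hwb := hthree (h * c) (H.mul_mem hh hc) (by rw [← hw]; exact_mod_cast hw4)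
    rw [← hw] at hwb
    have h7 : (2 ^ b : ℤ) ∣ (w : ℤ) + 1 := by exact_mod_cast hwb
    have h8 : (2 ^ b : ℤ) ∣ (y : ℤ) + 1 := by exact_mod_cast hbc
    have h9 : (2 ^ b : ℤ) ∣ (2 ^ (E + 2) : ℤ) := pow_dvd_pow 2 hb
    have e : (x : ℤ) - 1 = x * (y + 1) - (x * y - w) - (w + 1) := by ring
    rw [e]
    exact dvd_sub (dvd_sub (h8.mul_left _) (h9.trans hdiv)) h7

end Pool.Agent.H320.CF
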