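import Mathlib

/-!
helper320: statements for the strong Atiyah conjecture for `GL_n (K)`, `K` an arbitrary field of
characteristic zero which contains a square root of `-1`.
-/

set_option autoImplicit false

namespace Pool.Agent.H320.CF

open Polynomial NumberField

/-- Hilbert's irreducibility theorem over `ℚ`, several variables, root version (in the library) -/
def HNR : Prop := ∀ (ι : Type) [Finite ι] (q : ℕ) (P : Fin q → (MvPolynomial ι ℚ)[X])
    (g : MvPolynomial ι ℚ), g ≠ 0 →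
    (∀ (j : Fin q) (θ : FractionRing (MvPolynomial ι ℚ)),
      ((P j).map (algebraMap (MvPolynomial ι ℚ) (FractionRing (MvPolynomial ι ℚ)))).eval θ ≠ 0) →
    ∃ a : ι → ℚ, MvPolynomial.eval a g ≠ 0 ∧
      ∀ (j : Fin q) (x : ℚ), ((P j).map (MvPolynomial.eval a)).eval x ≠ 0

/-- every element of the Galois group is a Frobenius element at arbitrarily large primes (in the
library) -/
def Frobs : Prop := ∀ (κ : Type) [Field κ] [NumberField κ] [IsGalois ℚ κ] (τ : κ ≃ₐ[ℚ] κ) (N : ℕ),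
  ∃ p, N < p ∧ ∃ _ : Fact p.Prime, ∃ φ : 𝓞 κ →+* AlgebraicClosure (ZMod p),
    ∀ x : 𝓞 κ, φ (τ • x) = φ x ^ p

/-- the polynomial ring -/
abbrev PR (d : ℕ) : Type := MvPolynomial (Fin d) ℚ

/-- the field of rational functions -/
abbrev RF (d : ℕ) : Type := FractionRing (PR d)

/-- the structure map of the polynomial ring -/
noncomputable def str (d : ℕ) (L : Type) [Field L] [Algebra (RF d) L] : PR d →+* L :=
  (algebraMap (RF d) L).comp (algebraMap (PR d) (RF d))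

/-- a homomorphism `φ` from a `σ`-stable ring `B` to `k`, such that `σ` becomes `τ`, which is defined
on the elements of `X` -/
def Equi {L k : Type} [Field L] [Field k] (σ : L ≃+* L) (τ : k →+* k) (X : Set L) : Prop :=
  ∃ (B : Subring L) (hB : ∀ b ∈ B, σ b ∈ B) (φ : B →+* k),
    (∀ z ∈ X, z ∈ B) ∧ ∀ b : B, φ ⟨σ b, hB b b.2⟩ = τ (φ b)

/-- CF-LOC: localisation -/
def Loc : Prop := ∀ (L k : Type) [Field L] [Field k] (σ : L ≃+* L) (τ : k →+* k) (B : Subring L)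
  (hB : ∀ b ∈ B, σ b ∈ B) (φ : B →+* k), (∀ b : B, φ ⟨σ b, hB b b.2⟩ = τ (φ b)) →
    Equi σ τ {z : L | ∃ b s : B, φ s ≠ 0 ∧ z = b / s}

/-- CF-SPEC1: specialisation at a point where the decomposition group is the whole group -/
def Spec1 : Prop := ∀ (d : ℕ) (L : Type) [Field L] [Algebra (RF d) L] [FiniteDimensional (RF d) L]
  [IsGalois (RF d) L] (a : Fin d → ℚ) (h : PR d), MvPolynomial.eval a h ≠ 0 →
  (∀ H : Subgroup (L ≃ₐ[RF d] L), H ≠ ⊤ → ∃ (y : L) (P : (PR d)[X]), (∀ g ∈ H, g y = y) ∧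
    P.Monic ∧ P.eval₂ (str d L) y = 0 ∧ ∀ x : ℚ, (P.map (MvPolynomial.eval a)).eval x ≠ 0) →
  ∀ σ : L ≃ₐ[RF d] L, ∃ (κ : Type) (_ : Field κ) (_ : NumberField κ) (_ : IsGalois ℚ κ)
    (τ : κ ≃ₐ[ℚ] κ), Equi (σ : L ≃+* L) (τ : κ →+* κ)
      {z : L | (str d L).IsIntegralElem (str d L h * z)}

/-- specialisation of a Galois extension of a rational function field over `ℚ` to a
Galois number field, compatible with an automorphism, defined on a given finite set. -/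
def Spec : Prop := ∀ (d : ℕ) (L : Type) [Field L] [Algebra (RF d) L] [FiniteDimensional (RF d) L]
  [IsGalois (RF d) L] (σ : L ≃ₐ[RF d] L) (X : Finset L),
  ∃ (κ : Type) (_ : Field κ) (_ : NumberField κ) (_ : IsGalois ℚ κ) (τ : κ ≃ₐ[ℚ] κ),
    Equi (σ : L ≃+* L) (τ : κ →+* κ) (X : Set L)

/-- CF-CHEB: the Frobenius homomorphism, extended from the integers to a given finite set. -/
def Cheb : Prop := ∀ (κ : Type) [Field κ] [NumberField κ] [IsGalois ℚ κ] (τ : κ ≃ₐ[ℚ] κ)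
  (Y : Finset κ) (N : ℕ), ∃ p, N < p ∧ ∃ _ : Fact p.Prime,
    Equi (τ : κ ≃+* κ) (frobenius (AlgebraicClosure (ZMod p)) p) (Y : Set κ)

/-- a homomorphism from a `σ`-stable ring containing `X` to the algebraic closure of `F_p`, such
that `σ` becomes the Frobenius automorphism -/
def FrobAt {Ω : Type} [Field Ω] (σ : Ω ≃+* Ω) (X : Finset Ω) (p : ℕ) [Fact p.Prime] : Prop :=
  Equi σ (frobenius (AlgebraicClosure (ZMod p)) p) (X : Set Ω)

/-- Frobenius homomorphisms for finite Galois extensions of rational function fields -/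
def FrobGal : Prop := ∀ (d : ℕ) (L : Type) [Field L] [Algebra (RF d) L]
  [FiniteDimensional (RF d) L] [IsGalois (RF d) L] (σ : L ≃ₐ[RF d] L) (X : Finset L) (N : ℕ),
  ∃ p, N < p ∧ ∃ _ : Fact p.Prime, FrobAt (σ : L ≃+* L) X p

/-- Frobenius homomorphisms in general -/
def Frob : Prop := ∀ (Ω : Type) [Field Ω] [CharZero Ω] [IsAlgClosed Ω] (σ : Ω ≃+* Ω)
  (F : Subfield Ω), (∀ z ∈ F, σ z = z) → ∀ X : Finset Ω, (∀ z ∈ X, IsAlgebraic F z) →
  ∀ N : ℕ, ∃ p, N < p ∧ ∃ _ : Fact p.Prime, FrobAt σ X p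

/-- CF-IND: algebraically independent `p`-adic integers with given residues -/
def Ind : Prop := ∀ (p : ℕ) [Fact p.Prime] (d : ℕ) (a : Fin d → ZMod p),
  ∃ x : Fin d → ℤ_[p], AlgebraicIndependent ℤ x ∧ ∀ i, PadicInt.toZMod (x i) = a i

/-- CF-LIFT: for every finitely generated ring `ℤ[T]` of characteristic zero there is a finite set
`X` in its field of fractions, such that a homomorphism to `F_p` of a ring containing `X` is enough
for an embedding of `ℤ[T]` in `ℤ_p`. -/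
def Lift : Prop := ∀ (L : Type) [Field L] [CharZero L] (T : Finset L), ∃ X : Finset L,
  (∀ z ∈ X, z ∈ Subfield.closure (T : Set L)) ∧
  ∀ (p : ℕ) [Fact p.Prime] (B : Subring L), (∀ z ∈ X, z ∈ B) → ∀ _ : B →+* ZMod p,
    ∃ ι : Subring.closure (T : Set L) →+* ℤ_[p], Function.Injective ι

/-- the degrees of roots of unity over `K` are not larger than over the field with `p` elements -/
def Deg (K : Type) [Field K] (l E p : ℕ) : Prop := ∀ b ≤ E, ∀ s, 0 < s → l ^ b ∣ p ^ s - 1 →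
  ∀ ζ : AlgebraicClosure K, IsPrimitiveRoot ζ (l ^ b) → (minpoly K ζ).natDegree ≤ s

/-- CF-CYCA -/
def CycA : Prop := ∀ (l E : ℕ), l.Prime → ∀ H : Subgroup (ZMod (l ^ E))ˣ,
  (l = 2 → ∀ u ∈ H, 4 ∣ (u : ZMod (l ^ E)).val - 1) → IsCyclic H

/-- CF-CYCB -/
def CycB : Prop := ∀ (K : Type) [Field K] [CharZero K] (l E : ℕ), l.Prime →
  (l = 2 → ∃ i : K, i ^ 2 = -1) →
  ∃ (σ : AlgebraicClosure K ≃ₐ[K] AlgebraicClosure K) (X : Finset (AlgebraicClosure K)),
    ∀ (p : ℕ) [Fact p.Prime], p ≠ l →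
      FrobAt (σ : AlgebraicClosure K ≃+* AlgebraicClosure K) X p →
        Deg K l E p ∧ (l = 2 → 4 ∣ p - 1)

/-- CF-EXI: the existence of the primes -/
def Exist : Prop := ∀ (K : Type) [Field K] [CharZero K] (T : Finset K) (l E N : ℕ), l.Prime →
  (l = 2 → ∃ i : K, i ^ 2 = -1) → ∃ p, N < p ∧ ∃ _ : Fact p.Prime, Deg K l E p ∧
    (l = 2 → 4 ∣ p - 1) ∧ ∃ ι : Subring.closure (T : Set K) →+* ℤ_[p], Function.Injective ι

/-- CF-CNT -/
def Cnt : Prop := ∀ (l p s b n : ℕ), l.Prime → l ≠ 2 → p.Prime → l ≠ p → 0 < s →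
  (∀ j : ℕ, l ∣ p ^ j - 1 → s ∣ j) → 0 < b → l ^ b ∣ p ^ s - 1 → ¬ l ^ (b + 1) ∣ p ^ s - 1 →
    ∃ r : ℕ, ¬ l ∣ r ∧ Nat.card (Matrix.GeneralLinearGroup (Fin n) (ZMod p)) ∣
      r * (l ^ (b * (n / s)) * (n / s).factorial)

/-- monomial matrices (known, see `Pool.Agent.H371.SC`) -/
def Mono : Prop := ∀ (R : Type) [CommRing R] [IsDomain R] (q : ℕ), 0 < q → ∀ ξ : R,
  IsPrimitiveRoot ξ q → ∀ n : ℕ,
    ∃ H : Subgroup (Matrix.GeneralLinearGroup (Fin n) R), Finite H ∧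
      Nat.card H = q ^ n * n.factorial

/-- CF-FIN -/
def FinG : Prop := ∀ (K : Type) [Field K] [CharZero K] (l b s n : ℕ), l.Prime → 0 < s →
  (∀ ζ : AlgebraicClosure K, IsPrimitiveRoot ζ (l ^ b) → (minpoly K ζ).natDegree ≤ s) →
  ∃ H : Subgroup (Matrix (Fin n) (Fin n) (integralClosure ℤ K))ˣ, Finite H ∧
    Nat.card H = (l ^ b) ^ (n / s) * (n / s).factorial

end Pool.Agent.H320.CF
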