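import Mathlib
import Pool.Agent.H320.CF.Stm

/-!
helper870 for helper320: algebraically independent `p`-adic integers with given residues.
-/

set_option autoImplicit false

namespace Pool.Agent.H320.CF

namespace INDx

open Cardinal

theorem adjoin_countable {ι : Type} [Finite ι] {A : Type} [CommRing A] (x : ι → A) :
    Countable (Algebra.adjoin ℤ (Set.range x)) := by
  have h1 : Countable (MvPolynomial ι ℤ) := by
    rw [← Cardinal.mk_le_aleph0_iff]
    refine MvPolynomial.cardinalMk_le_max.trans ?_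
    have h2 : #ℤ ≤ ℵ₀ := Cardinal.mk_le_aleph0
    have h3 : #ι ≤ ℵ₀ := Cardinal.mk_le_aleph0
    exact max_le (max_le h2 h3) le_rfl
  rw [Algebra.adjoin_range_eq_range_aeval]
  exact (MvPolynomial.aeval (R := ℤ) x).rangeRestrict_surjective.countable

theorem uncountable_padicInt (p : ℕ) [Fact p.Prime] : Uncountable ℤ_[p] := by
  rw [← Cardinal.aleph0_lt_mk_iff]
  have h1 : 𝔠 ≤ #ℚ_[p] := _root_.continuum_le_cardinal_of_nontriviallyNormedField ℚ_[p]
  have h2 : #ℚ_[p] ≤ #ℤ_[p] := IsLocalization.cardinalMk_le (R := ℤ_[p]) (L := ℚ_[p])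
    (nonZeroDivisors ℤ_[p])
  exact (Cardinal.aleph0_lt_continuum.trans_le h1).trans_le h2

theorem step (p : ℕ) [Fact p.Prime] (R : Subalgebra ℤ ℤ_[p]) [Countable R] (c : ZMod p) :
    ∃ z : ℤ_[p], Transcendental R z ∧ PadicInt.toZMod z = c := by
  obtain ⟨c', hc'⟩ := ZMod.ringHom_surjective (PadicInt.toZMod (p := p)) c
  by_contra hcon
  push Not at hcon
  have hS : Set.Countable {z : ℤ_[p] | IsAlgebraic R z} := Algebraic.countable R ℤ_[p]
  have hmem : ∀ z : ℤ_[p], IsAlgebraic R (c' + p * z) := by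
    intro z
    by_contra hz
    apply hcon (c' + p * z) hz
    simp [hc']
  have hinj : Function.Injective (fun z : ℤ_[p] => c' + (p : ℤ_[p]) * z) := by
    intro z w hzw
    have h0 : (p : ℤ_[p]) ≠ 0 := by exact_mod_cast (Fact.out : p.Prime).ne_zero
    exact mul_left_cancel₀ h0 (add_left_cancel hzw)
  have h3 : (Set.univ : Set ℤ_[p]).Countable := by
    have h4 := hS.preimage hinj
    refine h4.mono ?_
    intro z _
    exact hmem z
  have h5 : Countable ℤ_[p] := Set.countable_univ_iff.mp h3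
  exact (not_countable_iff.mpr (uncountable_padicInt p)) h5

theorem gen (p : ℕ) [Fact p.Prime] (ι : Type) [Finite ι] : ∀ a : ι → ZMod p,
    ∃ x : ι → ℤ_[p], AlgebraicIndependent ℤ x ∧ ∀ i, PadicInt.toZMod (x i) = a i := by
  refine Finite.induction_empty_option (P := fun ι : Type => ∀ a : ι → ZMod p,
    ∃ x : ι → ℤ_[p], AlgebraicIndependent ℤ x ∧ ∀ i, PadicInt.toZMod (x i) = a i) ?_ ?_ ?_ ι
  · intro α β e ih a
    obtain ⟨x, hx, hxa⟩ := ih (a ∘ e)
    refine ⟨x ∘ e.symm, (algebraicIndependent_equiv e.symm).mpr hx, ?_⟩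
    intro i
    have := hxa (e.symm i)
    simpa using this
  · intro a
    refine ⟨fun i => i.elim, algebraicIndependent_empty_type_iff.mpr ?_, fun i => i.elim⟩
    exact FaithfulSMul.algebraMap_injective ℤ ℤ_[p]
  · intro α _ ih a
    obtain ⟨x, hx, hxa⟩ := ih (fun i => a (some i))
    have := adjoin_countable x
    obtain ⟨z, hz, hza⟩ := step p (Algebra.adjoin ℤ (Set.range x)) (a none)
    refine ⟨fun o => o.elim z x, (hx.option_iff_transcendental z).mpr hz, ?_⟩
    intro i
    cases i with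
    | none => exact hza
    | some i => exact hxa i

end INDx

theorem ind : Ind := by
  intro p _ d a
  exact INDx.gen p (Fin d) a

end Pool.Agent.H320.CF
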