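import Pool.Agent.H320.CF.Stm

/-!
helper358 for helper320: CF-LIFT, embeddings of finitely generated rings in the `p`-adic integers.
-/

set_option autoImplicit false

namespace Pool.Agent.H320.CF

open Polynomial

namespace LIFTx

/-- primitive element, integral over `A`, with common denominators -/
theorem core {A K E : Type} [CommRing A] [IsDomain A] [Field K] [Algebra A K]
    [IsFractionRing A K] [Field E] [Algebra A E] [Algebra K E] [IsScalarTower A K E]
    [FiniteDimensional K E] [Algebra.IsSeparable K E] :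
    ∃ (w : E) (b : E → A) (U : E → A[X]), IsIntegral A w ∧ Algebra.adjoin K {w} = ⊤ ∧
      ∀ t, b t ≠ 0 ∧ algebraMap A E (b t) * t = aeval w (U t) := by
  classical
  have hAK : Function.Injective (algebraMap A K) := IsFractionRing.injective A K
  have hAE : Function.Injective (algebraMap A E) := by
    rw [IsScalarTower.algebraMap_eq A K E]
    exact (algebraMap K E).injective.comp hAK
  obtain ⟨w0, hw0⟩ := Field.exists_primitive_element K E
  have halgK : IsAlgebraic K w0 := Algebra.IsAlgebraic.isAlgebraic w0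
  have halg : IsAlgebraic A w0 := (IsFractionRing.isAlgebraic_iff A K E).2 halgK
  obtain ⟨a, ha, hint⟩ := halg.exists_integral_multiple
  have hwtop : Algebra.adjoin K {a • w0} = ⊤ := by
    have h1 : Algebra.adjoin K {w0} = ⊤ := by
      have h2 := IntermediateField.adjoin_simple_toSubalgebra_of_isAlgebraic halgK
      rw [hw0] at h2
      rw [← h2]; rfl
    rw [eq_top_iff, ← h1]
    refine Algebra.adjoin_le ?_
    intro z hz
    rw [Set.mem_singleton_iff] at hz
    rw [hz]
    have h3 : w0 = (algebraMap A K a)⁻¹ • (a • w0) := by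
      rw [← algebraMap_smul K a w0, smul_smul, inv_mul_cancel₀, one_smul]
      intro h; exact ha (hAK (by rw [h, map_zero]))
    rw [h3]
    exact Subalgebra.smul_mem _ (by rw [← h3]; exact Algebra.subset_adjoin rfl) _
  have key : ∀ t : E, ∃ (b : A) (U : A[X]), b ≠ 0 ∧
      algebraMap A E b * t = aeval (a • w0) U := by
    intro t
    have ht : t ∈ Algebra.adjoin K {a • w0} := by rw [hwtop]; trivial
    rw [Algebra.adjoin_singleton_eq_range_aeval] at ht
    obtain ⟨q, hq⟩ := ht
    obtain ⟨b, hb, hbq⟩ := IsLocalization.integerNormalization_spec (nonZeroDivisors A) q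
    refine ⟨b, IsLocalization.integerNormalization (nonZeroDivisors A) q,
      nonZeroDivisors.ne_zero hb, ?_⟩
    have hq' : aeval (a • w0) q = t := hq
    have h5 : aeval (a • w0) (IsLocalization.integerNormalization (nonZeroDivisors A) q)
        = aeval (a • w0) ((IsLocalization.integerNormalization (nonZeroDivisors A) q).map
          (algebraMap A K)) := (aeval_map_algebraMap K _ _).symm
    rw [h5, hbq, ← algebraMap_smul K b q, map_smul, hq', Algebra.smul_def,
      ← IsScalarTower.algebraMap_apply]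
  choose b U hb hU using key
  exact ⟨a • w0, b, U, hint, hwtop, fun t => ⟨hb t, hU t⟩⟩

/-- the embedding of `E` in the `p`-adic numbers -/
theorem embed {A K E : Type} [CommRing A] [IsDomain A] [IsIntegrallyClosed A] [Field K]
    [Algebra A K] [IsFractionRing A K] [Field E] [Algebra A E] [Algebra K E] [IsScalarTower A K E]
    [FiniteDimensional K E] [Algebra.IsSeparable K E] (w : E) (hw : IsIntegral A w)
    (hwtop : Algebra.adjoin K {w} = ⊤) (p : ℕ) [Fact p.Prime] (ψ : A →+* ℤ_[p])
    (hψ : Function.Injective ψ) (w' : ℤ_[p]) (hw' : ((minpoly A w).map ψ).eval w' = 0) :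
    ∃ j : E →+* ℚ_[p], (∀ a : A, j (algebraMap A E a) = (ψ a : ℚ_[p])) ∧ j w = w' := by
  set c : ℤ_[p] →+* ℚ_[p] := PadicInt.Coe.ringHom with hc
  have hcinj : Function.Injective c := Subtype.val_injective
  have hinj : Function.Injective (c.comp ψ) := hcinj.comp hψ
  let algK : Algebra K ℚ_[p] := (IsFractionRing.lift (K := K) hinj).toAlgebra
  have hKA : ∀ a : A, algebraMap K ℚ_[p] (algebraMap A K a) = c (ψ a) := fun a =>
    IsFractionRing.lift_algebraMap hinj a
  have hwK : IsIntegral K w := hw.tower_top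
  let pb : PowerBasis K E := PowerBasis.ofAdjoinEqTop hwK hwtop
  have hgen : pb.gen = w := PowerBasis.ofAdjoinEqTop_gen hwK hwtop
  have hmin : minpoly K w = (minpoly A w).map (algebraMap A K) :=
    minpoly.isIntegrallyClosed_eq_field_fractions' K hw
  have hroot : aeval (c w') (minpoly K pb.gen) = 0 := by
    rw [hgen, hmin, aeval_def, eval₂_map]
    have h1 : (algebraMap K ℚ_[p]).comp (algebraMap A K) = c.comp ψ := RingHom.ext hKA
    rw [h1]
    have h2 := congrArg c hw'
    rw [map_zero, eval_map, hom_eval₂] at h2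
    exact h2
  refine ⟨(pb.lift (c w') hroot).toRingHom, fun a => ?_, ?_⟩
  · change pb.lift (c w') hroot (algebraMap A E a) = _
    rw [IsScalarTower.algebraMap_apply A K E, AlgHom.commutes, hKA]
    rfl
  · change pb.lift (c w') hroot w = _
    conv_lhs => rw [← hgen]
    rw [PowerBasis.lift_gen]
    rfl

theorem norm_eq_one {p : ℕ} [Fact p.Prime] {u : ℤ_[p]} (h : PadicInt.toZMod u ≠ 0) : ‖u‖ = 1 := by
  by_contra hne
  have h1 : u ∈ IsLocalRing.maximalIdeal ℤ_[p] := by
    rw [IsLocalRing.mem_maximalIdeal, mem_nonunits_iff, PadicInt.isUnit_iff]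
    exact hne
  rw [← PadicInt.ker_toZMod, RingHom.mem_ker] at h1
  exact h h1

theorem norm_lt_one {p : ℕ} [Fact p.Prime] {u : ℤ_[p]} (h : PadicInt.toZMod u = 0) : ‖u‖ < 1 := by
  rw [← RingHom.mem_ker, PadicInt.ker_toZMod, IsLocalRing.mem_maximalIdeal, mem_nonunits_iff,
    PadicInt.isUnit_iff] at h
  exact lt_of_le_of_ne (PadicInt.norm_le_one u) h

/-- the whole argument for one prime -/
theorem main {A K E : Type} [CommRing A] [IsDomain A] [IsIntegrallyClosed A] [Field K]
    [Algebra A K] [IsFractionRing A K] [Field E] [Algebra A E] [Algebra K E] [IsScalarTower A K E]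
    [FiniteDimensional K E] [Algebra.IsSeparable K E] (w : E) (hw : IsIntegral A w)
    (hwtop : Algebra.adjoin K {w} = ⊤) (b : E → A) (U : E → A[X])
    (hbU : ∀ t, b t ≠ 0 ∧ algebraMap A E (b t) * t = aeval w (U t)) (T : Set E)
    (p : ℕ) [Fact p.Prime] (ψ : A →+* ℤ_[p])
    (hψ : Function.Injective ψ) (B : Subring E) (θ : B →+* ZMod p)
    (hAB : ∀ a, algebraMap A E a ∈ B) (hwB : w ∈ B)
    (hdB : (aeval w (derivative (minpoly A w)))⁻¹ ∈ B)
    (hbB : ∀ t ∈ T, (algebraMap A E (b t))⁻¹ ∈ B)
    (hθ : ∀ a, θ ⟨algebraMap A E a, hAB a⟩ = PadicInt.toZMod (ψ a)) :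
    ∃ j : E →+* ℚ_[p], ∀ t ∈ T, ‖j t‖ ≤ 1 := by
  have hAK : Function.Injective (algebraMap A K) := IsFractionRing.injective A K
  have hAE : Function.Injective (algebraMap A E) := by
    rw [IsScalarTower.algebraMap_eq A K E]
    exact (algebraMap K E).injective.comp hAK
  have hmin : minpoly K w = (minpoly A w).map (algebraMap A K) :=
    minpoly.isIntegrallyClosed_eq_field_fractions' K hw
  have hd0 : aeval w (derivative (minpoly A w)) ≠ 0 := by
    have h1 : (minpoly K w).Separable := Algebra.IsSeparable.isSeparable K w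
    have h2 := h1.aeval_derivative_ne_zero (minpoly.aeval K w)
    rw [hmin, derivative_map, aeval_map_algebraMap] at h2
    exact h2
  -- evaluation of polynomials in `B`
  let i : A →+* B := (algebraMap A E).codRestrict B hAB
  have hi : ∀ a, ((i a : B) : E) = algebraMap A E a := fun a => rfl
  have hevE : ∀ q : A[X], ((q.eval₂ i ⟨w, hwB⟩ : B) : E) = aeval w q := by
    intro q
    have := hom_eval₂ q i B.subtype ⟨w, hwB⟩
    change B.subtype (q.eval₂ i ⟨w, hwB⟩) = _
    rw [this, aeval_def]
    rfl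
  have hθi : θ.comp i = (PadicInt.toZMod (p := p)).comp ψ := RingHom.ext hθ
  obtain ⟨v0, hv0⟩ : ∃ v0 : ℤ_[p], PadicInt.toZMod v0 = θ ⟨w, hwB⟩ :=
    ZMod.ringHom_surjective (PadicInt.toZMod (p := p)) _
  have hevθ : ∀ q : A[X], PadicInt.toZMod ((q.map ψ).eval v0) = θ (q.eval₂ i ⟨w, hwB⟩) := by
    intro q
    rw [eval_map, hom_eval₂, hom_eval₂, hv0, hθi]
  set f : ℤ_[p][X] := (minpoly A w).map ψ with hf
  have h1 : ‖f.eval v0‖ < 1 := by
    apply norm_lt_one
    rw [hf, hevθ]
    have : (minpoly A w).eval₂ i ⟨w, hwB⟩ = 0 := by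
      apply Subtype.ext
      rw [hevE, minpoly.aeval]
      rfl
    rw [this, map_zero]
  have h2 : ‖f.derivative.eval v0‖ = 1 := by
    apply norm_eq_one
    rw [hf, derivative_map, hevθ]
    intro h0
    have h3 : ((derivative (minpoly A w)).eval₂ i ⟨w, hwB⟩) * (⟨_, hdB⟩ : B) = 1 := by
      apply Subtype.ext
      change (((derivative (minpoly A w)).eval₂ i ⟨w, hwB⟩ : B) : E) * _ = 1
      rw [hevE]
      exact mul_inv_cancel₀ hd0
    have h4 := congrArg θ h3
    rw [map_mul, h0, zero_mul, map_one] at h4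
    exact zero_ne_one h4
  obtain ⟨w', hw', -⟩ := hensels_lemma (F := f) (a := v0) (by
    change ‖f.eval v0‖ < ‖f.derivative.eval v0‖ ^ 2
    rw [h2, one_pow]
    exact h1)
  change f.eval w' = 0 at hw'
  obtain ⟨j, hjA, hjw⟩ := embed (K := K) w hw hwtop p ψ hψ w' hw'
  refine ⟨j, fun t ht => ?_⟩
  obtain ⟨hb0, hbt⟩ := hbU t
  have hnb : ‖ψ (b t)‖ = 1 := by
    apply norm_eq_one
    rw [← hθ]
    intro h0
    have h3 : (⟨algebraMap A E (b t), hAB _⟩ : B) * (⟨_, hbB t ht⟩ : B) = 1 := by
      apply Subtype.ext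
      change algebraMap A E (b t) * (algebraMap A E (b t))⁻¹ = 1
      apply mul_inv_cancel₀
      intro h
      exact hb0 (hAE (by rw [h, map_zero]))
    have h4 := congrArg θ h3
    rw [map_mul, h0, zero_mul, map_one] at h4
    exact zero_ne_one h4
  have hj : (ψ (b t) : ℚ_[p]) * j t = (((U t).map ψ).eval w' : ℤ_[p]) := by
    have h5 := congrArg j hbt
    rw [map_mul, hjA, aeval_def, hom_eval₂, hjw] at h5
    rw [h5]
    have h6 : j.comp (algebraMap A E) = (PadicInt.Coe.ringHom (p := p)).comp ψ := RingHom.ext hjA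
    rw [h6]
    change _ = PadicInt.Coe.ringHom (((U t).map ψ).eval w')
    rw [eval_map, hom_eval₂]
    rfl
  have h7 : ‖(ψ (b t) : ℚ_[p])‖ * ‖j t‖ ≤ 1 := by
    rw [← norm_mul, hj]
    exact PadicInt.norm_le_one _
  have h8 : ‖(ψ (b t) : ℚ_[p])‖ = 1 := hnb
  rw [h8, one_mul] at h7
  exact h7

theorem lift_top (ind : Ind) (E : Type) [Field E] [CharZero E] (T : Finset E)
    (hT : Subfield.closure (T : Set E) = ⊤) : ∃ X : Finset E, ∀ (p : ℕ) [Fact p.Prime]
      (B : Subring E), (∀ z ∈ X, z ∈ B) → ∀ _ : B →+* ZMod p,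
        ∃ j : E →+* ℚ_[p], ∀ t ∈ (T : Set E), ‖j t‖ ≤ 1 := by
  classical
  have halg : Algebra.IsAlgebraic (Algebra.adjoin ℤ (T : Set E)) E := by
    refine ⟨fun e => ?_⟩
    have he : e ∈ Subfield.closure (T : Set E) := by rw [hT]; trivial
    rw [Subfield.mem_closure_iff] at he
    obtain ⟨y, hy, z, hz, rfl⟩ := he
    rw [div_eq_mul_inv]
    have hy' : y ∈ Algebra.adjoin ℤ (T : Set E) := by
      rw [Algebra.adjoin_int, mem_subalgebraOfSubring]; exact hy
    have hz' : z ∈ Algebra.adjoin ℤ (T : Set E) := by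
      rw [Algebra.adjoin_int, mem_subalgebraOfSubring]; exact hz
    exact (isAlgebraic_algebraMap (A := E) (⟨y, hy'⟩ : Algebra.adjoin ℤ (T : Set E))).mul
      (isAlgebraic_algebraMap (A := E) (⟨z, hz'⟩ : Algebra.adjoin ℤ (T : Set E))).inv
  obtain ⟨u, huT, hu⟩ := exists_isTranscendenceBasis_subset (R := ℤ) (T : Set E)
  have hufin : Finite u := (T.finite_toSet.subset huT).to_subtype
  have hufin' : Fintype u := Fintype.ofFinite u
  obtain ⟨d, ⟨e⟩⟩ : ∃ d : ℕ, Nonempty (Fin d ≃ u) :=
    ⟨Fintype.card u, ⟨(Fintype.equivFin u).symm⟩⟩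
  let x : Fin d → E := fun i => ((e i : u) : E)
  have hx : AlgebraicIndependent ℤ x := hu.1.comp e e.injective
  have hxT : ∀ i, x i ∈ (T : Set E) := fun i => huT (e i).2
  let A := MvPolynomial (Fin d) ℤ
  let K := FractionRing A
  let algA : Algebra A E := (MvPolynomial.aeval x).toRingHom.toAlgebra
  have hAE : ∀ a : A, algebraMap A E a = MvPolynomial.aeval x a := fun a => rfl
  have hinj : Function.Injective (algebraMap A E) := hx
  have : FaithfulSMul A E := (faithfulSMul_iff_algebraMap_injective A E).mpr hinj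
  let algK : Algebra K E := FractionRing.liftAlgebra A E
  have towK : IsScalarTower A K E := FractionRing.isScalarTower_liftAlgebra A E
  have tow : IsScalarTower ℤ A E := IsScalarTower.of_algebraMap_eq fun a => by
    simp
  have halgA : Algebra.IsAlgebraic A E := by
    rw [hu.isAlgebraic_iff]
    intro i
    have h1 : ((i : u) : E) = algebraMap A E (MvPolynomial.X (e.symm i)) := by
      rw [hAE, MvPolynomial.aeval_X]
      change _ = ((e (e.symm i) : u) : E)
      rw [e.apply_symm_apply]
    rw [h1]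
    exact isAlgebraic_algebraMap _
  have halgK : Algebra.IsAlgebraic K E := (IsFractionRing.comap_isAlgebraic_iff (A := A)).1 halgA
  have hch : CharZero K := charZero_of_injective_algebraMap (IsFractionRing.injective A K)
  have hfin : FiniteDimensional K E := by
    have h1 : FiniteDimensional K (IntermediateField.adjoin K (T : Set E)) :=
      IntermediateField.finiteDimensional_adjoin fun t _ =>
        (Algebra.IsAlgebraic.isAlgebraic t).isIntegral
    have h2 : IntermediateField.adjoin K (T : Set E) = ⊤ := by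
      have h3 : Subfield.closure (T : Set E) ≤
          (IntermediateField.adjoin K (T : Set E)).toSubfield :=
        Subfield.closure_le.2 (IntermediateField.subset_adjoin K _)
      rw [hT] at h3
      rw [eq_top_iff]
      intro z _
      exact h3 (show z ∈ (⊤ : Subfield E) from trivial)
    rw [h2] at h1
    exact Module.Finite.equiv (IntermediateField.topEquiv (F := K) (E := E)).toLinearEquiv
  have hsep : Algebra.IsSeparable K E := inferInstance
  obtain ⟨w, b, U, hw, hwtop, hbU⟩ := core (A := A) (K := K) (E := E)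
  refine ⟨Finset.univ.image x ∪ {w} ∪ {(aeval w (derivative (minpoly A w)))⁻¹} ∪
    T.image (fun t => (algebraMap A E (b t))⁻¹), ?_⟩
  intro p _ B hB θ
  have hxB : ∀ i, x i ∈ B := fun i => hB _ (by simp)
  have hwB : w ∈ B := hB _ (by simp)
  have hdB : (aeval w (derivative (minpoly A w)))⁻¹ ∈ B := hB _ (by simp)
  have hbB : ∀ t ∈ (T : Set E), (algebraMap A E (b t))⁻¹ ∈ B := by
    intro t ht
    apply hB
    apply Finset.mem_union_right
    exact Finset.mem_image_of_mem _ ht
  obtain ⟨x', hx', hres⟩ := ind p d (fun i => θ ⟨x i, hxB i⟩)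
  let ψ : A →+* ℤ_[p] := (MvPolynomial.aeval x').toRingHom
  have hψ : Function.Injective ψ := hx'
  let φ : A →+* B := MvPolynomial.eval₂Hom (Int.castRingHom B) (fun i => ⟨x i, hxB i⟩)
  have hφ : ∀ a, B.subtype (φ a) = algebraMap A E a := by
    intro a
    have h1 : (B.subtype).comp φ = algebraMap A E := by
      apply MvPolynomial.ringHom_ext
      · intro r
        simp
      · intro i
        simp [φ, hAE]
    exact congrArg (fun g : A →+* E => g a) h1
  have hAB : ∀ a, algebraMap A E a ∈ B := fun a => by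
    rw [← hφ a]; exact (φ a).2
  have hθ : ∀ a, θ ⟨algebraMap A E a, hAB a⟩ = PadicInt.toZMod (ψ a) := by
    intro a
    have h1 : θ.comp φ = (PadicInt.toZMod (p := p)).comp ψ := by
      apply MvPolynomial.ringHom_ext
      · intro r
        simp
      · intro i
        simp [φ, ψ, hres]
    have h2 : (⟨algebraMap A E a, hAB a⟩ : B) = φ a := Subtype.ext (hφ a).symm
    rw [h2]
    exact congrArg (fun g : A →+* ZMod p => g a) h1
  exact main (K := K) w hw hwtop b U hbU _ p ψ hψ B θ hAB hwB hdB hbB hθ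

theorem step2 (ind : Ind) (L : Type) [Field L] [CharZero L] (T : Finset L) (E : Subfield L)
    (hTE : Subfield.closure (T : Set L) = E) :
    ∃ X : Finset L, (∀ z ∈ X, z ∈ E) ∧ ∀ (p : ℕ) [Fact p.Prime] (B : Subring L),
      (∀ z ∈ X, z ∈ B) → ∀ _ : B →+* ZMod p,
        ∃ j : E →+* ℚ_[p], ∀ t ∈ T, ∀ h : t ∈ E, ‖j ⟨t, h⟩‖ ≤ 1 := by
  classical
  have hsub : ∀ t ∈ T, t ∈ E := fun t ht => hTE ▸ Subfield.subset_closure ht
  obtain ⟨T', hT'mem, hT'⟩ : ∃ T' : Finset E, (∀ t (ht : t ∈ T), (⟨t, hsub t ht⟩ : E) ∈ T') ∧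
      Subfield.closure (T' : Set E) = ⊤ := by
    have hm : ∀ t (ht : t ∈ T), (⟨t, hsub t ht⟩ : E) ∈
        T.attach.image (fun t => (⟨t.1, hsub t.1 t.2⟩ : E)) := by
      intro t ht
      rw [Finset.mem_image]
      exact ⟨⟨t, ht⟩, Finset.mem_attach _ _, rfl⟩
    refine ⟨T.attach.image (fun t => ⟨t.1, hsub t.1 t.2⟩), hm, ?_⟩
    generalize T.attach.image (fun t => (⟨t.1, hsub t.1 t.2⟩ : E)) = T' at hm ⊢
    rw [eq_top_iff]
    intro z _
    have h1 : E ≤ (Subfield.closure (T' : Set E)).map E.subtype := by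
      conv_lhs => rw [← hTE]
      rw [Subfield.closure_le]
      intro t ht
      exact ⟨⟨t, hsub t ht⟩, Subfield.subset_closure (hm t ht), rfl⟩
    obtain ⟨z', hz', hzz⟩ := h1 z.2
    have : z' = z := Subtype.ext hzz
    rw [← this]
    exact hz'
  obtain ⟨X, hX⟩ := lift_top ind E T' hT'
  refine ⟨X.image Subtype.val, ?_, ?_⟩
  · intro z hz
    rw [Finset.mem_image] at hz
    obtain ⟨z', -, rfl⟩ := hz
    exact z'.2
  intro p _ B hB θ
  have hB' : ∀ z ∈ X, z ∈ B.comap (E.subtype) :=
    fun z hz => hB _ (Finset.mem_image_of_mem _ hz)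
  let r : B.comap (E.subtype) →+* B :=
    ((E.subtype).comp (B.comap (E.subtype)).subtype).codRestrict B (fun z => z.2)
  obtain ⟨j, hj⟩ := hX p (B.comap (E.subtype)) hB' (θ.comp r)
  exact ⟨j, fun t ht h => hj _ (hT'mem t ht)⟩

theorem step3 (L : Type) [Field L] (T : Set L) (E : Subfield L) (hTE : T ⊆ E) (p : ℕ)
    [Fact p.Prime] (j : E →+* ℚ_[p]) (hj : ∀ t ∈ T, ∀ h : t ∈ E, ‖j ⟨t, h⟩‖ ≤ 1) :
    ∃ ι : Subring.closure T →+* ℤ_[p], Function.Injective ι := by
  have hE : ∀ z : L, z ∈ Subring.closure T → z ∈ E := fun z hz =>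
    (Subring.closure_le (t := E.toSubring)).2 hTE hz
  have hn : ∀ (z : L) (hz : z ∈ Subring.closure T), ‖j ⟨z, hE z hz⟩‖ ≤ 1 := by
    intro z hz
    induction hz using Subring.closure_induction with
    | mem x hx => exact hj _ hx _
    | zero =>
      have h1 : (⟨0, hE 0 (zero_mem _)⟩ : E) = 0 := rfl
      rw [h1, map_zero, norm_zero]
      exact zero_le_one
    | one =>
      have h1 : (⟨1, hE 1 (one_mem _)⟩ : E) = 1 := rfl
      rw [h1, map_one, norm_one]
    | add x y hx hy ihx ihy =>
      have h1 : (⟨x + y, hE _ (add_mem hx hy)⟩ : E) = ⟨x, hE x hx⟩ + ⟨y, hE y hy⟩ := rfl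
      rw [h1, map_add]
      exact (Padic.nonarchimedean _ _).trans (max_le ihx ihy)
    | neg x hx ihx =>
      have h1 : (⟨-x, hE _ (neg_mem hx)⟩ : E) = -⟨x, hE x hx⟩ := rfl
      rw [h1, map_neg, norm_neg]
      exact ihx
    | mul x y hx hy ihx ihy =>
      have h1 : (⟨x * y, hE _ (mul_mem hx hy)⟩ : E) = ⟨x, hE x hx⟩ * ⟨y, hE y hy⟩ := rfl
      rw [h1, map_mul, norm_mul]
      exact mul_le_one₀ ihx (norm_nonneg _) ihy
  let incl : Subring.closure T →+* E :=
    (Subring.closure T).subtype.codRestrict E (fun z => hE z z.2)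
  let f : Subring.closure T →+* ℤ_[p] :=
    { toFun := fun z => ⟨j (incl z), hn z z.2⟩
      map_one' := Subtype.ext (by
        change j (incl 1) = 1
        rw [map_one, map_one])
      map_zero' := Subtype.ext (by
        change j (incl 0) = 0
        rw [map_zero, map_zero])
      map_mul' := fun y z => Subtype.ext (by
        change j (incl (y * z)) = j (incl y) * j (incl z)
        rw [map_mul, map_mul])
      map_add' := fun y z => Subtype.ext (by
        change j (incl (y + z)) = j (incl y) + j (incl z)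
        rw [map_add, map_add]) }
  refine ⟨f, ?_⟩
  intro y z hyz
  have h1 : j (incl y) = j (incl z) := congrArg Subtype.val hyz
  have h2 := j.injective h1
  exact Subtype.ext (congrArg (fun t : E => (t : L)) h2)

end LIFTx

/-- CF-LIFT -/
theorem lift (ind : Ind) : Lift := by
  intro L _ _ T
  obtain ⟨X, hX1, hX2⟩ := LIFTx.step2 ind L T (Subfield.closure (T : Set L)) rfl
  refine ⟨X, hX1, fun p _ B hB θ => ?_⟩
  obtain ⟨j, hj⟩ := hX2 p B hB θ
  exact LIFTx.step3 L (T : Set L) (Subfield.closure (T : Set L)) Subfield.subset_closure p j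
    fun t ht h => hj t ht h

end Pool.Agent.H320.CF
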