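import Pool.Agent.H320.CF.Stm

/-!
CF-LOC: localisation of an equivariant homomorphism.
-/

set_option autoImplicit false

namespace Pool.Agent.H320.CF

namespace LOCx

variable {L k : Type} [Field L] [Field k] {B : Subring L}

theorem ne0 (φ : B →+* k) {s : B} (hs : φ s ≠ 0) : (s : L) ≠ 0 := by
  intro h
  apply hs
  have h1 : s = 0 := Subtype.ext h
  rw [h1, map_zero]

/-- the localised ring -/
def loc (φ : B →+* k) : Subring L where
  carrier := {z : L | ∃ b s : B, φ s ≠ 0 ∧ z = b / s}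
  mul_mem' := by
    rintro _ _ ⟨b, s, hs, rfl⟩ ⟨b', s', hs', rfl⟩
    refine ⟨b * b', s * s', ?_, ?_⟩
    · rw [map_mul]
      exact mul_ne_zero hs hs'
    · rw [div_mul_div_comm]
      rfl
  one_mem' := ⟨1, 1, by rw [map_one]; exact one_ne_zero, by simp⟩
  add_mem' := by
    rintro _ _ ⟨b, s, hs, rfl⟩ ⟨b', s', hs', rfl⟩
    refine ⟨b * s' + s * b', s * s', ?_, ?_⟩
    · rw [map_mul]
      exact mul_ne_zero hs hs'
    · rw [div_add_div _ _ (ne0 φ hs) (ne0 φ hs')]
      rfl
  zero_mem' := ⟨0, 1, by rw [map_one]; exact one_ne_zero, by simp⟩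
  neg_mem' := by
    rintro _ ⟨b, s, hs, rfl⟩
    refine ⟨-b, s, hs, ?_⟩
    rw [← neg_div]
    rfl

theorem wd (φ : B →+* k) {b s b' s' : B} (hs : φ s ≠ 0) (hs' : φ s' ≠ 0)
    (h : (b : L) / s = b' / s') : φ b / φ s = φ b' / φ s' := by
  rw [div_eq_div_iff (ne0 φ hs) (ne0 φ hs')] at h
  rw [div_eq_div_iff hs hs', ← map_mul, ← map_mul]
  congr 1
  exact Subtype.ext h

end LOCx

open LOCx in
/-- CF-LOC -/
theorem loc : Loc := by
  intro L k _ _ σ τ B hB φ hφ
  have hmem : ∀ z : LOCx.loc φ, ∃ b s : B, φ s ≠ 0 ∧ (z : L) = b / s := fun z => z.2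
  choose nu de hde hz using hmem
  have key : ∀ (z : LOCx.loc φ) (b s : B), φ s ≠ 0 → (z : L) = b / s →
      φ (nu z) / φ (de z) = φ b / φ s := fun z b s hs h =>
    wd φ (hde z) hs (by rw [← hz z, h])
  let φ' : LOCx.loc φ →+* k :=
    { toFun := fun z => φ (nu z) / φ (de z)
      map_one' := by
        rw [key 1 1 1 (by rw [map_one]; exact one_ne_zero) (by simp)]
        rw [map_one, div_one]
      map_mul' := by
        intro z w
        have hs : φ (de z * de w) ≠ 0 := by
          rw [map_mul]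
          exact mul_ne_zero (hde z) (hde w)
        rw [key (z * w) (nu z * nu w) (de z * de w) hs (by
          rw [Subring.coe_mul, Subring.coe_mul, Subring.coe_mul, hz z, hz w, div_mul_div_comm]),
          map_mul, map_mul, div_mul_div_comm]
      map_zero' := by
        rw [key 0 0 1 (by rw [map_one]; exact one_ne_zero) (by simp)]
        rw [map_zero, zero_div]
      map_add' := by
        intro z w
        have hs : φ (de z * de w) ≠ 0 := by
          rw [map_mul]
          exact mul_ne_zero (hde z) (hde w)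
        rw [key (z + w) (nu z * de w + de z * nu w) (de z * de w) hs (by
          rw [Subring.coe_add, Subring.coe_add, Subring.coe_mul, Subring.coe_mul, Subring.coe_mul,
            hz z, hz w, div_add_div _ _ (ne0 φ (hde z)) (ne0 φ (hde w))]),
          map_add, map_mul, map_mul, map_mul, div_add_div _ _ (hde z) (hde w)] }
  have hφ' : ∀ (z : LOCx.loc φ) (b s : B), φ s ≠ 0 → (z : L) = b / s → φ' z = φ b / φ s := key
  have hst : ∀ (z : L) (b s : B), φ s ≠ 0 → z = b / s →
      φ ⟨σ s, hB s s.2⟩ ≠ 0 ∧ σ z = ((⟨σ b, hB b b.2⟩ : B) : L) / ((⟨σ s, hB s s.2⟩ : B) : L) := by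
    intro z b s hs h
    refine ⟨?_, ?_⟩
    · rw [hφ]
      exact (map_ne_zero τ).2 hs
    · rw [h, map_div₀]
  refine ⟨LOCx.loc φ, ?_, φ', fun z hz => hz, ?_⟩
  · rintro z ⟨b, s, hs, h⟩
    obtain ⟨h1, h2⟩ := hst z b s hs h
    exact ⟨_, _, h1, h2⟩
  · intro z
    obtain ⟨h1, h2⟩ := hst z (nu z) (de z) (hde z) (hz z)
    rw [hφ' _ _ _ h1 h2, hφ' z (nu z) (de z) (hde z) (hz z), hφ, hφ, map_div₀]

end Pool.Agent.H320.CF
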