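import Pool.Agent.H320.CF.Stm
import Pool.Graph.R_seed8.W401.Cheb.Main
import Pool.Graph.R_seed8.W405.HP.Hit
import Pool.Graph.R_seed8.W583.HP.FG

/-!
helper320: the theorems of Chebotarev and Hilbert from the library.
-/

set_option autoImplicit false

namespace Pool.Agent.H320.CF

open NumberField

theorem hnr : HNR := by
  have h1 : IntermediateField.adjoin ℚ ((∅ : Finset ℚ) : Set ℚ) = ⊤ := by
    rw [eq_top_iff]
    intro x _
    exact (IntermediateField.adjoin ℚ ((∅ : Finset ℚ) : Set ℚ)).algebraMap_mem x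
  exact Pool.Agent.W405.HP.hit ℚ (Pool.Agent.W583.HP.fg ℚ ∅ h1)

theorem frobs : Frobs := by
  intro κ _ _ _ τ N
  obtain ⟨p, hp, hN⟩ := (Pool.Agent.W401.Cheb.infinite_frob κ τ).exists_gt N
  obtain ⟨hpp, hx⟩ := hp
  have : Fact p.Prime := ⟨hpp⟩
  refine ⟨p, hN, this, ?_⟩
  have h1 : Nat.card {φ : 𝓞 κ →+* AlgebraicClosure (ZMod p) //
      Pool.Agent.W401.Cheb.HasFrob p φ τ} ≠ 0 := by
    intro h
    apply hx
    unfold Pool.Agent.W401.Cheb.xp
    rw [dif_pos hpp]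
    exact h
  have h2 : Nonempty {φ : 𝓞 κ →+* AlgebraicClosure (ZMod p) //
      Pool.Agent.W401.Cheb.HasFrob p φ τ} := by
    by_contra h
    rw [not_nonempty_iff] at h
    exact h1 Nat.card_of_isEmpty
  obtain ⟨φ, hφ⟩ := h2
  exact ⟨φ, hφ⟩

end Pool.Agent.H320.CF
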