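import Pool.Agent.H320.CF.Stm

set_option autoImplicit false

namespace Pool.Agent.H320.CF

open Polynomial NumberField
open scoped Pointwise

namespace SPEC1x

attribute [local instance] Ideal.Quotient.field in
theorem core {A B G : Type} [CommRing A] [CommRing B] [Algebra A B] [Group G] [Finite G]
    [MulSemiringAction G B] [SMulCommClass G A B] [Algebra.IsInvariant A B G] (ε : A →+* ℚ)
    (hε : Function.Surjective ε) (ι : ℚ →+* A) (P : Ideal A) (hP : P = RingHom.ker ε) (Q : Ideal B)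
    [Q.IsMaximal] [hQ : Q.LiesOver P] :
    ∃ (D : Subgroup G) (κ : Type) (_ : Field κ) (_ : NumberField κ) (_ : IsGalois ℚ κ)
      (π : B →+* κ), (∀ f : A, π (algebraMap A B f) = algebraMap ℚ κ (ε f)) ∧
      (∀ τ : κ ≃ₐ[ℚ] κ, ∃ g ∈ D, ∀ b, π (g • b) = τ (π b)) ∧
      (∀ g ∈ D, ∃ τ : κ ≃ₐ[ℚ] κ, ∀ b, π (g • b) = τ (π b)) := by
  have hPm : P.IsMaximal := by
    rw [hP]; exact RingHom.ker_isMaximal_of_surjective ε hε
  have hPp : P.IsPrime := hPm.isPrime
  have hQp : Q.IsPrime := ‹Q.IsMaximal›.isPrime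
  have hε0 : ∀ x ∈ P, ε x = 0 := by
    intro x hx; rw [hP] at hx; exact hx
  let algAQ : Algebra (A ⧸ P) ℚ := (Ideal.Quotient.lift P ε hε0).toAlgebra
  have hlift : ∀ f : A, algebraMap (A ⧸ P) ℚ (Ideal.Quotient.mk P f) = ε f := fun f => by
    exact Ideal.Quotient.lift_mk P ε hε0
  have hinj : Function.Injective (algebraMap (A ⧸ P) ℚ) := by
    rw [injective_iff_map_eq_zero]
    intro x
    obtain ⟨x, rfl⟩ := Ideal.Quotient.mk_surjective x
    intro hx
    rw [hlift] at hx
    rw [Ideal.Quotient.eq_zero_iff_mem, hP]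
    exact hx
  have hsurj : Function.Surjective (algebraMap (A ⧸ P) ℚ) := by
    intro x
    obtain ⟨f, rfl⟩ := hε x
    exact ⟨Ideal.Quotient.mk P f, hlift f⟩
  have : FaithfulSMul (A ⧸ P) ℚ := (faithfulSMul_iff_algebraMap_injective _ _).mpr hinj
  have hfr : IsFractionRing (A ⧸ P) ℚ := by
    apply IsFractionRing.of_field
    intro z
    obtain ⟨x, rfl⟩ := hsurj z
    exact ⟨x, 1, by simp⟩
  let κ : Type := B ⧸ Q
  let ρ : ℚ →+* κ := (Ideal.Quotient.mk Q).comp ((algebraMap A B).comp ι)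
  have : CharZero κ := charZero_of_injective_ringHom ρ.injective
  have hf : ∀ f : A, Ideal.Quotient.mk Q (algebraMap A B f) = algebraMap ℚ κ (ε f) := by
    intro f
    have h1 : f - ι (ε f) ∈ P := by
      rw [hP, RingHom.mem_ker, map_sub]
      have : (ε.comp ι) (ε f) = (RingHom.id ℚ) (ε f) := by
        congr 1
        exact RingHom.ext_rat _ _
      simp only [RingHom.comp_apply, RingHom.id_apply] at this
      rw [this, sub_self]
    have h2 : algebraMap A B (f - ι (ε f)) ∈ Q := by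
      have : f - ι (ε f) ∈ Q.under A := by rw [← Ideal.over_def Q P]; exact h1
      exact this
    rw [← Ideal.Quotient.eq_zero_iff_mem, map_sub, map_sub, sub_eq_zero] at h2
    rw [h2]
    have : ρ = algebraMap ℚ κ := RingHom.ext_rat _ _
    rw [← this]; rfl
  have htow : IsScalarTower (A ⧸ P) ℚ κ := by
    apply IsScalarTower.of_algebraMap_eq
    intro x
    obtain ⟨x, rfl⟩ := Ideal.Quotient.mk_surjective x
    rw [hlift, ← hf]
    rfl
  have htow2 : IsScalarTower (A ⧸ P) (B ⧸ Q) κ := by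
    apply IsScalarTower.of_algebraMap_eq
    intro x
    rfl
  have hfr2 : IsFractionRing (B ⧸ Q) κ := inferInstance
  have hnorm : Normal ℚ κ := Ideal.IsFractionRing.normal G P Q ℚ κ
  have hfin : Module.Finite ℚ κ := Ideal.IsFractionRing.finite_of_isInvariant G P Q ℚ κ
  have hnf : NumberField κ := { to_charZero := inferInstance, to_finiteDimensional := hfin }
  have hgal : IsGalois ℚ κ := { }
  refine ⟨MulAction.stabilizer G Q, κ, inferInstance, hnf, hgal, Ideal.Quotient.mk Q, hf, ?_, ?_⟩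
  · intro τ
    obtain ⟨g, hg⟩ := IsFractionRing.stabilizerHom_surjective G P Q ℚ κ τ
    refine ⟨g.1, g.2, fun b => ?_⟩
    have := IsFractionRing.stabilizerHom_apply_apply_mk G P Q ℚ κ g b
    rw [hg] at this
    exact this.symm
  · intro g hg
    refine ⟨IsFractionRing.stabilizerHom G P Q ℚ κ ⟨g, hg⟩, fun b => ?_⟩
    have := IsFractionRing.stabilizerHom_apply_apply_mk G P Q ℚ κ ⟨g, hg⟩ b
    exact this.symm

theorem equi_mono {L k : Type} [Field L] [Field k] {σ : L ≃+* L} {τ : k →+* k} {X Y : Set L}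
    (h : Equi σ τ Y) (hXY : X ⊆ Y) : Equi σ τ X := by
  obtain ⟨B, hB, φ, h1, h2⟩ := h
  exact ⟨B, hB, φ, fun z hz => h1 z (hXY hz), h2⟩

end SPEC1x

open SPEC1x in
/-- CF-SPEC1 -/
theorem spec1 (loc : Loc) : Spec1 := by
  intro d L _ _ _ _ a h hh hyp σ
  let algAL : Algebra (PR d) L := (str d L).toAlgebra
  have htow : IsScalarTower (PR d) (RF d) L := IsScalarTower.of_algebraMap_eq fun _ => rfl
  have hint : IsIntegrallyClosed (PR d) := inferInstance
  let B := integralClosure (PR d) L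
  have hfrB : IsFractionRing B L :=
    integralClosure.isFractionRing_of_finite_extension (RF d) L
  let act : MulSemiringAction (L ≃ₐ[RF d] L) B :=
    IsIntegralClosure.MulSemiringAction (PR d) (RF d) L B
  have hinv : Algebra.IsInvariant (PR d) B (L ≃ₐ[RF d] L) :=
    Algebra.isInvariant_of_isGalois (PR d) (RF d) L B
  have hact : ∀ (g : L ≃ₐ[RF d] L) (b : B), ((g • b : B) : L) = g (b : L) := by
    intro g b
    exact algebraMap_galRestrict_apply (PR d) g b
  have hcomm : SMulCommClass (L ≃ₐ[RF d] L) (PR d) B := by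
    constructor
    intro g f b
    apply Subtype.ext
    rw [hact]
    have e1 : ((f • b : B) : L) = algebraMap (PR d) L f * (b : L) := Algebra.smul_def f (b : L)
    have e2 : ((f • (g • b) : B) : L) = algebraMap (PR d) L f * ((g • b : B) : L) :=
      Algebra.smul_def f ((g • b : B) : L)
    rw [e1, e2, hact, map_mul, IsScalarTower.algebraMap_apply (PR d) (RF d) L, g.commutes]
  have hfin : Finite (L ≃ₐ[RF d] L) := inferInstance
  let ε : PR d →+* ℚ := MvPolynomial.eval a
  have hε : Function.Surjective ε := fun x => ⟨MvPolynomial.C x, MvPolynomial.eval_C _⟩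
  have hPm : (RingHom.ker ε).IsMaximal := RingHom.ker_isMaximal_of_surjective ε hε
  have hinj : Function.Injective (algebraMap (PR d) L) := by
    rw [IsScalarTower.algebraMap_eq (PR d) (RF d) L, RingHom.coe_comp]
    exact (algebraMap (RF d) L).injective.comp (IsFractionRing.injective (PR d) (RF d))
  have hinjB : Function.Injective (algebraMap (PR d) B) := by
    intro x y hxy
    apply hinj
    have := congrArg (fun b : B => (b : L)) hxy
    exact this
  have hfs : FaithfulSMul (PR d) B := (faithfulSMul_iff_algebraMap_injective _ _).mpr hinjB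
  obtain ⟨Q, hQm, hQl⟩ : ∃ Q : Ideal B, Q.IsMaximal ∧ Q.LiesOver (RingHom.ker ε) :=
    Ideal.exists_maximal_ideal_liesOver_of_isIntegral _
  obtain ⟨D, κ, i1, i2, i3, π, hπ1, hπ2, hπ3⟩ := core (G := L ≃ₐ[RF d] L) ε hε MvPolynomial.C
    (RingHom.ker ε) rfl Q
  have htop : D = ⊤ := by
    by_contra hne
    obtain ⟨y, R, hy, hR, hRy, hno⟩ := hyp _ hne
    have hyB : y ∈ B := ⟨R, hR, hRy⟩
    have hfix : ∀ τ : κ ≃ₐ[ℚ] κ, τ (π ⟨y, hyB⟩) = π ⟨y, hyB⟩ := by
      intro τ
      obtain ⟨g, hg, hgτ⟩ := hπ2 τ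
      rw [← hgτ]
      congr 1
      apply Subtype.ext
      rw [hact]
      exact hy g hg
    obtain ⟨x, hx⟩ := (IsGalois.mem_range_algebraMap_iff_fixed (π ⟨y, hyB⟩)).mpr hfix
    apply hno x
    apply (algebraMap ℚ κ).injective
    have hcomp : (algebraMap ℚ κ).comp ε = π.comp (algebraMap (PR d) B) := by
      ext f
      · simp
      · rw [RingHom.comp_apply, RingHom.comp_apply, hπ1]
    have hB0 : eval₂ (algebraMap (PR d) B) ⟨y, hyB⟩ R = 0 := by
      apply Subtype.ext
      have := Polynomial.hom_eval₂ R (algebraMap (PR d) B) (B.val : B →+* L) ⟨y, hyB⟩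
      exact this.trans hRy
    have e1 : algebraMap ℚ κ (eval x (R.map (MvPolynomial.eval a))) =
        eval₂ ((algebraMap ℚ κ).comp ε) (π ⟨y, hyB⟩) R := by
      rw [eval_map, hom_eval₂, hx]
    rw [e1, hcomp, ← hom_eval₂, hB0, map_zero, map_zero]
  obtain ⟨τ, hτ⟩ := hπ3 σ (by rw [htop]; trivial)
  refine ⟨κ, i1, i2, i3, τ, ?_⟩
  have hB : ∀ b ∈ B.toSubring, (σ : L ≃+* L) b ∈ B.toSubring := by
    intro b hb
    have := (σ • (⟨b, hb⟩ : B)).2
    rw [hact] at this
    exact this
  let φ : B.toSubring →+* κ := π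
  have hφ : ∀ b : B.toSubring, φ ⟨(σ : L ≃+* L) b, hB b b.2⟩ = (τ : κ →+* κ) (φ b) := by
    intro b
    have h1 := hτ b
    refine Eq.trans ?_ h1
    change π _ = π _
    congr 1
    apply Subtype.ext
    rw [hact]
    rfl
  refine equi_mono (loc L κ (σ : L ≃+* L) (τ : κ →+* κ) B.toSubring hB φ hφ) ?_
  intro z hz
  have hz' : str d L h * z ∈ B := hz
  have hh' : str d L h ∈ B := (algebraMap (PR d) B h).2
  refine ⟨⟨str d L h * z, hz'⟩, ⟨str d L h, hh'⟩, ?_, ?_⟩
  · have : φ ⟨str d L h, hh'⟩ = algebraMap ℚ κ (ε h) := hπ1 h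
    rw [this]
    intro h0
    apply hh
    exact (algebraMap ℚ κ).injective (h0.trans (map_zero _).symm)
  · have h0 : str d L h ≠ 0 := by
      intro h0
      apply hh
      have : h = 0 := hinj (h0.trans (map_zero _).symm)
      rw [this, map_zero]
    change z = str d L h * z / str d L h
    field_simp

end Pool.Agent.H320.CF
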