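import Pool.Agent.H320.CF.Stm

/-! CF-SPEC2: specialisation at a Hilbert point. -/

set_option autoImplicit false

namespace Pool.Agent.H320.CF

open Polynomial NumberField

namespace SPEC2x

variable {d : ℕ} {L : Type} [Field L] [Algebra (RF d) L] [FiniteDimensional (RF d) L]
  [IsGalois (RF d) L]

omit [IsGalois (RF d) L] in
/-- common denominators -/
theorem exists_den (X : Finset L) : ∃ h : PR d, h ≠ 0 ∧
    ∀ z ∈ X, (str d L).IsIntegralElem (str d L h * z) := by
  let _ : Algebra (PR d) L := (str d L).toAlgebra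
  have : IsScalarTower (PR d) (RF d) L := IsScalarTower.of_algebraMap_eq fun _ => rfl
  obtain ⟨y, hy, h⟩ := exists_integral_multiples (PR d) (RF d) X
  refine ⟨y, hy, fun z hz => ?_⟩
  have h1 := h z hz
  rw [Algebra.smul_def] at h1
  exact h1

/-- a proper subgroup has an integral invariant outside of the base field -/
theorem exists_poly (H : Subgroup (L ≃ₐ[RF d] L)) (hH : H ≠ ⊤) :
    ∃ (y : L) (P : (PR d)[X]), (∀ g ∈ H, g y = y) ∧ P.Monic ∧ P.eval₂ (str d L) y = 0 ∧
      ∀ θ : RF d, (P.map (algebraMap (PR d) (RF d))).eval θ ≠ 0 := by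
  have h1 : ∃ y0 : L, y0 ∈ IntermediateField.fixedField H ∧ y0 ∉ (algebraMap (RF d) L).range := by
    by_contra hcon
    push Not at hcon
    apply hH
    have h2 : IntermediateField.fixedField H = ⊥ := by
      rw [eq_bot_iff]
      intro x hx
      obtain ⟨c, hc⟩ := hcon x hx
      rw [← hc]
      exact IntermediateField.algebraMap_mem _ c
    rw [← IntermediateField.fixingSubgroup_fixedField H, h2, IntermediateField.fixingSubgroup_bot]
  obtain ⟨y0, hy0, hy0'⟩ := h1
  let _ : Algebra (PR d) L := (str d L).toAlgebra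
  have : IsScalarTower (PR d) (RF d) L := IsScalarTower.of_algebraMap_eq fun _ => rfl
  obtain ⟨a, ha, hint⟩ := exists_integral_multiples (PR d) (RF d) ({y0} : Finset L)
  have hy : IsIntegral (PR d) (a • y0) := hint y0 (Finset.mem_singleton_self y0)
  have e1 : a • y0 = algebraMap (RF d) L (algebraMap (PR d) (RF d) a) * y0 := Algebra.smul_def a y0
  have ha' : algebraMap (PR d) (RF d) a ≠ 0 := by
    rw [Ne, IsFractionRing.to_map_eq_zero_iff]
    exact ha
  refine ⟨a • y0, minpoly (PR d) (a • y0), ?_, minpoly.monic hy, minpoly.aeval (PR d) (a • y0), ?_⟩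
  · intro g hg
    rw [e1, map_mul, AlgEquiv.commutes]
    have h3 : g y0 = y0 := hy0 ⟨g, hg⟩
    rw [h3]
  · intro θ hθ
    rw [← minpoly.isIntegrallyClosed_eq_field_fractions' (RF d) hy] at hθ
    have hF : IsIntegral (RF d) (a • y0) := Algebra.IsIntegral.isIntegral _
    have h4 := Polynomial.degree_eq_one_of_irreducible_of_root (minpoly.irreducible hF) hθ
    obtain ⟨c, hc⟩ := minpoly.mem_range_of_degree_eq_one (RF d) (a • y0) h4
    apply hy0'
    refine ⟨c / algebraMap (PR d) (RF d) a, ?_⟩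
    rw [map_div₀, hc, e1, mul_div_cancel_left₀]
    rw [Ne, map_eq_zero]
    exact ha'

end SPEC2x

open SPEC2x in
theorem spec2 (hnr : HNR) (spec1 : Spec1) : Spec := by
  classical
  intro d L _ _ _ _ σ X
  obtain ⟨h, hh, hX⟩ := exists_den (d := d) X
  choose y P hy hP hPy hroot using fun H : {H : Subgroup (L ≃ₐ[RF d] L) // H ≠ ⊤} =>
    exists_poly H.1 H.2
  let en := Finite.equivFin {H : Subgroup (L ≃ₐ[RF d] L) // H ≠ ⊤}
  obtain ⟨a, ha, hax⟩ := hnr (Fin d) _ (fun j => P (en.symm j)) h hh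
    (fun j θ => hroot (en.symm j) θ)
  obtain ⟨κ, i1, i2, i3, τ, B, hB, φ, hXB, hφ⟩ := spec1 d L a h ha (fun H hH => ⟨y ⟨H, hH⟩,
    P ⟨H, hH⟩, hy ⟨H, hH⟩, hP ⟨H, hH⟩, hPy ⟨H, hH⟩, fun x => by
      have := hax (en ⟨H, hH⟩) x
      rwa [Equiv.symm_apply_apply] at this⟩) σ
  exact ⟨κ, i1, i2, i3, τ, B, hB, φ, fun z hz => hXB z (hX z hz), hφ⟩

end Pool.Agent.H320.CF
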