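import Pool.Agent.H320.CF.Stm2

/-!
Wreath products in the general linear group.
-/

set_option autoImplicit false

namespace Pool.Agent.H320.CF

namespace WRx

/-- permutation action on functions -/
def act (n : ℕ) {C : Type} [Group C] : Equiv.Perm (Fin n) →* MulAut (Fin n → C) where
  toFun σ :=
    { toFun := fun c i => c (σ⁻¹ i)
      invFun := fun c i => c (σ i)
      left_inv := by intro c; funext i; simp
      right_inv := by intro c; funext i; simp
      map_mul' := by intro c d; rfl }
  map_one' := by ext c i; simp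
  map_mul' σ τ := by ext c i; simp

theorem card_wr (n : ℕ) (C : Type) [Group C] :
    Nat.card (SemidirectProduct (Fin n → C) (Equiv.Perm (Fin n)) (act n)) =
      Nat.card C ^ n * n.factorial := by
  rw [Nat.card_congr SemidirectProduct.equivProd, Nat.card_prod, Nat.card_pi, Nat.card_perm]
  simp

section

variable {R : Type} [CommRing R] (A : Subgroup (Matrix (Fin 2) (Fin 2) R)ˣ) (k e : ℕ)

/-- the entries of the block monomial matrices -/
def mf (x : SemidirectProduct (Fin k → A) (Equiv.Perm (Fin k)) (act k)) :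
    Matrix (Fin k × Fin 2) (Fin k × Fin 2) R :=
  fun p q => if x.right⁻¹ p.1 = q.1 then
    (((x.left p.1 : A) : (Matrix (Fin 2) (Fin 2) R)ˣ) : Matrix (Fin 2) (Fin 2) R) p.2 q.2 else 0

/-- the block monomial matrices -/
def mon : SemidirectProduct (Fin k → A) (Equiv.Perm (Fin k)) (act k) →*
    Matrix (Fin k × Fin 2) (Fin k × Fin 2) R where
  toFun x := mf A k x
  map_one' := by
    ext p q
    obtain ⟨i, a⟩ := p
    obtain ⟨j, b⟩ := q
    show (if (1 : Equiv.Perm (Fin k))⁻¹ i = j then
      (1 : Matrix (Fin 2) (Fin 2) R) a b else 0) = _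
    rw [inv_one, Equiv.Perm.one_apply, Matrix.one_apply, Matrix.one_apply]
    by_cases h : i = j
    · subst h
      by_cases h' : a = b
      · subst h'
        simp
      · rw [if_pos rfl, if_neg h', if_neg]
        intro h2
        exact h' (Prod.mk.inj h2).2
    · rw [if_neg h, if_neg]
      intro h2
      exact h (Prod.mk.inj h2).1
  map_mul' x y := by
    ext p q
    obtain ⟨i, a⟩ := p
    obtain ⟨j, b⟩ := q
    rw [Matrix.mul_apply, Fintype.sum_prod_type, Finset.sum_eq_single (x.right⁻¹ i)]
    · have h1 : (x * y).right⁻¹ i = y.right⁻¹ (x.right⁻¹ i) := by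
        rw [SemidirectProduct.mul_right, mul_inv_rev]
        rfl
      have h2 : (x * y).left i = x.left i * y.left (x.right⁻¹ i) := by
        rw [SemidirectProduct.mul_left]
        rfl
      have h3 : ∀ c, mf A k x (i, a) (x.right⁻¹ i, c) =
          (((x.left i : A) : (Matrix (Fin 2) (Fin 2) R)ˣ) : Matrix (Fin 2) (Fin 2) R) a c :=
        fun c => if_pos rfl
      have h4 : ∀ c, mf A k y (x.right⁻¹ i, c) (j, b) = if y.right⁻¹ (x.right⁻¹ i) = j then
          (((y.left (x.right⁻¹ i) : A) : (Matrix (Fin 2) (Fin 2) R)ˣ) :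
            Matrix (Fin 2) (Fin 2) R) c b else 0 := fun c => rfl
      simp only [h3, h4]
      show (if (x * y).right⁻¹ i = j then (((((x * y).left i : A) :
        (Matrix (Fin 2) (Fin 2) R)ˣ) : Matrix (Fin 2) (Fin 2) R)) a b else 0) = _
      rw [h1, h2]
      by_cases h : y.right⁻¹ (x.right⁻¹ i) = j
      · simp only [if_pos h]
        rw [Subgroup.coe_mul, Units.val_mul, Matrix.mul_apply]
      · simp only [if_neg h, mul_zero, Finset.sum_const_zero]
    · intro l _ hl
      refine Finset.sum_eq_zero fun c _ => ?_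
      have h3 : mf A k x (i, a) (l, c) = 0 := if_neg (Ne.symm hl)
      rw [h3, zero_mul]
    · intro h
      exact absurd (Finset.mem_univ _) h

theorem mon_inj [Nontrivial R] : Function.Injective (mon A k) := by
  rw [injective_iff_map_eq_one]
  intro x hx
  have h1 : ∀ i, x.right⁻¹ i = i := by
    intro i
    by_contra h
    have h2 := congrFun (congrFun hx (i, 0)) (i, 0)
    rw [Matrix.one_apply_eq] at h2
    have h3 : mon A k x (i, 0) (i, 0) = 0 := if_neg h
    rw [h3] at h2
    exact zero_ne_one h2
  have h2 : x.right = 1 := by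
    rw [← inv_eq_one]
    exact Equiv.ext fun i => h1 i
  have h3 : x.left = 1 := by
    funext i
    apply Subtype.ext
    apply Units.ext
    ext a b
    have h4 := congrFun (congrFun hx (i, a)) (i, b)
    have h5 : mon A k x (i, a) (i, b) = (((x.left i : A) : (Matrix (Fin 2) (Fin 2) R)ˣ) :
        Matrix (Fin 2) (Fin 2) R) a b := if_pos (h1 i)
    rw [h5] at h4
    rw [h4, Matrix.one_apply]
    show _ = (1 : Matrix (Fin 2) (Fin 2) R) a b
    rw [Matrix.one_apply]
    by_cases h : a = b
    · subst h
      simp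
    · rw [if_neg h, if_neg]
      intro h'
      exact h (Prod.mk.inj h').2
  exact SemidirectProduct.ext h3 h2

/-- the diagonal matrices of signs -/
def dg : (Fin e → ℤˣ) →* Matrix (Fin e) (Fin e) R where
  toFun s := Matrix.diagonal fun i => (((s i : ℤˣ) : ℤ) : R)
  map_one' := by
    simp
  map_mul' s t := by
    rw [Matrix.diagonal_mul_diagonal]
    simp

theorem dg_inj [CharZero R] : Function.Injective (dg (R := R) e) := by
  intro s t h
  have h1 := Matrix.diagonal_injective h
  funext i
  have h2 := congrFun h1 i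
  apply Units.ext
  exact_mod_cast h2

/-- both -/
def both : (SemidirectProduct (Fin k → A) (Equiv.Perm (Fin k)) (act k)) × (Fin e → ℤˣ) →*
    Matrix ((Fin k × Fin 2) ⊕ Fin e) ((Fin k × Fin 2) ⊕ Fin e) R where
  toFun x := Matrix.fromBlocks (mon A k x.1) 0 0 (dg e x.2)
  map_one' := by
    rw [Prod.fst_one, Prod.snd_one, map_one, map_one, Matrix.fromBlocks_one]
  map_mul' x y := by
    rw [Matrix.fromBlocks_multiply, Prod.fst_mul, Prod.snd_mul, map_mul, map_mul]
    simp

theorem both_inj [CharZero R] [Nontrivial R] : Function.Injective (both A k e) := by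
  intro x y h
  have h1 : Matrix.fromBlocks (mon A k x.1) 0 0 (dg e x.2) =
    Matrix.fromBlocks (mon A k y.1) 0 0 (dg (R := R) e y.2) := h
  rw [Matrix.fromBlocks_inj] at h1
  exact Prod.ext (mon_inj A k h1.1) (dg_inj e h1.2.2.2)

end

end WRx

open WRx in
theorem wr : Wr := by
  intro R _ _ _ A hA n
  set k := n / 2 with hk
  set e := n % 2 with he
  have hcard : Fintype.card ((Fin k × Fin 2) ⊕ Fin e) = n := by
    rw [Fintype.card_sum, Fintype.card_prod, Fintype.card_fin, Fintype.card_fin, Fintype.card_fin]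
    omega
  let ε : ((Fin k × Fin 2) ⊕ Fin e) ≃ Fin n := Fintype.equivFinOfCardEq hcard
  let W := (SemidirectProduct (Fin k → A) (Equiv.Perm (Fin k)) (act k)) × (Fin e → ℤˣ)
  let ρ : Matrix ((Fin k × Fin 2) ⊕ Fin e) ((Fin k × Fin 2) ⊕ Fin e) R →*
      Matrix (Fin n) (Fin n) R := (Matrix.reindexAlgEquiv R R ε : _ →* _)
  let F : W →* (Matrix (Fin n) (Fin n) R)ˣ := (ρ.comp (both A k e)).toHomUnits
  have hF : Function.Injective F := by
    intro x y hxy
    apply both_inj A k e
    have h1 : ρ (both A k e x) = ρ (both A k e y) := congrArg Units.val hxy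
    exact (Matrix.reindexAlgEquiv R R ε).injective h1
  have hfin1 : Finite (SemidirectProduct (Fin k → A) (Equiv.Perm (Fin k)) (act k)) :=
    Finite.of_equiv _ (SemidirectProduct.equivProd).symm
  have hfin : Finite W := inferInstanceAs (Finite (_ × _))
  refine ⟨F.range, Finite.of_surjective F.rangeRestrict F.rangeRestrict_surjective, ?_⟩
  rw [← Nat.card_congr (Equiv.ofBijective F.rangeRestrict
    ⟨F.rangeRestrict_injective_iff.2 hF, F.rangeRestrict_surjective⟩)]
  show Nat.card ((SemidirectProduct (Fin k → A) (Equiv.Perm (Fin k)) (act k)) × (Fin e → ℤˣ)) = _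
  rw [Nat.card_prod, card_wr, Nat.card_pi]
  have h2 : Nat.card ℤˣ = 2 := by
    rw [Nat.card_eq_fintype_card]
    rfl
  rw [h2]
  simp

end Pool.Agent.H320.CF
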