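import Pool.Agent.H320.CF.Top
import Pool.Agent.H320.CF.Lib
import Pool.Agent.H320.CF.FG
import Pool.Agent.H320.CF.LOC
import Pool.Agent.H320.CF.SPEC1
import Pool.Agent.H320.CF.SPEC2
import Pool.Agent.H320.CF.CHEB
import Pool.Agent.H320.CF.FROB
import Pool.Agent.H320.CF.IND
import Pool.Agent.H320.CF.LIFT
import Pool.Agent.H320.CF.CYCA
import Pool.Agent.H320.CF.CYCB
import Pool.Agent.H320.CF.CNT
import Pool.Agent.H320.CF.FIN
import Pool.Agent.H320.CF.WR
import Pool.Agent.H320.CF.FINA
import Pool.Agent.H320.CF.CNTB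
import Pool.Agent.H320.CF.CYCCD
import Pool.Agent.H320.CF.GAB

/-!
helper320: assembly.
-/

set_option autoImplicit false

namespace Pool.Agent.H320.CF

open Pool.Agent.H371.SA Pool.Agent.H371.SB Pool.Agent.H371.SC
open Pool.Agent.H320.PG Pool.Agent.W656.VA

theorem mono : Mono := fun R _ _ q hq ξ hξ n => exists_monomial R q hq ξ hξ n

/-- embeddings of finitely generated rings in the `p`-adic integers with given Frobenius data -/
theorem existG : ExistG := exg (frob (frobGal (spec2 hnr (spec1 loc)) (cheb loc frobs))) (lift ind)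

/-- the existence of the primes -/
theorem exist (K : Type) [Field K] [CharZero K] (T : Finset K) (l E N : ℕ) (hl : l.Prime) :
    ∃ p, N < p ∧ PK K T l E p :=
  existAll existG (cycB cycA) (cycC gA) (cycD gB) K T l E N hl

/-- the class from local embeddings -/
theorem of_loc {K : Type} [Field K] [CharZero K] {adic : Bool} {n d : ℕ}
    (hd0 : 0 < d) (hd : FinDvd K n d) {G : Type} [Group G]
    (hG : ∀ H : Subgroup G, H.FG → ∃ (R : Type) (_ : Ring R), AugK K adic R ∧
      ∃ f : H →* (Matrix (Fin n) (Fin n) R)ˣ, Function.Injective f) :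
    UK K adic G (fc K adic n * d) :=
  UK.of_loc (fin mono) cnt cntB finA wr hd0 hd hG

theorem UK.int {K : Type} [Field K] [CharZero K] {adic : Bool} {G : Type} [Group G] {d : ℕ}
    (hG : UK K adic G d) (v : ℝ) (hv : Val (⊤ : Subring ℂ) G v) : ∃ z : ℤ, (d : ℝ) * v = z :=
  UK.main (exist K) hG v hv

end Pool.Agent.H320.CF
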