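import Pool.Agent.H320.CF.Uni
import Pool.Agent.H320.GS.Loc

/-!
helper320: the base case over a field `K` of characteristic zero.
-/

set_option autoImplicit false

namespace Pool.Agent.H320.CF

open Pool.Agent.H371.SA Pool.Agent.H371.SB Pool.Agent.H371.SC
open Pool.Agent.H371.SB.S0x
open Pool.Agent.H320.PG

/-- the orders of the finite subgroups of `GL_n` over the algebraic integers of `K` divide `d` -/
def FinDvd (K : Type) [Field K] (n d : ℕ) : Prop :=
  ∀ H : Subgroup (Matrix (Fin n) (Fin n) (integralClosure ℤ K))ˣ, Finite H → Nat.card H ∣ d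

theorem dvd_of_deg {K : Type} [Field K] [CharZero K] (fin : FinG) {n d l : ℕ} (hl : l.Prime)
    (hd0 : 0 < d) (hd : FinDvd K n d) {E p s b : ℕ} (hE : d.factorization l < E)
    (hdeg : Deg K l E p) (hs : 0 < s) (hb : l ^ b ∣ p ^ s - 1) (h0 : b ≤ E ∨ 0 < n / s) :
    l ^ (b * (n / s)) * (n / s).factorial ∣ d := by
  by_cases h : b ≤ E
  · obtain ⟨H, hH, hc⟩ := fin K l b s n hl hs (fun ζ hζ => hdeg b h s hs hb ζ hζ)
    have h1 := hd H hH
    rw [hc, ← pow_mul] at h1
    exact h1
  · exfalso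
    have h2 : 0 < n / s := h0.resolve_left h
    have hb' : l ^ E ∣ p ^ s - 1 := (pow_dvd_pow l (not_le.1 h).le).trans hb
    obtain ⟨H, hH, hc⟩ := fin K l E s n hl hs (fun ζ hζ => hdeg E le_rfl s hs hb' ζ hζ)
    have h1 := hd H hH
    rw [hc, ← pow_mul] at h1
    have h3 : l ^ E ∣ d := by
      refine (Dvd.dvd.mul_right (pow_dvd_pow l ?_) _).trans h1
      exact Nat.le_mul_of_pos_right E h2
    have h4 := (hl.pow_dvd_iff_le_factorization hd0.ne').1 h3
    omega

/-- the groups of dihedral type -/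
theorem dvd_of_dih {K : Type} [Field K] [CharZero K] (finA : FinA) (wr : Wr) {n d : ℕ}
    (hd : FinDvd K n d) (hi : ¬ HasI K) {b c : ℕ} (hb : 2 ≤ b)
    (h : ∀ ζ : AlgebraicClosure K, IsPrimitiveRoot ζ (2 ^ b) →
      ∀ ξ : AlgebraicClosure K, Polynomial.aeval ξ (minpoly K ζ) = 0 → ξ = ζ ∨ ξ = ζ ^ c) :
    2 ^ ((b + 1) * (n / 2)) * (n / 2).factorial * 2 ^ (n % 2) ∣ d := by
  obtain ⟨A, hA, hc⟩ := finA K b c hb hi h
  obtain ⟨H, hH, hc'⟩ := wr (integralClosure ℤ K) A hA n
  have h1 := hd H hH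
  rwa [hc', hc, ← pow_mul] at h1

/-- the extra factor at the prime two -/
noncomputable def fc (K : Type) [Field K] (adic : Bool) (n : ℕ) : ℕ :=
  open Classical in if adic = true ∨ NonReal K then 1 else 2 ^ (n / 2)

theorem fc_pos (K : Type) [Field K] (adic : Bool) (n : ℕ) : 0 < fc K adic n := by
  unfold fc
  split_ifs
  · exact one_pos
  · positivity

theorem dih_aux {K : Type} [Field K] [CharZero K] (finA : FinA) (wr : Wr) {n d : ℕ}
    (hd0 : 0 < d) (hd : FinDvd K n d) (hi : ¬ HasI K) {E b : ℕ} (hb : 2 ≤ b) (hE2 : 2 ≤ E)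
    (hE : d.factorization 2 < E) (c : ℕ → ℕ)
    (h : ∀ e ≤ E, e ≤ b → ∀ ζ : AlgebraicClosure K, IsPrimitiveRoot ζ (2 ^ e) →
      ∀ ξ : AlgebraicClosure K, Polynomial.aeval ξ (minpoly K ζ) = 0 → ξ = ζ ∨ ξ = ζ ^ (c e)) :
    2 ^ ((b + 1) * (n / 2)) * (n / 2).factorial * 2 ^ (n % 2) ∣ d := by
  by_cases hbE : b ≤ E
  · exact dvd_of_dih finA wr hd hi hb (h b hbE le_rfl)
  · have h1 := dvd_of_dih finA wr hd hi hE2 (h E le_rfl (not_le.1 hbE).le)
    rcases Nat.eq_zero_or_pos (n / 2) with h0 | h0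
    · rw [h0, mul_zero] at h1 ⊢
      exact h1
    · exfalso
      have h3 : 2 ^ E ∣ d := by
        refine Dvd.dvd.trans ?_ h1
        rw [mul_assoc]
        refine Dvd.dvd.mul_right (pow_dvd_pow 2 ?_) _
        calc E ≤ (E + 1) * 1 := by omega
          _ ≤ (E + 1) * (n / 2) := Nat.mul_le_mul_left _ h0
      have h4 := (Nat.prime_two.pow_dvd_iff_le_factorization hd0.ne').1 h3
      omega

theorem cntd {K : Type} [Field K] [CharZero K] (fin : FinG) (cnt : Cnt) (cntB : CntB)
    (finA : FinA) (wr : Wr) {n d l : ℕ}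
    (hl : l.Prime) (hd0 : 0 < d) (hd : FinDvd K n d) {E p : ℕ} (hE : d.factorization l < E)
    (hE2 : 2 ≤ E) (hp : p.Prime) (hlp : l ≠ p) (hcd : Cd K l E p) :
    ∃ r : ℕ, ¬ l ∣ r ∧
      Nat.card (Matrix.GeneralLinearGroup (Fin n) (ZMod p)) ∣ r * (fc K false n * d) := by
  by_cases hn : n = 0
  · subst hn
    refine ⟨1, fun h => hl.one_lt.ne' (Nat.dvd_one.1 h), ?_⟩
    have : Nat.card (Matrix.GeneralLinearGroup (Fin 0) (ZMod p)) = 1 := by
      have h1 : Subsingleton (Matrix.GeneralLinearGroup (Fin 0) (ZMod p)) := by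
        refine ⟨fun a b => Units.ext ?_⟩
        ext i
        exact i.elim0
      exact Nat.card_unique
    rw [this]
    exact one_dvd _
  by_cases hl2 : l = 2
  · -- the prime two
    subst hl2
    by_cases hi : HasI K
    · obtain ⟨hdeg, h4⟩ := (hcd.2 rfl).1 hi
      have hp1 : p - 1 ≠ 0 := by have := hp.two_le; omega
      set b := (p - 1).factorization 2 with hb
      have hb2 : 2 ≤ b := (Nat.Prime.pow_dvd_iff_le_factorization hl hp1).1 (by simpa using h4)
      have hdv : 2 ^ b ∣ p - 1 := Nat.ordProj_dvd _ _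
      have hnd : ¬ 2 ^ (b + 1) ∣ p - 1 := Nat.pow_succ_factorization_not_dvd hp1 hl
      obtain ⟨r, hr, h⟩ := Pool.Agent.H320.NT.a1 2 p b n hl hp (by omega) (fun _ => hb2) hdv hnd
      refine ⟨r, hr, h.trans (mul_dvd_mul_left _ (Dvd.dvd.mul_left ?_ _))⟩
      have h5 := dvd_of_deg fin hl hd0 hd hE hdeg (s := 1) (b := b) one_pos (by rwa [pow_one])
        (Or.inr (by rw [Nat.div_one]; exact Nat.pos_of_ne_zero hn))
      rwa [Nat.div_one] at h5
    · obtain ⟨h4, hN, hNN⟩ := (hcd.2 rfl).2 hi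
      have hp1 : p + 1 ≠ 0 := Nat.succ_ne_zero p
      set a := (p + 1).factorization 2 with ha
      have ha2 : 2 ≤ a := (Nat.Prime.pow_dvd_iff_le_factorization hl hp1).1 (by simpa using h4)
      have hdv : 2 ^ a ∣ p + 1 := Nat.ordProj_dvd _ _
      have hnd : ¬ 2 ^ (a + 1) ∣ p + 1 := Nat.pow_succ_factorization_not_dvd hp1 hl
      obtain ⟨r, hr, h⟩ := cntB p a n hp ha2 hdv hnd
      refine ⟨r, hr, h.trans (mul_dvd_mul_left _ ?_)⟩
      by_cases hnr : NonReal K
      · -- the conjugates of `ζ` are `ζ` and `ζ ^ p`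
        refine Dvd.dvd.mul_left ?_ _
        have hc := hN hnr
        have hsq : ∀ e ≤ a + 1, ∀ ζ : AlgebraicClosure K, IsPrimitiveRoot ζ (2 ^ e) →
            ζ ^ (p ^ 2) = ζ := by
          intro e he ζ hζ
          have h6 : 2 ^ (a + 1) ∣ p ^ 2 - 1 := by
            have h7 : p ^ 2 - 1 = (p + 1) * (p - 1) := Nat.sq_sub_sq p 1
            have h8 : 2 ∣ p - 1 := by
              have := hp.eq_two_or_odd
              have := hp.two_le
              omega
            rw [h7, pow_succ]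
            exact mul_dvd_mul hdv h8
          obtain ⟨q, hq⟩ := (pow_dvd_pow 2 he).trans h6
          have h9 : p ^ 2 = 2 ^ e * q + 1 := by
            have := Nat.one_le_pow 2 p hp.pos
            omega
          rw [h9, pow_succ, pow_mul, hζ.pow_eq_one, one_pow, one_mul]
        have h10 := dih_aux finA wr hd0 hd hi (b := a + 1) (by omega) hE2 hE (fun _ => p)
          (fun e he heb ζ hζ ξ hξ => by
            obtain ⟨j, hj⟩ := hc e he ζ hζ ξ hξ
            have h11 : ∀ m : ℕ, ζ ^ (p ^ (2 * m)) = ζ := by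
              intro m
              induction m with
              | zero => simp
              | succ m ih =>
                rw [mul_add, mul_one, pow_add, pow_mul ζ, ih, hsq e heb ζ hζ]
            rcases Nat.even_or_odd' j with ⟨m, rfl | rfl⟩
            · left
              rw [hj, h11 m]
            · right
              rw [hj, pow_succ, pow_mul ζ, h11 m])
        exact h10
      · -- the conjugates of `ζ` are `ζ` and its inverse
        have hc := hNN hnr
        have h10 := dih_aux finA wr hd0 hd hi (b := a) ha2 hE2 hE (fun e => 2 ^ e - 1)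
          (fun e he heb ζ hζ ξ hξ => by
            rcases hc e he ((pow_dvd_pow 2 heb).trans hdv) ζ hζ ξ hξ with h11 | h11
            · exact Or.inl h11
            · right
              rw [h11]
              have h12 : ζ ^ (2 ^ e - 1) * ζ = 1 := by
                rw [← pow_succ, Nat.sub_add_cancel Nat.one_le_two_pow, hζ.pow_eq_one]
              exact (eq_inv_of_mul_eq_one_left h12).symm)
        have h11 : fc K false n = 2 ^ (n / 2) := by
          unfold fc
          rw [if_neg (by simp [hnr])]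
        rw [h11]
        have h12 : 2 ^ ((a + 2) * (n / 2)) * (n / 2).factorial * 2 ^ (n % 2) =
            2 ^ (n / 2) * (2 ^ ((a + 1) * (n / 2)) * (n / 2).factorial * 2 ^ (n % 2)) := by
          have : (a + 2) * (n / 2) = n / 2 + (a + 1) * (n / 2) := by ring
          rw [this, pow_add]
          ring
        rw [h12]
        exact mul_dvd_mul_left _ h10
  · have hdeg := hcd.1 hl2
    have : Fact l.Prime := ⟨hl⟩
    set s := orderOf ((p : ZMod l)) with hs
    have hcop : (p : ZMod l) ≠ 0 := by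
      intro h
      rw [ZMod.natCast_eq_zero_iff] at h
      exact hlp ((Nat.prime_dvd_prime_iff_eq hl hp).1 h)
    have hs0 : 0 < s := by
      rw [hs, orderOf_pos_iff]
      exact isOfFinOrder_iff_pow_eq_one.2 ⟨l - 1, Nat.sub_pos_of_lt hl.one_lt,
        ZMod.pow_card_sub_one_eq_one hcop⟩
    have hpow : ∀ j : ℕ, l ∣ p ^ j - 1 ↔ s ∣ j := by
      intro j
      have h1 : 1 ≤ p ^ j := Nat.one_le_pow _ _ hp.pos
      rw [← ZMod.natCast_eq_zero_iff, Nat.cast_sub h1, Nat.cast_pow, Nat.cast_one, sub_eq_zero,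
        hs, orderOf_dvd_iff_pow_eq_one]
    have hps : p ^ s - 1 ≠ 0 := by
      have : 1 < p ^ s := Nat.one_lt_pow hs0.ne' hp.one_lt
      omega
    set b := (p ^ s - 1).factorization l with hb
    have hb0 : 0 < b := hl.factorization_pos_of_dvd hps ((hpow s).2 dvd_rfl)
    have hdv : l ^ b ∣ p ^ s - 1 := Nat.ordProj_dvd _ _
    have hnd : ¬ l ^ (b + 1) ∣ p ^ s - 1 := Nat.pow_succ_factorization_not_dvd hps hl
    obtain ⟨r, hr, h⟩ := cnt l p s b n hl hl2 hp hlp hs0 (fun j hj => (hpow j).1 hj) hb0 hdv hnd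
    by_cases hns : 0 < n / s
    · exact ⟨r, hr, h.trans (mul_dvd_mul_left _ (Dvd.dvd.mul_left
        (dvd_of_deg fin hl hd0 hd hE hdeg hs0 hdv (Or.inr hns)) _))⟩
    · have h0 : n / s = 0 := Nat.eq_zero_of_not_pos hns
      rw [h0, mul_zero, pow_zero, one_mul, Nat.factorial_zero, mul_one] at h
      exact ⟨r, hr, h.trans (Dvd.intro _ rfl)⟩

/-- in the 2-adic case the subring `C` of `K` embeds in the 2-adic integers -/
def TwoK (K : Type) [Field K] (adic : Bool) (C : Subring K) : Prop :=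
  adic = true → ∃ ι : C →+* ℤ_[2], Function.Injective ι

theorem TwoK.mono {K : Type} [Field K] {adic : Bool} {C C' : Subring K} (h : C' ≤ C)
    (hC : TwoK K adic C) : TwoK K adic C' := by
  intro ha
  obtain ⟨ι, hι⟩ := hC ha
  refine ⟨ι.comp (Subring.inclusion h), ?_⟩
  rw [RingHom.coe_comp]
  exact hι.comp (Subring.inclusion_injective h)

/-- `R` is an augmented algebra over a finitely generated subring of `K` -/
def AugK (K : Type) [Field K] (adic : Bool) (R : Type) [Ring R] : Prop :=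
  ∃ (C : Subring K) (_ : Algebra C R) (ε : R →ₐ[C] C),
    (∃ T : Finset K, C = Subring.closure (T : Set K)) ∧ TwoK K adic C ∧ Res ε

/-- **the base case** -/
theorem baseK {K : Type} [Field K] [CharZero K] (fin : FinG) (cnt : Cnt) (cntB : CntB)
    (finA : FinA) (wr : Wr) {adic : Bool} {n d : ℕ}
    (hd0 : 0 < d) (hd : FinDvd K n d) {R : Type} [Ring R] (hR : AugK K adic R)
    {H : Type} [Group H] (f : H →* (Matrix (Fin n) (Fin n) R)ˣ) (hf : Function.Injective f) :
    ∃ T : Finset K, ∀ l : ℕ, l.Prime → (Sp2 adic l → D l 2 H (fc K adic n * d)) ∧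
      (¬ Sp2 adic l → ∃ E : ℕ, ∀ p, E < p → PK K T l E p → D l p H (fc K adic n * d)) := by
  obtain ⟨C, iA, ε, ⟨T, hT⟩, hC, hε⟩ := hR
  refine ⟨T, fun l hl => ⟨fun hs => ?_, fun hs => ?_⟩⟩
  · -- the prime two
    obtain ⟨ι, hι⟩ := hC hs.2
    have hl2 : l = 2 := hs.1
    have h1 : GS 2 (cc 2 n) (Nat.card (Matrix.GeneralLinearGroup (Fin n) (ZMod 2))) H :=
      (GS.gl 2 n C R ε hε ι hι).sub 2 _ _ _ _ f hf
    obtain ⟨q, hq, -, h3⟩ := h1.part Nat.card_pos.ne'
    refine ⟨inferInstance, cc 2 n, q, h3, q, by rw [hl2]; exact hq,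
      mul_dvd_mul_left _ (Dvd.dvd.mul_left ?_ _)⟩
    obtain ⟨H', hH', hc⟩ := fin K 2 1 1 n Nat.prime_two one_pos (fun ζ hζ => by
      rw [pow_one] at hζ
      have h4 : ζ = -1 := hζ.eq_neg_one_of_two_right
      have h5 : ζ = algebraMap K (AlgebraicClosure K) (-1) := by rw [h4, map_neg, map_one]
      rw [h5, minpoly.eq_X_sub_C, Polynomial.natDegree_X_sub_C])
    have h6 := hd H' hH'
    rw [hc, Nat.div_one, pow_one] at h6
    rw [cc]
    have h7 : n / (2 - 1) = n := Nat.div_one n
    rw [h7]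
    exact h6
  · refine ⟨max (max l (n + 1)) (d.factorization l + 2), fun p hp hpp => ?_⟩
    have hpl : l < p := lt_of_le_of_lt ((le_max_left _ _).trans (le_max_left _ _)) hp
    have hpn : n + 1 < p := lt_of_le_of_lt ((le_max_right _ _).trans (le_max_left _ _)) hp
    have hE : d.factorization l < max (max l (n + 1)) (d.factorization l + 2) :=
      lt_of_lt_of_le (by omega) (le_max_right _ _)
    have hE2 : 2 ≤ max (max l (n + 1)) (d.factorization l + 2) :=
      le_trans (by omega) (le_max_right _ _)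
    obtain ⟨i1, hcd, ι, hι⟩ := hpp
    subst hT
    have h1 : GS p (cc p n) (Nat.card (Matrix.GeneralLinearGroup (Fin n) (ZMod p))) H :=
      (GS.gl p n _ R ε hε ι hι).sub p _ _ _ _ f hf
    refine ⟨i1, cc p n, _, h1, ?_⟩
    rw [cc_one_of_lt hpn, mul_one]
    by_cases hl2 : l = 2
    · have had : adic = false := by
        rcases Bool.eq_false_or_eq_true adic with h | h
        · exact absurd ⟨hl2, h⟩ hs
        · exact h
      subst had
      exact cntd fin cnt cntB finA wr hl hd0 hd hE hE2 i1.out hpl.ne hcd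
    · -- an odd prime
      obtain ⟨r, hr, h⟩ := cntd fin cnt cntB finA wr hl hd0 hd hE hE2 i1.out hpl.ne hcd
      refine ⟨r * fc K false n, ?_, ?_⟩
      · intro h5
        rcases hl.dvd_mul.1 h5 with h6 | h6
        · exact hr h6
        · have h7 : fc K false n ∣ 2 ^ (n / 2) := by
            unfold fc
            split_ifs
            · exact one_dvd _
            · exact dvd_rfl
          exact hl2 ((Nat.prime_dvd_prime_iff_eq hl Nat.prime_two).1
            (hl.dvd_of_dvd_pow (h6.trans h7)))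
      · refine h.trans ?_
        rw [mul_assoc]
        exact mul_dvd_mul_left _ (mul_dvd_mul_left _ (Dvd.intro_left _ rfl))

/-- the class `UK` from local embeddings -/
theorem UK.of_loc {K : Type} [Field K] [CharZero K] (fin : FinG) (cnt : Cnt) (cntB : CntB)
    (finA : FinA) (wr : Wr) {adic : Bool} {n d : ℕ}
    (hd0 : 0 < d) (hd : FinDvd K n d) {G : Type} [Group G]
    (hG : ∀ H : Subgroup G, H.FG → ∃ (R : Type) (_ : Ring R), AugK K adic R ∧
      ∃ f : H →* (Matrix (Fin n) (Fin n) R)ˣ, Function.Injective f) :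
    UK K adic G (fc K adic n * d) := by
  refine ⟨Nat.mul_pos (fc_pos K adic n) hd0, fun H hH => ?_⟩
  obtain ⟨R, i1, hR, f, hf⟩ := hG H hH
  exact baseK fin cnt cntB finA wr hd0 hd hR f hf

/-- all finitely generated subrings embed in augmented algebras -/
def LocAugK (K : Type) [Field K] (adic : Bool) (S : Type) [Ring S] : Prop :=
  ∀ T : Finset S, ∃ (R : Type) (_ : Ring R), AugK K adic R ∧
    ∃ i : Subring.closure (T : Set S) →+* R, Function.Injective i

theorem emb_of_locAugK {K : Type} [Field K] {adic : Bool} {S : Type} [Ring S]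
    (hS : LocAugK K adic S) (n : ℕ)
    (H : Subgroup (Matrix (Fin n) (Fin n) S)ˣ) (hH : H.FG) :
    ∃ (R : Type) (_ : Ring R), AugK K adic R ∧
      ∃ f : H →* (Matrix (Fin n) (Fin n) R)ˣ, Function.Injective f := by
  classical
  obtain ⟨T, rfl⟩ := hH
  let T' : Finset S := T.biUnion fun t => Finset.univ.biUnion fun a : Fin n =>
    Finset.univ.biUnion fun b : Fin n =>
      {(t : Matrix (Fin n) (Fin n) S) a b,
        ((t⁻¹ : (Matrix (Fin n) (Fin n) S)ˣ) : Matrix (Fin n) (Fin n) S) a b}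
  obtain ⟨R, i1, hR, i, hi⟩ := hS T'
  refine ⟨R, i1, hR, ?_⟩
  have hmem : ∀ t ∈ T, ∀ a b, (t : Matrix (Fin n) (Fin n) S) a b ∈ T' ∧
      ((t⁻¹ : (Matrix (Fin n) (Fin n) S)ˣ) : Matrix (Fin n) (Fin n) S) a b ∈ T' := by
    intro t ht a b
    constructor
    · exact Finset.mem_biUnion.2 ⟨t, ht, Finset.mem_biUnion.2 ⟨a, Finset.mem_univ _,
        Finset.mem_biUnion.2 ⟨b, Finset.mem_univ _, by simp⟩⟩⟩
    · exact Finset.mem_biUnion.2 ⟨t, ht, Finset.mem_biUnion.2 ⟨a, Finset.mem_univ _,
        Finset.mem_biUnion.2 ⟨b, Finset.mem_univ _, by simp⟩⟩⟩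
  obtain ⟨f, hf⟩ := lift_sub (Subring.closure (T' : Set S)).subtype Subtype.val_injective n T
    (fun t ht => ⟨fun a b => ⟨⟨_, Subring.subset_closure (hmem t ht a b).1⟩, rfl⟩,
      fun a b => ⟨⟨_, Subring.subset_closure (hmem t ht a b).2⟩, rfl⟩⟩)
  let φ : (Matrix (Fin n) (Fin n) (Subring.closure (T' : Set S)))ˣ →*
      (Matrix (Fin n) (Fin n) R)ˣ :=
    Units.map ((RingHom.mapMatrix i : Matrix (Fin n) (Fin n) (Subring.closure (T' : Set S)) →+*
      Matrix (Fin n) (Fin n) R) : _ →* Matrix (Fin n) (Fin n) R)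
  have hφ : Function.Injective φ := by
    intro u v huv
    apply Units.ext
    ext a b
    have h1 := congrArg (fun w : (Matrix (Fin n) (Fin n) R)ˣ =>
      (w : Matrix (Fin n) (Fin n) R) a b) huv
    exact congrArg Subtype.val (hi h1)
  exact ⟨φ.comp f, by rw [MonoidHom.coe_comp]; exact hφ.comp hf⟩

/-- the finite subgroups of `GL_n (S)` -/
theorem finDvd_of {K : Type} [Field K] {S : Type} [Ring S] (j : integralClosure ℤ K →+* S)
    (hj : Function.Injective j) {n d : ℕ}
    (hd : ∀ H : Subgroup (Matrix (Fin n) (Fin n) S)ˣ, Finite H → Nat.card H ∣ d) :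
    FinDvd K n d := by
  intro H hH
  rw [← card_units_map n j hj H]
  apply hd
  exact Set.Finite.image _ (Set.toFinite
    (H : Set (Matrix (Fin n) (Fin n) (integralClosure ℤ K))ˣ))

end Pool.Agent.H320.CF
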