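import Pool.Agent.H320.CF.Stm2
import Pool.Agent.H320.CF.CNT

/-! CF-CNTB (helper333 for helper320): the part of the order of `GL_n(F_p)` at the prime two. -/

set_option autoImplicit false

namespace Pool.Agent.H320.CF

namespace CNTBx

open CNTx

theorem val_of (N a : ℕ) (hN : N ≠ 0) (h1 : 2 ^ a ∣ N) (h2 : ¬ 2 ^ (a + 1) ∣ N) :
    padicValNat 2 N = a := by
  apply le_antisymm
  · by_contra hlt
    push Not at hlt
    exact h2 ((padicValNat_dvd_iff_le hN).2 hlt)
  · exact (padicValNat_dvd_iff_le hN).1 h1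

theorem mod_four {p : ℕ} (h : p % 4 = 3) (j : ℕ) : p ^ (2 * j + 1) % 4 = 3 := by
  induction j with
  | zero => simpa using h
  | succ j ih =>
    have e : p ^ (2 * (j + 1) + 1) = p ^ (2 * j + 1) * p * p := by ring
    rw [e, Nat.mul_mod, Nat.mul_mod (p ^ (2 * j + 1)), ih, h]

theorem odd_val {p : ℕ} (h : p % 4 = 3) (j : ℕ) : padicValNat 2 (p ^ (2 * j + 1) - 1) = 1 := by
  have h1 := mod_four h j
  refine val_of _ 1 (by omega) ?_ ?_
  · omega
  · norm_num
    omega

theorem even_val {p a : ℕ} (h : p % 4 = 3) (h1 : 2 ^ a ∣ p + 1)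
    (h2 : ¬ 2 ^ (a + 1) ∣ p + 1) (k : ℕ) (hk : k ≠ 0) :
    padicValNat 2 (p ^ (2 * k) - 1) = a + 1 + padicValNat 2 k := by
  have e := padicValNat.pow_two_sub_pow (x := p) (y := 1) (n := 2 * k) (by omega) (by omega)
    (by omega) (by omega) ⟨k, by ring⟩
  have e1 := val_of (p + 1) a (by omega) h1 h2
  have e2 : padicValNat 2 (p - 1) = 1 := by
    have := odd_val h 0
    simpa using this
  rw [one_pow, e1, e2, padicValNat.mul (by norm_num) hk, padicValNat.self (by norm_num)] at e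
  omega

theorem even_key {p a : ℕ} (hp : p.Prime) (h : p % 4 = 3) (h1 : 2 ^ a ∣ p + 1)
    (h2 : ¬ 2 ^ (a + 1) ∣ p + 1) (m : ℕ) :
    padicValNat 2 (PJ p (2 * m)) = (a + 2) * m + padicValNat 2 m.factorial := by
  have hne : ∀ n : ℕ, p ^ (n + 1) - 1 ≠ 0 := by
    intro n
    have : 1 < p ^ (n + 1) := Nat.one_lt_pow (by omega) hp.one_lt
    omega
  induction m with
  | zero => simp [PJ]
  | succ m ih =>
    have e : 2 * (m + 1) = 2 * m + 1 + 1 := by ring
    rw [e, PJ_succ, PJ_succ, padicValNat.mul (mul_ne_zero (PJ_ne_zero p _ hp) (hne _)) (hne _),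
      padicValNat.mul (PJ_ne_zero p _ hp) (hne _), ih, odd_val h m, ← e,
      even_val h h1 h2 (m + 1) (by omega), Nat.factorial_succ,
      padicValNat.mul (by omega) m.factorial_ne_zero]
    ring

end CNTBx

open CNTx CNTBx

theorem cntB : CntB := by
  intro p a n hp ha h1 h2
  have h4 : p % 4 = 3 := by
    have : (4 : ℕ) ∣ p + 1 := (pow_dvd_pow 2 ha).trans h1
    omega
  have hp2 : 2 ≠ p := by
    rintro rfl
    omega
  have hX : 2 ^ ((a + 2) * (n / 2)) * (n / 2).factorial ≠ 0 :=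
    mul_ne_zero (pow_ne_zero _ (by norm_num)) (n / 2).factorial_ne_zero
  refine fin_r 2 p n _ Nat.prime_two hp hp2 (mul_ne_zero hX (pow_ne_zero _ (by norm_num)))
    (le_of_eq ?_)
  rw [padicValNat.mul hX (pow_ne_zero _ (by norm_num)),
    padicValNat.mul (pow_ne_zero _ (by norm_num)) (n / 2).factorial_ne_zero,
    padicValNat.prime_pow, padicValNat.prime_pow]
  rcases Nat.even_or_odd' n with ⟨m, rfl | rfl⟩
  · rw [even_key hp h4 h1 h2 m, Nat.mul_div_cancel_left _ (by norm_num), Nat.mul_mod_right]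
    rfl
  · have e1 : (2 * m + 1) / 2 = m := by omega
    have e2 : (2 * m + 1) % 2 = 1 := by omega
    have hne : p ^ (2 * m + 1) - 1 ≠ 0 := by
      have : 1 < p ^ (2 * m + 1) := Nat.one_lt_pow (by omega) hp.one_lt
      omega
    rw [PJ_succ, padicValNat.mul (PJ_ne_zero p _ hp) hne, even_key hp h4 h1 h2 m, odd_val h4 m,
      e1, e2]

end Pool.Agent.H320.CF
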