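import Pool.Agent.H320.CF.Stm2

/-!
Existence of the primes with an embedding in the `p`-adic integers and given Frobenius data
(the proof is due to helper729).
-/

set_option autoImplicit false

namespace Pool.Agent.H320.CF

open Polynomial NumberField

namespace EXGx

/-- the fixed points of the Frobenius map are the elements of the prime field -/
theorem fixed (p : ℕ) [Fact p.Prime] (y : AlgebraicClosure (ZMod p)) (h : y ^ p = y) :
    ∃ a : ZMod p, algebraMap (ZMod p) (AlgebraicClosure (ZMod p)) a = y := by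
  have hp : 1 < p := (Fact.out : p.Prime).one_lt
  have hne : (X ^ p - X : (ZMod p)[X]) ≠ 0 := FiniteField.X_pow_card_sub_X_ne_zero _ hp
  have hr : (X ^ p - X : (ZMod p)[X]).roots = Finset.univ.val := by
    have h1 := FiniteField.roots_X_pow_card_sub_X (ZMod p)
    rwa [ZMod.card p] at h1
  have hs : (X ^ p - X : (ZMod p)[X]).Splits := by
    rw [splits_iff_card_roots, hr, FiniteField.X_pow_card_sub_X_natDegree_eq _ hp]
    simp [ZMod.card]
  have h2 : y ∈ ((X ^ p - X : (ZMod p)[X]).map
      (algebraMap (ZMod p) (AlgebraicClosure (ZMod p)))).roots := by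
    rw [mem_roots (Polynomial.map_ne_zero hne)]
    simp [h]
  rw [hs.roots_map, Multiset.mem_map] at h2
  obtain ⟨a, -, ha⟩ := h2
  exact ⟨a, ha⟩

/-- a homomorphism with values in the prime field -/
theorem restr {L : Type} [Field L] (p : ℕ) [Fact p.Prime] (B : Subring L)
    (θ : B →+* AlgebraicClosure (ZMod p)) (hθ : ∀ b, θ b ^ p = θ b) : Nonempty (B →+* ZMod p) := by
  have hinj : Function.Injective (algebraMap (ZMod p) (AlgebraicClosure (ZMod p))) :=
    (algebraMap (ZMod p) (AlgebraicClosure (ZMod p))).injective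
  choose f hf using fun b => fixed p (θ b) (hθ b)
  refine ⟨{ toFun := f, map_one' := ?_, map_mul' := ?_, map_zero' := ?_, map_add' := ?_ }⟩
  · apply hinj
    rw [hf, map_one, map_one]
  · intro a b
    apply hinj
    rw [hf, map_mul, map_mul, hf, hf]
  · apply hinj
    rw [hf, map_zero, map_zero]
  · intro a b
    apply hinj
    rw [hf, map_add, map_add, hf, hf]

end EXGx

/-- the existence of the primes for given Frobenius data -/
def ExistG : Prop := ∀ (K : Type) [Field K] [CharZero K] (T : Finset K)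
  (σ : AlgebraicClosure K ≃ₐ[K] AlgebraicClosure K) (X : Finset (AlgebraicClosure K)) (N : ℕ),
  ∃ p, N < p ∧ ∃ _ : Fact p.Prime,
    FrobAt (σ : AlgebraicClosure K ≃+* AlgebraicClosure K) X p ∧
      ∃ ι : Subring.closure (T : Set K) →+* ℤ_[p], Function.Injective ι

open EXGx in
theorem exg (frob : Frob) (lift : Lift) : ExistG := by
  classical
  intro K _ _ T σ X0 N
  haveI : CharZero (AlgebraicClosure K) :=
    charZero_of_injective_algebraMap (algebraMap K (AlgebraicClosure K)).injective
  obtain ⟨X1, hX1, hlift⟩ := lift (AlgebraicClosure K) (T.image (algebraMap K (AlgebraicClosure K)))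
  obtain ⟨F, hF⟩ : ∃ F : Subfield (AlgebraicClosure K),
      F = (algebraMap K (AlgebraicClosure K)).fieldRange := ⟨_, rfl⟩
  have hFix : ∀ z ∈ F, (σ : AlgebraicClosure K ≃+* AlgebraicClosure K) z = z := by
    rw [hF]
    rintro z ⟨a, rfl⟩
    exact σ.commutes a
  have hX1F : ∀ z ∈ X1, z ∈ F := by
    intro z hz
    refine (Subfield.closure_le.mpr ?_) (hX1 z hz)
    intro w hw
    rw [Finset.coe_image] at hw
    obtain ⟨a, -, rfl⟩ := hw
    rw [hF]
    exact ⟨a, rfl⟩
  have halg : ∀ z : AlgebraicClosure K, IsAlgebraic F z := by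
    intro z
    obtain ⟨q, hq0, hq⟩ := Algebra.IsAlgebraic.isAlgebraic (R := K) z
    subst hF
    refine ⟨q.map (algebraMap K (AlgebraicClosure K)).rangeRestrictField,
      Polynomial.map_ne_zero hq0, ?_⟩
    rw [aeval_def, eval₂_map]
    rw [aeval_def] at hq
    exact hq
  obtain ⟨p, hp, hfact, B, hB, θ, hXB, hθ⟩ := frob (AlgebraicClosure K)
    (σ : AlgebraicClosure K ≃+* AlgebraicClosure K) F hFix (X0 ∪ X1) (fun z _ => halg z) N
  refine ⟨p, hp, hfact, ⟨B, hB, θ, fun z hz => hXB z (by
    rw [Finset.coe_union]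
    exact Or.inl hz), hθ⟩, ?_⟩
  -- the fixed subring
  obtain ⟨B1, hB1⟩ : ∃ B1 : Subring (AlgebraicClosure K), B1 = B ⊓
      RingHom.eqLocus ((σ : AlgebraicClosure K ≃+* AlgebraicClosure K) :
        AlgebraicClosure K →+* AlgebraicClosure K) (RingHom.id _) := ⟨_, rfl⟩
  have hle : B1 ≤ B := by rw [hB1]; exact inf_le_left
  have hfix1 : ∀ b ∈ B1, (σ : AlgebraicClosure K ≃+* AlgebraicClosure K) b = b := by
    intro b hb
    rw [hB1] at hb
    exact hb.2
  have hmem1 : ∀ z ∈ X1, z ∈ B1 := by
    intro z hz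
    rw [hB1]
    refine ⟨hXB z ?_, hFix z (hX1F z hz)⟩
    rw [Finset.coe_union]
    exact Or.inr hz
  obtain ⟨θ1⟩ := restr p B1 (θ.comp (Subring.inclusion hle)) (by
    intro b
    have h1 := hθ (Subring.inclusion hle b)
    rw [frobenius_def] at h1
    rw [RingHom.comp_apply, ← h1]
    congr 1
    apply Subtype.ext
    exact hfix1 b b.2)
  obtain ⟨ι, hι⟩ := hlift p B1 hmem1 θ1
  -- transfer to the closure of `T`
  have hmap : ∀ x : Subring.closure (T : Set K), algebraMap K (AlgebraicClosure K) x ∈
      Subring.closure ((T.image (algebraMap K (AlgebraicClosure K)) : Finset (AlgebraicClosure K)) :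
        Set (AlgebraicClosure K)) := by
    intro x
    rw [Finset.coe_image, ← RingHom.map_closure]
    exact ⟨x, x.2, rfl⟩
  refine ⟨ι.comp (RingHom.codRestrict ((algebraMap K (AlgebraicClosure K)).comp
    (Subring.closure (T : Set K)).subtype) _ hmap), ?_⟩
  intro x y hxy
  have h1 := hι hxy
  have h2 := congrArg Subtype.val h1
  exact Subtype.ext ((algebraMap K (AlgebraicClosure K)).injective h2)

end Pool.Agent.H320.CF
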