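import Mathlib

/-!
helper320: finitely generated subrings of group rings.
-/

set_option autoImplicit false

namespace Pool.Agent.H320.CF

theorem grp_coreK {K : Type} [Field K] (C : Subring K) {N S : Type} [Group N] [Ring S] (i : S →+* MonoidAlgebra C N)
    (hi : Function.Injective i) (T : Finset S) :
    ∃ (T₀ : Finset K) (N' : Subgroup N), (∀ t ∈ T₀, t ∈ C) ∧ N'.FG ∧
      ∃ i' : Subring.closure (T : Set S) →+*
        MonoidAlgebra (Subring.closure (T₀ : Set K)) N', Function.Injective i' := by
  classical
  let T₀ : Finset K := T.biUnion fun t => (i t).coeff.support.image fun g => ((i t).coeff g : K)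
  let X : Finset N := T.biUnion fun t => (i t).coeff.support
  let C' : Subring K := Subring.closure (T₀ : Set K)
  let N' : Subgroup N := Subgroup.closure (X : Set N)
  have hT₀ : ∀ t ∈ T₀, t ∈ C := by
    intro t ht
    obtain ⟨s, hs, h1⟩ := Finset.mem_biUnion.1 ht
    obtain ⟨g, hg, rfl⟩ := Finset.mem_image.1 h1
    exact ((i s).coeff g).2
  have hle : C' ≤ C := (Subring.closure_le).2 hT₀
  let κ : MonoidAlgebra C' N' →+* MonoidAlgebra C N :=
    (MonoidAlgebra.mapRingHom N (Subring.inclusion hle)).comp
      (MonoidAlgebra.mapDomainRingHom C' N'.subtype)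
  have hκ : Function.Injective κ := by
    have h1 : Function.Injective (MonoidAlgebra.mapRingHom N (Subring.inclusion hle)) := by
      intro x y hxy
      apply MonoidAlgebra.coeff_injective
      ext g
      have h2 := congrArg (fun w : MonoidAlgebra C N => w.coeff g) hxy
      simp only [MonoidAlgebra.coeff_mapRingHom] at h2
      exact congrArg (fun w : C' => (w : K)) (Subring.inclusion_injective hle h2)
    have h2 : Function.Injective (MonoidAlgebra.mapDomainRingHom C' N'.subtype) :=
      MonoidAlgebra.mapDomain_injective N'.subtype_injective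
    rw [RingHom.coe_comp]
    exact h1.comp h2
  have hT : ∀ t ∈ T, i t ∈ κ.range := by
    intro t ht
    rw [← MonoidAlgebra.sum_coeff_single (i t), Finsupp.sum]
    refine Subring.sum_mem _ fun g hg => ?_
    have h1 : g ∈ N' := Subgroup.subset_closure (Finset.mem_coe.2
      (Finset.mem_biUnion.2 ⟨t, ht, hg⟩))
    have h2 : ((i t).coeff g : K) ∈ C' := Subring.subset_closure (Finset.mem_coe.2
      (Finset.mem_biUnion.2 ⟨t, ht, Finset.mem_image.2 ⟨g, hg, rfl⟩⟩))
    refine ⟨MonoidAlgebra.single ⟨g, h1⟩ ⟨_, h2⟩, ?_⟩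
    change (MonoidAlgebra.mapRingHom N (Subring.inclusion hle))
      (MonoidAlgebra.mapDomain N'.subtype (MonoidAlgebra.single ⟨g, h1⟩ ⟨_, h2⟩)) = _
    rw [MonoidAlgebra.mapDomain_single, MonoidAlgebra.mapRingHom_single]
    rfl
  have hcl : ∀ x : Subring.closure (T : Set S), i x ∈ κ.range := by
    intro x
    have h1 : Subring.closure (T : Set S) ≤ κ.range.comap i := (Subring.closure_le).2 hT
    exact h1 x.2
  let e : MonoidAlgebra C' N' ≃+* κ.range := RingEquiv.ofBijective κ.rangeRestrict
    ⟨fun a b hab => hκ (congrArg Subtype.val hab), κ.rangeRestrict_surjective⟩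
  let j : Subring.closure (T : Set S) →+* κ.range :=
    (i.comp (Subring.closure (T : Set S)).subtype).codRestrict κ.range hcl
  refine ⟨T₀, N', hT₀, ⟨X, rfl⟩, (e.symm : κ.range →+* _).comp j, ?_⟩
  intro x y hxy
  have h1 : j x = j y := e.symm.injective hxy
  have h2 : i x = i y := congrArg Subtype.val h1
  exact Subtype.ext (hi h2)

end Pool.Agent.H320.CF
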