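import Pool.Agent.H320.CF.EXG

/-!
helper320: the primes used at `l`.
-/

set_option autoImplicit false

namespace Pool.Agent.H320.CF

open Polynomial

/-- `K` contains a square root of `-1` -/
def HasI (K : Type) [Field K] : Prop := ∃ i : K, i ^ 2 = -1

theorem NonReal.of_hasI {K : Type} [Field K] [CharZero K] (h : HasI K) : NonReal K := by
  obtain ⟨i, hi⟩ := h
  have hinj : Function.Injective (algebraMap K (AlgebraicClosure K)) :=
    (algebraMap K (AlgebraicClosure K)).injective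
  have h4 : IsPrimitiveRoot i (2 ^ 2) := by
    have h0 : i ^ (2 ^ 2) = 1 := by
      rw [show (2 ^ 2 : ℕ) = 2 * 2 by norm_num, pow_mul, hi]
      norm_num
    refine IsPrimitiveRoot.iff_orderOf.2 ?_
    refine orderOf_eq_prime_pow (p := 2) (n := 1) ?_ h0
    rw [pow_one, hi]
    norm_num
  refine ⟨2, le_rfl, algebraMap K (AlgebraicClosure K) i, i - i⁻¹, h4.map_of_injective hinj, ?_⟩
  rw [map_sub, map_inv₀]

/-- the condition at the prime two -/
def C2 (K : Type) [Field K] (E p : ℕ) : Prop :=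
  (HasI K → Deg K 2 E p ∧ 4 ∣ p - 1) ∧
    (¬ HasI K → 4 ∣ p + 1 ∧ (NonReal K → Cnj K E p) ∧ (¬ NonReal K → Dih K E p))

/-- the condition at the prime `l` -/
def Cd (K : Type) [Field K] (l E p : ℕ) : Prop := (l ≠ 2 → Deg K l E p) ∧ (l = 2 → C2 K E p)

theorem Deg.mono {K : Type} [Field K] {l E E' p : ℕ} (h : E ≤ E') (hd : Deg K l E' p) :
    Deg K l E p := fun b hb => hd b (hb.trans h)

theorem Cnj.mono {K : Type} [Field K] {E E' p : ℕ} (h : E ≤ E') (hd : Cnj K E' p) :
    Cnj K E p := fun b hb => hd b (hb.trans h)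

theorem Dih.mono {K : Type} [Field K] {E E' p : ℕ} (h : E ≤ E') (hd : Dih K E' p) :
    Dih K E p := fun b hb => hd b (hb.trans h)

theorem Cd.mono {K : Type} [Field K] {l E E' p : ℕ} (h : E ≤ E') (hd : Cd K l E' p) :
    Cd K l E p :=
  ⟨fun hl => (hd.1 hl).mono h, fun hl => ⟨fun hi => ⟨((hd.2 hl).1 hi).1.mono h,
    ((hd.2 hl).1 hi).2⟩, fun hi => ⟨((hd.2 hl).2 hi).1, fun hn => (((hd.2 hl).2 hi).2.1 hn).mono h,
      fun hn => (((hd.2 hl).2 hi).2.2 hn).mono h⟩⟩⟩

/-- the primes used at `l`, for the ring generated by `T` and the exponent `E` -/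
def PK (K : Type) [Field K] (T : Finset K) (l E p : ℕ) : Prop :=
  ∃ _ : Fact p.Prime, Cd K l E p ∧ ∃ ι : Subring.closure (T : Set K) →+* ℤ_[p],
    Function.Injective ι

theorem PK.mono {K : Type} [Field K] {T T' : Finset K} (h : T ⊆ T') {l E E' p : ℕ} (hE : E ≤ E')
    (hp : PK K T' l E' p) : PK K T l E p := by
  obtain ⟨i1, h1, ι, hι⟩ := hp
  refine ⟨i1, h1.mono hE,
    ι.comp (Subring.inclusion (Subring.closure_mono (Finset.coe_subset.2 h))), ?_⟩
  rw [RingHom.coe_comp]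
  exact hι.comp (Subring.inclusion_injective _)

/-- if `i` is not in `K` then the prime is `3` modulo `4` -/
theorem four_dvd_of_cnj {K : Type} [Field K] [CharZero K] (hi : ¬ HasI K) {E p : ℕ} (hE : 2 ≤ E)
    (hp : p.Prime) (hp2 : p ≠ 2) (hc : Cnj K E p) : 4 ∣ p + 1 := by
  have hcz : CharZero (AlgebraicClosure K) :=
    charZero_of_injective_algebraMap (algebraMap K (AlgebraicClosure K)).injective
  have : NeZero ((2 ^ 2 : ℕ) : AlgebraicClosure K) := ⟨by norm_num⟩
  obtain ⟨i, h4⟩ := HasEnoughRootsOfUnity.exists_primitiveRoot (AlgebraicClosure K) (2 ^ 2)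
  have hi2 : i ^ 2 = -1 := by
    have h1 : (i ^ 2) ^ 2 = 1 := by rw [← pow_mul]; exact h4.pow_eq_one
    have h2 : i ^ 2 ≠ 1 := h4.pow_ne_one_of_pos_of_lt (by norm_num) (by norm_num)
    have h3 : (i ^ 2 - 1) * (i ^ 2 + 1) = 0 := by linear_combination h1
    rcases mul_eq_zero.1 h3 with h | h
    · exact absurd (sub_eq_zero.1 h) h2
    · exact eq_neg_of_add_eq_zero_left h
  have hnot : i ∉ (algebraMap K (AlgebraicClosure K)).range := by
    rintro ⟨z, hz⟩
    apply hi
    refine ⟨z, (algebraMap K (AlgebraicClosure K)).injective ?_⟩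
    rw [map_pow, hz, hi2, map_neg, map_one]
  have hint : IsIntegral K i := Algebra.IsIntegral.isIntegral i
  have hq : aeval i (X ^ 2 + 1 : K[X]) = 0 := by
    simp [hi2]
  have hmon : (X ^ 2 + 1 : K[X]).Monic := by
    have : (X ^ 2 + 1 : K[X]) = X ^ 2 + C 1 := by simp
    rw [this]
    exact monic_X_pow_add_C 1 two_ne_zero
  have hdeg : (X ^ 2 + 1 : K[X]).natDegree = 2 := by
    have : (X ^ 2 + 1 : K[X]) = X ^ 2 + C 1 := by simp
    rw [this]
    exact natDegree_X_pow_add_C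
  have hd2 : 2 ≤ (minpoly K i).natDegree := by
    have h1 : (minpoly K i).natDegree ≠ 1 := fun h => hnot (minpoly.natDegree_eq_one_iff.1 h)
    have h2 := minpoly.natDegree_pos hint
    omega
  have heq : minpoly K i = X ^ 2 + 1 :=
    (eq_of_monic_of_dvd_of_natDegree_le (minpoly.monic hint) hmon (minpoly.dvd K i hq)
      (by rw [hdeg]; exact hd2)).symm
  obtain ⟨j, hj⟩ := hc 2 hE i h4 (-i) (by
    rw [heq]
    simp [hi2])
  by_contra hcon
  have hodd : p % 2 = 1 := hp.eq_two_or_odd.resolve_left hp2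
  have hp4 : p % 4 = 1 := by omega
  have hpj : p ^ j % 4 = 1 := by
    rw [Nat.pow_mod, hp4, one_pow]
    rfl
  have h5 : i ^ (p ^ j) = i := by
    rw [← Nat.div_add_mod (p ^ j) 4, hpj, pow_add, pow_mul, pow_one]
    have : i ^ 4 = 1 := h4.pow_eq_one
    rw [this, one_pow, one_mul]
  rw [h5] at hj
  have h6 : (2 : AlgebraicClosure K) * i = 0 := by linear_combination -hj
  rcases mul_eq_zero.1 h6 with h | h
  · exact two_ne_zero h
  · rw [h] at hi2
    norm_num at hi2

/-- the existence of the primes -/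
theorem existAll (exg : ExistG) (cycB : CycB) (cycC : CycC) (cycD : CycD) (K : Type) [Field K]
    [CharZero K] (T : Finset K) (l E N : ℕ) (hl : l.Prime) : ∃ p, N < p ∧ PK K T l E p := by
  by_cases hl2 : l = 2
  · subst hl2
    by_cases hi : HasI K
    · obtain ⟨σ, X, h⟩ := cycB K 2 E hl (fun _ => hi)
      obtain ⟨p, hp, i1, hf, hι⟩ := exg K T σ X (max N 2)
      have h1 := h p (lt_of_le_of_lt (le_max_right _ _) hp).ne' hf
      exact ⟨p, lt_of_le_of_lt (le_max_left _ _) hp, i1, ⟨fun h2 => absurd rfl h2,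
        fun _ => ⟨fun _ => ⟨h1.1, h1.2 rfl⟩, fun h2 => absurd hi h2⟩⟩, hι⟩
    · by_cases hn : NonReal K
      · obtain ⟨σ, X, h⟩ := cycC K (max E 2) hn
        obtain ⟨p, hp, i1, hf, hι⟩ := exg K T σ X (max N 2)
        have hp2 : p ≠ 2 := (lt_of_le_of_lt (le_max_right _ _) hp).ne'
        have h1 := h p hp2 hf
        exact ⟨p, lt_of_le_of_lt (le_max_left _ _) hp, i1, ⟨fun h2 => absurd rfl h2,
          fun _ => ⟨fun h2 => absurd h2 hi, fun _ =>
            ⟨four_dvd_of_cnj hi (le_max_right _ _) i1.out hp2 h1,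
              fun _ => h1.mono (le_max_left _ _), fun h2 => absurd hn h2⟩⟩⟩, hι⟩
      · obtain ⟨σ, X, h⟩ := cycD K E hi
        obtain ⟨p, hp, i1, hf, hι⟩ := exg K T σ X (max N 2)
        have hp2 : p ≠ 2 := (lt_of_le_of_lt (le_max_right _ _) hp).ne'
        have h1 := h p hp2 hf
        exact ⟨p, lt_of_le_of_lt (le_max_left _ _) hp, i1, ⟨fun h2 => absurd rfl h2,
          fun _ => ⟨fun h2 => absurd h2 hi, fun _ => ⟨h1.1, fun h2 => absurd h2 hn,
            fun _ => h1.2⟩⟩⟩, hι⟩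
  · obtain ⟨σ, X, h⟩ := cycB K l E hl (fun h => absurd h hl2)
    obtain ⟨p, hp, i1, hf, hι⟩ := exg K T σ X (max N l)
    have h1 := h p (lt_of_le_of_lt (le_max_right _ _) hp).ne' hf
    exact ⟨p, lt_of_le_of_lt (le_max_left _ _) hp, i1, ⟨fun _ => h1.1, fun h2 => absurd h2 hl2⟩,
      hι⟩

end Pool.Agent.H320.CF
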