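import Pool.Agent.H320.CF.Base
import Pool.Agent.H320.CF.Grp
import Pool.Agent.H320.GS.Rings

/-!
helper320: subrings of group rings of residually torsion-free nilpotent groups.
-/

set_option autoImplicit false

namespace Pool.Agent.H320.CF

open Pool.Agent.H371.SA Pool.Agent.H371.SB Pool.Agent.H371.SC
open Pool.Agent.H320.PG

theorem locAugK_group {K : Type} [Field K] [CharZero K] {adic : Bool} (C : Subring K) (hC : TwoK K adic C)
    {N S : Type} [Group N] (hN : RTFN N) [Ring S] (i : S →+* MonoidAlgebra C N)
    (hi : Function.Injective i) : LocAugK K adic S := by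
  intro T
  obtain ⟨T₀, N', h1, h2, i', hi'⟩ := grp_coreK C i hi T
  have hFG : Group.FG N' := (Group.fg_iff_subgroup_fg N').2 h2
  have hle : Subring.closure (T₀ : Set K) ≤ C := (Subring.closure_le).2 h1
  exact ⟨MonoidAlgebra (Subring.closure (T₀ : Set K)) N', inferInstance,
    ⟨Subring.closure (T₀ : Set K), inferInstance, _, ⟨T₀, rfl⟩, hC.mono hle,
      res_group_ring (Subring.closure (T₀ : Set K)) N' (rtfn_sub hN N')⟩, i', hi'⟩

end Pool.Agent.H320.CF
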