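import Pool.Agent.H320.CF.Stm

/-!
helper320: statements for the prime two, for fields without a square root of `-1`.
-/

set_option autoImplicit false

namespace Pool.Agent.H320.CF

open Polynomial

/-- `K` contains `ζ - ζ⁻¹` for a root of unity `ζ` of order `2 ^ e`, `e ≥ 2` (for example a square
root of `-1` or `-2`) -/
def NonReal (K : Type) [Field K] : Prop := ∃ (e : ℕ) (_ : 2 ≤ e) (ζ : AlgebraicClosure K) (z : K),
  IsPrimitiveRoot ζ (2 ^ e) ∧ ζ - ζ⁻¹ = algebraMap K (AlgebraicClosure K) z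

/-- the conjugates of the roots of unity of order `2 ^ b`, `b ≤ E`, are powers as for the field with
`p` elements -/
def Cnj (K : Type) [Field K] (E p : ℕ) : Prop := ∀ b ≤ E, ∀ ζ : AlgebraicClosure K,
  IsPrimitiveRoot ζ (2 ^ b) → ∀ ξ : AlgebraicClosure K, aeval ξ (minpoly K ζ) = 0 →
    ∃ j : ℕ, ξ = ζ ^ (p ^ j)

/-- the conjugates of the roots of unity of order `2 ^ b`, `b ≤ E`, `2 ^ b ∣ p + 1`, are the root of
unity and its inverse -/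
def Dih (K : Type) [Field K] (E p : ℕ) : Prop := ∀ b ≤ E, 2 ^ b ∣ p + 1 →
  ∀ ζ : AlgebraicClosure K, IsPrimitiveRoot ζ (2 ^ b) → ∀ ξ : AlgebraicClosure K,
    aeval ξ (minpoly K ζ) = 0 → ξ = ζ ∨ ξ = ζ⁻¹

/-- CF-GA: subgroups of `(ℤ/2^E)ˣ` -/
def GA : Prop := ∀ (E : ℕ) (H : Subgroup (ZMod (2 ^ (E + 2)))ˣ), -1 ∉ H → IsCyclic H

/-- CF-GB -/
def GB : Prop := ∀ (E : ℕ) (H : Subgroup (ZMod (2 ^ (E + 2)))ˣ),
  (∃ u ∈ H, 4 ∣ (u : ZMod (2 ^ (E + 2))).val + 1) →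
    ∃ c ∈ H, 4 ∣ (c : ZMod (2 ^ (E + 2))).val + 1 ∧
      ∀ b ≤ E + 2, 2 ^ b ∣ (c : ZMod (2 ^ (E + 2))).val + 1 → ∀ h ∈ H,
        (2 ^ b : ℤ) ∣ (h : ZMod (2 ^ (E + 2))).val - 1 ∨
          (2 ^ b : ℤ) ∣ (h : ZMod (2 ^ (E + 2))).val + 1

/-- CF-CYCC -/
def CycC : Prop := ∀ (K : Type) [Field K] [CharZero K] (E : ℕ), NonReal K →
  ∃ (σ : AlgebraicClosure K ≃ₐ[K] AlgebraicClosure K) (X : Finset (AlgebraicClosure K)),
    ∀ (p : ℕ) [Fact p.Prime], p ≠ 2 →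
      FrobAt (σ : AlgebraicClosure K ≃+* AlgebraicClosure K) X p → Cnj K E p

/-- CF-CYCD -/
def CycD : Prop := ∀ (K : Type) [Field K] [CharZero K] (E : ℕ), (¬ ∃ i : K, i ^ 2 = -1) →
  ∃ (σ : AlgebraicClosure K ≃ₐ[K] AlgebraicClosure K) (X : Finset (AlgebraicClosure K)),
    ∀ (p : ℕ) [Fact p.Prime], p ≠ 2 →
      FrobAt (σ : AlgebraicClosure K ≃+* AlgebraicClosure K) X p → 4 ∣ p + 1 ∧ Dih K E p

/-- CF-CNTB -/
def CntB : Prop := ∀ (p a n : ℕ), p.Prime → 2 ≤ a → 2 ^ a ∣ p + 1 → ¬ 2 ^ (a + 1) ∣ p + 1 →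
  ∃ r : ℕ, ¬ 2 ∣ r ∧ Nat.card (Matrix.GeneralLinearGroup (Fin n) (ZMod p)) ∣
    r * (2 ^ ((a + 2) * (n / 2)) * (n / 2).factorial * 2 ^ (n % 2))

/-- CF-FINA: the group generated by a root of unity and the conjugation of a quadratic
extension -/
def FinA : Prop := ∀ (K : Type) [Field K] [CharZero K] (b c : ℕ), 2 ≤ b →
  (¬ ∃ i : K, i ^ 2 = -1) → (∀ ζ : AlgebraicClosure K, IsPrimitiveRoot ζ (2 ^ b) →
    ∀ ξ : AlgebraicClosure K, aeval ξ (minpoly K ζ) = 0 → ξ = ζ ∨ ξ = ζ ^ c) →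
  ∃ H : Subgroup (Matrix (Fin 2) (Fin 2) (integralClosure ℤ K))ˣ, Finite H ∧
    Nat.card H = 2 ^ (b + 1)

/-- CF-WR: wreath products -/
def Wr : Prop := ∀ (R : Type) [CommRing R] [IsDomain R] [CharZero R]
  (A : Subgroup (Matrix (Fin 2) (Fin 2) R)ˣ), Finite A → ∀ n : ℕ,
  ∃ H : Subgroup (Matrix (Fin n) (Fin n) R)ˣ, Finite H ∧
    Nat.card H = Nat.card A ^ (n / 2) * (n / 2).factorial * 2 ^ (n % 2)

end Pool.Agent.H320.CF
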