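import Pool.Agent.H320.CF.Rings

/-!
helper320: general linear groups over fields.
-/

set_option autoImplicit false

namespace Pool.Agent.H320.CF

open Pool.Agent.H371.SA Pool.Agent.H371.SB Pool.Agent.H371.SC
open Pool.Agent.H320.PG

theorem res_id (C : Type) [CommRing C] : Res (AlgHom.id C C) := by
  intro r hr
  refine ⟨1, 1, Algebra.ofId C (Matrix (Fin 1) (Fin 1) C), ?_, ?_⟩
  · intro l hl h0
    obtain ⟨x, rfl⟩ := List.length_eq_one_iff.1 hl
    have h1 : x = 0 := h0 x (by simp)
    rw [h1]
    simp
  · intro h
    apply hr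
    have h1 := congrFun (congrFun h 0) 0
    simpa [Algebra.ofId_apply, Matrix.algebraMap_matrix_apply] using h1

theorem locAugK_self (K : Type) [Field K] : LocAugK K false K := by
  intro T
  exact ⟨Subring.closure (T : Set K), inferInstance,
    ⟨Subring.closure (T : Set K), inferInstance, AlgHom.id _ _, ⟨T, rfl⟩, fun h => absurd h (by decide), res_id _⟩,
    RingHom.id _, Function.injective_id⟩

end Pool.Agent.H320.CF
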