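import Pool.Agent.H320.CF.Pr
import Pool.Agent.H320.GS.Uni

/-!
helper320: a class of pairs `(G, d)` over a field `K`, uniform in the choice of the primes.
-/

set_option autoImplicit false

namespace Pool.Agent.H320.CF

open Monoid
open Pool.Agent.H371.SA Pool.Agent.H371.SB Pool.Agent.H371.SC
open Pool.Agent.H320.PG Pool.Agent.W656.VA

/-- the prime two is special in the 2-adic case -/
def Sp2 (adic : Bool) (l : ℕ) : Prop := l = 2 ∧ adic = true

/-- for every finitely generated subgroup and every prime `l` there are data at the primes in the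
sets `PK`, respectively at the prime two -/
def UK (K : Type) [Field K] (adic : Bool) (G : Type) [Group G] (d : ℕ) : Prop :=
  0 < d ∧ ∀ H : Subgroup G, H.FG → ∃ T : Finset K, ∀ l : ℕ, l.Prime →
    (Sp2 adic l → D l 2 H d) ∧ (¬ Sp2 adic l → ∃ E : ℕ, ∀ p, E < p → PK K T l E p → D l p H d)

variable {K : Type} [Field K] {adic : Bool}

theorem UK.sub {G H : Type} [Group G] [Group H] {d : ℕ} (f : H →* G)
    (hf : Function.Injective f) (hG : UK K adic G d) : UK K adic H d := by
  refine ⟨hG.1, fun A hA => ?_⟩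
  obtain ⟨T, hT⟩ := hG.2 (A.map f) (fg_map f hA)
  let g : A →* A.map f := (f.comp A.subtype).codRestrict (A.map f) (fun k => ⟨k, k.2, rfl⟩)
  have hg : Function.Injective g := by
    intro a b hab
    exact Subtype.ext (hf (congrArg (fun w : A.map f => (w : G)) hab))
  refine ⟨T, fun l hl => ⟨fun h => ((hT l hl).1 h).sub g hg, fun h => ?_⟩⟩
  obtain ⟨E, hE⟩ := (hT l hl).2 h
  exact ⟨E, fun p hp hpp => (hE p hp hpp).sub g hg⟩

theorem UK.prod {G H : Type} [Group G] [Group H] {d e : ℕ} (hG : UK K adic G d)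
    (hH : UK K adic H e) : UK K adic (G × H) (d * e) := by
  classical
  refine ⟨Nat.mul_pos hG.1 hH.1, fun A hA => ?_⟩
  obtain ⟨T, hT⟩ := hG.2 (A.map (MonoidHom.fst G H)) (fg_map _ hA)
  obtain ⟨T', hT'⟩ := hH.2 (A.map (MonoidHom.snd G H)) (fg_map _ hA)
  let g₁ : A →* A.map (MonoidHom.fst G H) :=
    ((MonoidHom.fst G H).comp A.subtype).codRestrict (A.map (MonoidHom.fst G H))
      (fun k => ⟨k, k.2, rfl⟩)
  let g₂ : A →* A.map (MonoidHom.snd G H) :=
    ((MonoidHom.snd G H).comp A.subtype).codRestrict (A.map (MonoidHom.snd G H))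
      (fun k => ⟨k, k.2, rfl⟩)
  let g : A →* A.map (MonoidHom.fst G H) × A.map (MonoidHom.snd G H) := g₁.prod g₂
  have hg : Function.Injective g := by
    intro a b hab
    have h1 := congrArg (fun w : A.map (MonoidHom.fst G H) × A.map (MonoidHom.snd G H) =>
      ((w.1 : G), (w.2 : H))) hab
    exact Subtype.ext h1
  refine ⟨T ∪ T', fun l hl => ⟨fun h => ?_, fun h => ?_⟩⟩
  · exact (D.prod hl ((hT l hl).1 h) ((hT' l hl).1 h)).sub g hg
  · obtain ⟨E, hE⟩ := (hT l hl).2 h
    obtain ⟨E', hE'⟩ := (hT' l hl).2 h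
    refine ⟨max E E', fun p hp hpp => (D.prod hl (hE p ?_ ?_) (hE' p ?_ ?_)).sub g hg⟩
    · exact lt_of_le_of_lt (le_max_left _ _) hp
    · exact hpp.mono Finset.subset_union_left (le_max_left _ _)
    · exact lt_of_le_of_lt (le_max_right _ _) hp
    · exact hpp.mono Finset.subset_union_right (le_max_right _ _)

theorem UK.free {G : Type} [Group G] {d : ℕ} (k : ℕ) (hG : UK K adic G d) :
    UK K adic (Coprod G (FreeGroup (Fin k))) d := by
  refine ⟨hG.1, fun B hB => ?_⟩
  obtain ⟨S, hS⟩ := hB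
  obtain ⟨A, hA, hSA⟩ := exists_fg_finset S
  obtain ⟨T, hT⟩ := hG.2 A hA
  set φ := Coprod.map A.subtype (MonoidHom.id (FreeGroup (Fin k))) with hφ
  have hKA : B ≤ φ.range := by
    rw [← hS, Subgroup.closure_le]
    exact hSA
  let g : B →* Coprod A (FreeGroup (Fin k)) :=
    ((MonoidHom.ofInjective (map_inj' (F := FreeGroup (Fin k)) A)).symm.toMonoidHom).comp
      (Subgroup.inclusion hKA)
  have hg : Function.Injective g :=
    (MonoidHom.ofInjective (map_inj' (F := FreeGroup (Fin k)) A)).symm.injective.comp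
      (Subgroup.inclusion_injective hKA)
  refine ⟨T, fun l hl => ⟨fun h => (((hT l hl).1 h).free k).sub g hg, fun h => ?_⟩⟩
  obtain ⟨E, hE⟩ := (hT l hl).2 h
  exact ⟨E, fun p hp hpp => ((hE p hp hpp).free k).sub g hg⟩

theorem UK.main (hex : ∀ (T : Finset K) (l E N : ℕ), l.Prime → ∃ p, N < p ∧ PK K T l E p)
    {G : Type} [Group G] {d : ℕ} (hG : UK K adic G d)
    (v : ℝ) (hv : Val (⊤ : Subring ℂ) G v) : ∃ z : ℤ, (d : ℝ) * v = z := by
  classical
  refine val_of_fg (fun H hH v hv => ?_) v hv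
  obtain ⟨T, hT⟩ := hG.2 H hH
  have h1 : ∀ l : ℕ, ∃ p : ℕ, l.Prime → D l p H d := by
    intro l
    by_cases hl : l.Prime
    · by_cases hs : Sp2 adic l
      · exact ⟨2, fun _ => (hT l hl).1 hs⟩
      · obtain ⟨E, hE⟩ := (hT l hl).2 hs
        obtain ⟨p, hp, hpp⟩ := hex T l E E hl
        exact ⟨p, fun _ => hE p hp hpp⟩
    · exact ⟨0, fun h => absurd h hl⟩
  choose π hπ using h1
  exact CP.main (π := π) ⟨hG.1, fun l hl => hπ l hl⟩ v hv

end Pool.Agent.H320.CF
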